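import Mathlib

set_option autoImplicit false

/-!
# A zero-one law for events with disjoint windows in a filtration
-/

open MeasureTheory Filter Finset
open scoped Topology

namespace Pool.Agent.H35J

variable {Ω : Type*} [mΩ : MeasurableSpace Ω] {μ : Measure Ω} [IsProbabilityMeasure μ]
  {ℱ : Filtration ℕ mΩ} {S : ℕ → Set Ω}

/-- no element of `(a, b]` is chosen -/
def gap (S : ℕ → Set Ω) (a b : ℕ) : Set Ω := {ω | ∀ m, a < m → m ≤ b → ω ∉ S m}

lemma gap_self (S : ℕ → Set Ω) (a : ℕ) : gap S a a = Set.univ := by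
  ext ω
  simp only [gap, Set.mem_ofPred_eq, Set.mem_univ, iff_true]
  intro m h1 h2
  omega

lemma gap_succ (S : ℕ → Set Ω) {a b : ℕ} (h : a ≤ b) : gap S a (b + 1) = gap S a b \ S (b + 1) := by
  ext ω
  simp only [gap, Set.mem_ofPred_eq, Set.mem_sdiff]
  constructor
  · intro h1
    exact ⟨fun m h2 h3 => h1 m h2 (by omega), h1 (b + 1) (by omega) le_rfl⟩
  · rintro ⟨h1, h2⟩ m h3 h4
    rcases Nat.lt_or_ge m (b + 1) with h5 | h5
    · exact h1 m h3 (by omega)
    · have : m = b + 1 := by omega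
      rw [this]
      exact h2

lemma meas_gap (hS : ∀ n, MeasurableSet[ℱ n] (S n)) (a b : ℕ) : MeasurableSet[ℱ b] (gap S a b) := by
  have : gap S a b = ⋂ m ∈ Set.Ioc a b, (S m)ᶜ := by
    ext ω
    simp only [gap, Set.mem_ofPred_eq, Set.mem_Ioc, Set.mem_iInter, Set.mem_compl_iff, and_imp]
  rw [this]
  refine MeasurableSet.biInter (Set.to_countable _) fun m hm => ?_
  exact (ℱ.mono hm.2 _ (hS m)).compl

/-- products of conditional probabilities -/
lemma gap_bounds (hS : ∀ n, MeasurableSet[ℱ n] (S n)) {l u : ℕ → ℝ} {n0 : ℕ}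
    (hl1 : ∀ n, n0 ≤ n → l (n + 1) ≤ 1) (hu1 : ∀ n, n0 ≤ n → u (n + 1) ≤ 1)
    (hb : ∀ n, n0 ≤ n → ∀ B, MeasurableSet[ℱ n] B →
      l (n + 1) * μ.real B ≤ μ.real (B ∩ S (n + 1)) ∧ μ.real (B ∩ S (n + 1)) ≤ u (n + 1) * μ.real B)
    {a b : ℕ} (ha : n0 ≤ a) (hab : a ≤ b) {A : Set Ω} (hA : MeasurableSet[ℱ a] A) :
    (∏ m ∈ Ioc a b, (1 - u m)) * μ.real A ≤ μ.real (A ∩ gap S a b) ∧
      μ.real (A ∩ gap S a b) ≤ (∏ m ∈ Ioc a b, (1 - l m)) * μ.real A := by
  induction b, hab using Nat.le_induction with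
  | base => simp [gap_self]
  | succ b hab ih =>
    have hB : MeasurableSet[ℱ b] (A ∩ gap S a b) := (ℱ.mono hab _ hA).inter (meas_gap hS a b)
    obtain ⟨h1, h2⟩ := hb b (ha.trans hab) _ hB
    have hSm : MeasurableSet (S (b + 1)) := ℱ.le _ _ (hS (b + 1))
    have h3 : μ.real (A ∩ gap S a (b + 1)) =
        μ.real (A ∩ gap S a b) - μ.real (A ∩ gap S a b ∩ S (b + 1)) := by
      rw [gap_succ S hab, ← Set.inter_sdiff_assoc]
      have := measureReal_sdiff_add_inter (μ := μ) (s := A ∩ gap S a b) hSm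
      linarith
    have h4 : Ioc a (b + 1) = insert (b + 1) (Ioc a b) := by
      ext m
      simp only [mem_Ioc, mem_insert]
      omega
    have h5 : b + 1 ∉ Ioc a b := by simp
    rw [h4, prod_insert h5, prod_insert h5, h3]
    have hl := hl1 b (ha.trans hab)
    have hu := hu1 b (ha.trans hab)
    constructor
    · calc (1 - u (b + 1)) * (∏ m ∈ Ioc a b, (1 - u m)) * μ.real A
          = (1 - u (b + 1)) * ((∏ m ∈ Ioc a b, (1 - u m)) * μ.real A) := by ring
        _ ≤ (1 - u (b + 1)) * μ.real (A ∩ gap S a b) :=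
          mul_le_mul_of_nonneg_left ih.1 (by linarith)
        _ ≤ _ := by linarith
    · calc μ.real (A ∩ gap S a b) - μ.real (A ∩ gap S a b ∩ S (b + 1))
          ≤ (1 - l (b + 1)) * μ.real (A ∩ gap S a b) := by linarith
        _ ≤ (1 - l (b + 1)) * ((∏ m ∈ Ioc a b, (1 - l m)) * μ.real A) :=
          mul_le_mul_of_nonneg_left ih.2 (by linarith)
        _ = _ := by ring

/-- one stage of the divergence part: the second moment method -/
lemma stage {E : ℕ → Set Ω} {e : ℕ → ℕ} {h H : ℕ → ℝ} {C : ℝ} {n1 : ℕ} (hn1 : 1 ≤ n1)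
    (hE : ∀ n, MeasurableSet[ℱ (e n)] (E n))
    (hh : ∀ n, 0 ≤ h n) (hH : ∀ n, 0 ≤ H n) (hC : ∀ n, H n ≤ C * h n) (hC0 : 0 ≤ C)
    (hb : ∀ n, n1 ≤ n → ∀ A, MeasurableSet[ℱ (n - 1)] A →
      h n * μ.real A ≤ μ.real (A ∩ E n) ∧ μ.real (A ∩ E n) ≤ H n * μ.real A)
    (hdis : ∀ n n', n1 ≤ n → n < n' → n' ≤ e n → Disjoint (E n) (E n'))
    {N M : ℕ} (hN : n1 ≤ N) (hsum : 1 ≤ ∑ n ∈ Icc N M, h n)
    {A : Set Ω} (hA : MeasurableSet[ℱ (N - 1)] A) :
    μ.real (A ∩ {ω | ∃ n ∈ Icc N M, ω ∈ E n}) ≥ (1 / (1 + 2 * C)) * μ.real A := by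
  classical
  set s : ℝ := ∑ n ∈ Icc N M, h n with hs
  set U : Set Ω := {ω | ∃ n ∈ Icc N M, ω ∈ E n} with hU
  have hEm : ∀ n, MeasurableSet (E n) := fun n => ℱ.le _ _ (hE n)
  have hAm : MeasurableSet A := ℱ.le _ _ hA
  have hUm : MeasurableSet U := by
    have : U = ⋃ n ∈ (Icc N M : Finset ℕ), E n := by
      ext ω
      simp [hU]
    rw [this]
    exact Finset.measurableSet_biUnion _ fun n _ => hEm n
  -- first moment
  set E1 : ℝ := ∑ n ∈ Icc N M, μ.real (A ∩ E n) with hE1
  have h1 : s * μ.real A ≤ E1 := by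
    rw [hs, sum_mul]
    refine sum_le_sum fun n hn => ?_
    have hn' := (mem_Icc.1 hn).1
    exact (hb n (hN.trans hn') A (ℱ.mono (by omega) _ hA)).1
  -- second moment
  set E2 : ℝ := ∑ n ∈ Icc N M, ∑ m ∈ Icc N M, μ.real (A ∩ (E n ∩ E m)) with hE2
  have hpair : ∀ n ∈ Icc N M, ∀ m ∈ Icc N M, n < m →
      μ.real (A ∩ (E n ∩ E m)) ≤ H m * μ.real (A ∩ E n) := by
    intro n hn m hm hnm
    rw [mem_Icc] at hn hm
    by_cases hme : m ≤ e n
    · have := hdis n m (hN.trans hn.1) hnm hme
      rw [Set.disjoint_iff_inter_eq_empty.1 this]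
      simp only [Set.inter_empty, measureReal_empty]
      exact mul_nonneg (hH m) measureReal_nonneg
    · push Not at hme
      have hB : MeasurableSet[ℱ (m - 1)] (A ∩ E n) :=
        (ℱ.mono (by omega) _ hA).inter (ℱ.mono (by omega) _ (hE n))
      have := (hb m (by omega) _ hB).2
      rwa [Set.inter_assoc] at this
  have h2 : E2 ≤ (1 + 2 * (C * s)) * E1 := by
    have hsplit : ∀ n ∈ Icc N M, ∀ m ∈ Icc N M, μ.real (A ∩ (E n ∩ E m)) ≤
        (if n = m then μ.real (A ∩ E n) else 0) + H m * μ.real (A ∩ E n) + H n * μ.real (A ∩ E m) := by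
      intro n hn m hm
      have hn0 : 0 ≤ H m * μ.real (A ∩ E n) := mul_nonneg (hH m) measureReal_nonneg
      have hm0 : 0 ≤ H n * μ.real (A ∩ E m) := mul_nonneg (hH n) measureReal_nonneg
      rcases lt_trichotomy n m with hlt | heq | hgt
      · rw [if_neg (by omega)]
        linarith [hpair n hn m hm hlt]
      · subst heq
        rw [if_pos rfl, Set.inter_self]
        linarith
      · rw [if_neg (by omega), Set.inter_comm (E n) (E m)]
        linarith [hpair m hm n hn hgt]
    have hHs : ∑ m ∈ Icc N M, H m ≤ C * s := by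
      rw [hs, mul_sum]
      exact sum_le_sum fun m _ => hC m
    have hE10 : 0 ≤ E1 := sum_nonneg fun n _ => measureReal_nonneg
    calc E2 ≤ ∑ n ∈ Icc N M, ∑ m ∈ Icc N M, ((if n = m then μ.real (A ∩ E n) else 0) +
          H m * μ.real (A ∩ E n) + H n * μ.real (A ∩ E m)) :=
          sum_le_sum fun n hn => sum_le_sum fun m hm => hsplit n hn m hm
      _ = E1 + (∑ m ∈ Icc N M, H m) * E1 + (∑ m ∈ Icc N M, H m) * E1 := by
          simp only [sum_add_distrib]
          congr 1
          · congr 1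
            · rw [hE1]
              refine sum_congr rfl fun n hn => ?_
              rw [sum_ite_eq, if_pos hn]
            · rw [hE1, sum_mul_sum, sum_comm]
          · rw [hE1, sum_mul_sum]
      _ ≤ E1 + (C * s) * E1 + (C * s) * E1 := by
          have := mul_le_mul_of_nonneg_right hHs hE10
          linarith
      _ = _ := by ring
  -- pointwise inequality
  set c : ℝ := 1 / (1 + 2 * (C * s)) with hc
  have hCs : 0 ≤ C * s := mul_nonneg hC0 (by linarith)
  have hden : 0 < 1 + 2 * (C * s) := by positivity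
  have hc0 : 0 < c := by positivity
  have hint : μ.real (A ∩ U) ≥ 2 * c * E1 - c ^ 2 * E2 := by
    have e1 : E1 = ∫ ω, ∑ n ∈ Icc N M, (A ∩ E n).indicator (fun _ => (1 : ℝ)) ω ∂μ := by
      rw [integral_finsetSum _ fun n _ =>
        (integrable_const (1 : ℝ)).indicator (hAm.inter (hEm n))]
      refine sum_congr rfl fun n _ => ?_
      rw [integral_indicator_const _ (hAm.inter (hEm n))]
      simp
    have e2 : E2 = ∫ ω, ∑ n ∈ Icc N M, ∑ m ∈ Icc N M,
        (A ∩ (E n ∩ E m)).indicator (fun _ => (1 : ℝ)) ω ∂μ := by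
      rw [integral_finsetSum]
      · refine sum_congr rfl fun n _ => ?_
        rw [integral_finsetSum]
        · refine sum_congr rfl fun m _ => ?_
          rw [integral_indicator_const _ (hAm.inter ((hEm n).inter (hEm m)))]
          simp
        · exact fun m _ => (integrable_const (1 : ℝ)).indicator (hAm.inter ((hEm n).inter (hEm m)))
      · exact fun n _ => integrable_finsetSum _ fun m _ =>
          (integrable_const (1 : ℝ)).indicator (hAm.inter ((hEm n).inter (hEm m)))
    have e3 : μ.real (A ∩ U) = ∫ ω, (A ∩ U).indicator (fun _ => (1 : ℝ)) ω ∂μ := by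
      rw [integral_indicator_const _ (hAm.inter hUm)]
      simp
    rw [e1, e2, e3, ← integral_const_mul, ← integral_const_mul, ← integral_sub, ge_iff_le]
    · refine integral_mono ?_ ?_ ?_
      · refine Integrable.sub (Integrable.const_mul ?_ _) (Integrable.const_mul ?_ _)
        · exact integrable_finsetSum _ fun n _ =>
            (integrable_const (1 : ℝ)).indicator (hAm.inter (hEm n))
        · exact integrable_finsetSum _ fun n _ => integrable_finsetSum _ fun m _ =>
            (integrable_const (1 : ℝ)).indicator (hAm.inter ((hEm n).inter (hEm m)))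
      · exact (integrable_const (1 : ℝ)).indicator (hAm.inter hUm)
      · intro ω
        simp only
        by_cases hωA : ω ∈ A
        · set x : ℝ := ∑ n ∈ Icc N M, (E n).indicator (fun _ => (1 : ℝ)) ω with hx
          have i1 : ∑ n ∈ Icc N M, (A ∩ E n).indicator (fun _ => (1 : ℝ)) ω = x := by
            refine sum_congr rfl fun n _ => ?_
            by_cases h : ω ∈ E n
            · rw [Set.indicator_of_mem (show ω ∈ A ∩ E n from ⟨hωA, h⟩), Set.indicator_of_mem h]
            · rw [Set.indicator_of_notMem (fun h' => h h'.2), Set.indicator_of_notMem h]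
          have i2 : ∑ n ∈ Icc N M, ∑ m ∈ Icc N M,
              (A ∩ (E n ∩ E m)).indicator (fun _ => (1 : ℝ)) ω = x * x := by
            rw [hx, sum_mul_sum]
            refine sum_congr rfl fun n _ => sum_congr rfl fun m _ => ?_
            by_cases h : ω ∈ E n
            · by_cases h' : ω ∈ E m
              · rw [Set.indicator_of_mem (show ω ∈ A ∩ (E n ∩ E m) from ⟨hωA, h, h'⟩),
                  Set.indicator_of_mem h, Set.indicator_of_mem h', one_mul]
              · rw [Set.indicator_of_notMem (fun h'' => h' h''.2.2), Set.indicator_of_notMem h',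
                  mul_zero]
            · rw [Set.indicator_of_notMem (fun h'' => h h''.2.1), Set.indicator_of_notMem h,
                zero_mul]
          rw [i1, i2]
          by_cases hωU : ω ∈ U
          · rw [Set.indicator_of_mem (show ω ∈ A ∩ U from ⟨hωA, hωU⟩)]
            nlinarith [sq_nonneg (c * x - 1)]
          · have hx0 : x = 0 := by
              rw [hx]
              refine sum_eq_zero fun n hn => ?_
              rw [Set.indicator_of_notMem]
              intro h
              exact hωU ⟨n, hn, h⟩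
            rw [Set.indicator_of_notMem (fun h => hωU h.2), hx0]
            simp
        · have i1 : ∑ n ∈ Icc N M, (A ∩ E n).indicator (fun _ => (1 : ℝ)) ω = 0 :=
            sum_eq_zero fun n _ => Set.indicator_of_notMem (fun h => hωA h.1) _
          have i2 : ∑ n ∈ Icc N M, ∑ m ∈ Icc N M,
              (A ∩ (E n ∩ E m)).indicator (fun _ => (1 : ℝ)) ω = 0 :=
            sum_eq_zero fun n _ => sum_eq_zero fun m _ =>
              Set.indicator_of_notMem (fun h => hωA h.1) _
          rw [i1, i2, Set.indicator_of_notMem (fun h => hωA h.1)]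
          simp
    · exact Integrable.const_mul (integrable_finsetSum _ fun n _ =>
        (integrable_const (1 : ℝ)).indicator (hAm.inter (hEm n))) _
    · exact Integrable.const_mul (integrable_finsetSum _ fun n _ => integrable_finsetSum _
        fun m _ => (integrable_const (1 : ℝ)).indicator (hAm.inter ((hEm n).inter (hEm m)))) _
  have h3 : c ^ 2 * E2 ≤ c * E1 := by
    have : c ^ 2 * E2 ≤ c ^ 2 * ((1 + 2 * (C * s)) * E1) :=
      mul_le_mul_of_nonneg_left h2 (by positivity)
    have h4 : c ^ 2 * ((1 + 2 * (C * s)) * E1) = c * E1 := by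
      rw [hc]
      field_simp
    linarith
  have h5 : μ.real (A ∩ U) ≥ c * E1 := by linarith
  have hμA : 0 ≤ μ.real A := measureReal_nonneg
  have h6 : c * E1 ≥ c * (s * μ.real A) := mul_le_mul_of_nonneg_left h1 hc0.le
  have h7 : c * s ≥ 1 / (1 + 2 * C) := by
    rw [hc, ge_iff_le, div_mul_eq_mul_div, one_mul, div_le_div_iff₀ (by positivity) hden]
    nlinarith
  calc μ.real (A ∩ U) ≥ c * (s * μ.real A) := by linarith
    _ = (c * s) * μ.real A := by ring
    _ ≥ (1 / (1 + 2 * C)) * μ.real A := mul_le_mul_of_nonneg_right h7 hμA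

/-- the divergence part -/
lemma diverge {E : ℕ → Set Ω} {e : ℕ → ℕ} {h H : ℕ → ℝ} {C : ℝ} {n1 : ℕ} (hn1 : 1 ≤ n1)
    (hE : ∀ n, MeasurableSet[ℱ (e n)] (E n))
    (hh : ∀ n, 0 ≤ h n) (hH : ∀ n, 0 ≤ H n) (hC : ∀ n, H n ≤ C * h n) (hC0 : 0 ≤ C)
    (hb : ∀ n, n1 ≤ n → ∀ A, MeasurableSet[ℱ (n - 1)] A →
      h n * μ.real A ≤ μ.real (A ∩ E n) ∧ μ.real (A ∩ E n) ≤ H n * μ.real A)
    (hdis : ∀ n n', n1 ≤ n → n < n' → n' ≤ e n → Disjoint (E n) (E n'))
    (hsum : ¬ Summable h) : ∀ᵐ ω ∂μ, ∃ᶠ n in atTop, ω ∈ E n := by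
  classical
  set c : ℝ := 1 / (1 + 2 * C) with hc
  have hc0 : 0 < c := by positivity
  have hc1 : c ≤ 1 := by
    rw [hc, div_le_one (by positivity)]
    linarith
  -- tails have large sums
  have htail : ∀ N, ∃ M, 1 ≤ ∑ n ∈ Icc N M, h n := by
    intro N
    have htend := (not_summable_iff_tendsto_nat_atTop_of_nonneg hh).1 hsum
    obtain ⟨M, hM⟩ := (htend.eventually_ge_atTop (1 + ∑ n ∈ range N, h n)).exists
    refine ⟨M, ?_⟩
    have h1 : ∑ n ∈ range M, h n ≤ ∑ n ∈ range N, h n + ∑ n ∈ Icc N M, h n := by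
      rw [← sum_union]
      · refine sum_le_sum_of_subset_of_nonneg ?_ fun n _ _ => hh n
        intro n hn
        rw [mem_union, mem_range, mem_Icc]
        rw [mem_range] at hn
        omega
      · rw [disjoint_left]
        intro n hn hn'
        rw [mem_range] at hn
        rw [mem_Icc] at hn'
        omega
    linarith
  set Z : ℕ → ℕ → Set Ω := fun N M => {ω | ∀ n ∈ Icc N M, ω ∉ E n} with hZ
  have key : ∀ N, n1 ≤ N → ∀ k : ℕ, ∃ M, μ.real (Z N M) ≤ (1 - c) ^ k := by
    intro N hN k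
    induction k with
    | zero =>
      refine ⟨N, ?_⟩
      rw [pow_zero]
      exact measureReal_le_one
    | succ k ih =>
      obtain ⟨M, hM⟩ := ih
      set M' : ℕ := (range (M + 1)).sup e + N + M with hM'
      obtain ⟨M2, hM2⟩ := htail (M' + 1)
      have hAm : MeasurableSet[ℱ (M' + 1 - 1)] (Z N M) := by
        have : Z N M = ⋂ n ∈ Set.Icc N M, (E n)ᶜ := by
          ext ω
          simp only [hZ, mem_Icc, Set.mem_ofPred_eq, Set.mem_Icc, Set.mem_iInter, Set.mem_compl_iff]
        rw [this]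
        refine MeasurableSet.biInter (Set.to_countable _) fun n hn => ?_
        have h1 : e n ≤ M' + 1 - 1 := by
          have : e n ≤ (range (M + 1)).sup e := le_sup (f := e) (mem_range.2 (by
            have := hn.2; omega))
          omega
        exact (ℱ.mono h1 _ (hE n)).compl
      have h1 := stage hn1 hE hh hH hC hC0 hb hdis (N := M' + 1) (M := M2) (by omega) hM2 hAm
      refine ⟨max M M2, ?_⟩
      set U : Set Ω := {ω | ∃ n ∈ Icc (M' + 1) M2, ω ∈ E n} with hU
      have hUm : MeasurableSet U := by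
        have : U = ⋃ n ∈ (Icc (M' + 1) M2 : Finset ℕ), E n := by
          ext ω
          simp [hU]
        rw [this]
        exact Finset.measurableSet_biUnion _ fun n _ => ℱ.le _ _ (hE n)
      have h2 : Z N (max M M2) ⊆ Z N M \ U := by
        intro ω hω
        refine ⟨fun n hn => hω n ?_, ?_⟩
        · rw [mem_Icc] at hn ⊢
          exact ⟨hn.1, hn.2.trans (le_max_left _ _)⟩
        · rintro ⟨n, hn, hn2⟩
          refine hω n ?_ hn2
          rw [mem_Icc] at hn ⊢
          exact ⟨by omega, hn.2.trans (le_max_right _ _)⟩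
      have h3 : μ.real (Z N (max M M2)) ≤ μ.real (Z N M \ U) := measureReal_mono h2
      have h4 := measureReal_sdiff_add_inter (μ := μ) (s := Z N M) hUm
      have h5 : μ.real (Z N (max M M2)) ≤ (1 - c) * μ.real (Z N M) := by
        have : μ.real (Z N M ∩ U) ≥ c * μ.real (Z N M) := h1
        linarith
      calc μ.real (Z N (max M M2)) ≤ (1 - c) * μ.real (Z N M) := h5
        _ ≤ (1 - c) * (1 - c) ^ k := mul_le_mul_of_nonneg_left hM (by linarith)
        _ = (1 - c) ^ (k + 1) := by ring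
  have hnull : ∀ N, n1 ≤ N → μ {ω | ∀ n, N ≤ n → ω ∉ E n} = 0 := by
    intro N hN
    have h1 : ∀ k : ℕ, μ.real {ω | ∀ n, N ≤ n → ω ∉ E n} ≤ (1 - c) ^ k := by
      intro k
      obtain ⟨M, hM⟩ := key N hN k
      refine (measureReal_mono ?_).trans hM
      intro ω hω n hn
      exact hω n (mem_Icc.1 hn).1
    have h2 : Tendsto (fun k : ℕ => (1 - c) ^ k) atTop (𝓝 0) :=
      tendsto_pow_atTop_nhds_zero_of_lt_one (by linarith) (by linarith)
    have h3 : μ.real {ω | ∀ n, N ≤ n → ω ∉ E n} ≤ 0 :=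
      ge_of_tendsto' h2 h1
    have h4 : μ.real {ω | ∀ n, N ≤ n → ω ∉ E n} = 0 := le_antisymm h3 measureReal_nonneg
    rwa [measureReal_eq_zero_iff] at h4
  have hall : ∀ᵐ ω ∂μ, ∀ N, n1 ≤ N → ∃ n, N ≤ n ∧ ω ∈ E n := by
    rw [ae_all_iff]
    intro N
    by_cases hN : n1 ≤ N
    · have := hnull N hN
      rw [ae_iff]
      convert this using 2
      ext ω
      simp only [Set.mem_ofPred_eq]
      push Not
      simp [hN]
    · exact Eventually.of_forall fun ω h => absurd h hN
  filter_upwards [hall] with ω hω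
  rw [frequently_atTop]
  intro a
  obtain ⟨n, hn, hn2⟩ := hω (max a n1) (le_max_right _ _)
  exact ⟨n, (le_max_left _ _).trans hn, hn2⟩

/-- the convergence part -/
lemma converge {E : ℕ → Set Ω} {H : ℕ → ℝ} {n1 : ℕ} (hH : ∀ n, 0 ≤ H n)
    (hb : ∀ n, n1 ≤ n → μ.real (E n) ≤ H n) (hsum : Summable H) :
    ∀ᵐ ω ∂μ, ∀ᶠ n in atTop, ω ∉ E n := by
  have h1 : ∑' n, μ (E (n + n1)) ≠ ⊤ := by
    have h2 : ∀ n, μ (E (n + n1)) ≤ ENNReal.ofReal (H (n + n1)) := by
      intro n
      rw [← ofReal_measureReal]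
      exact ENNReal.ofReal_le_ofReal (hb _ (by omega))
    refine ne_top_of_le_ne_top ?_ (ENNReal.tsum_le_tsum h2)
    have h3 : Summable fun n => H (n + n1) := (summable_nat_add_iff n1).2 hsum
    rw [← ENNReal.ofReal_tsum_of_nonneg (fun n => hH _) h3]
    exact ENNReal.ofReal_ne_top
  have h2 := ae_eventually_notMem h1
  filter_upwards [h2] with ω hω
  rw [eventually_atTop] at hω ⊢
  obtain ⟨a, ha⟩ := hω
  refine ⟨a + n1, fun n hn => ?_⟩
  have := ha (n - n1) (by omega)
  rwa [Nat.sub_add_cancel (by omega)] at this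

end Pool.Agent.H35J
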