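import Mathlib

set_option autoImplicit false

/-!
# Counting integers coprime to `Q` in intervals, and elementary inequalities
-/

open Finset

namespace Pool.Agent.H35J

lemma count_lower_aux (Q : ℕ) (n j : ℕ) :
    Q.totient * j ≤ ((Ico n (n + Q * j)).filter (fun m => Q.Coprime m)).card := by
  induction j with
  | zero => simp
  | succ j ih =>
    have h1 : Ico n (n + Q * (j + 1)) = Ico n (n + Q * j) ∪ Ico (n + Q * j) (n + Q * j + Q) := by
      rw [Ico_union_Ico_eq_Ico (by omega) (by omega)]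
      congr 1
      ring
    rw [h1, filter_union, card_union_of_disjoint, Nat.filter_coprime_Ico_eq_totient]
    · rw [Nat.mul_succ]
      omega
    · refine disjoint_filter_filter ?_
      exact Ico_disjoint_Ico_consecutive _ _ _

/-- the number of integers coprime to `Q` in `(n, e]` -/
def cnt (Q n e : ℕ) : ℕ := ((Ioc n e).filter (fun m => m.Coprime Q)).card

lemma Ioc_eq_Ico' (n e : ℕ) : Ioc n e = Ico (n + 1) (e + 1) := by
  ext m
  simp only [mem_Ioc, mem_Ico]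
  omega

lemma cnt_lower {Q : ℕ} (hQ : 0 < Q) {n e : ℕ} (h : n ≤ e) :
    (Q.totient : ℝ) / Q * ((e : ℝ) - n) - Q.totient ≤ cnt Q n e := by
  have h1 := count_lower_aux Q (n + 1) ((e - n) / Q)
  have h2 : (Ico (n + 1) (n + 1 + Q * ((e - n) / Q))).filter (fun m => Q.Coprime m) ⊆
      (Ioc n e).filter (fun m => m.Coprime Q) := by
    intro m hm
    rw [mem_filter, mem_Ico] at hm
    rw [mem_filter, mem_Ioc]
    have h3 : Q * ((e - n) / Q) ≤ e - n := Nat.mul_div_le _ _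
    exact ⟨⟨by omega, by omega⟩, hm.2.symm⟩
  have h3 : Q.totient * ((e - n) / Q) ≤ cnt Q n e := h1.trans (card_le_card h2)
  have h4 : ((e - n : ℕ) : ℝ) = (e : ℝ) - n := by push_cast [h]; ring
  have hQ' : (0 : ℝ) < Q := by exact_mod_cast hQ
  have h5 : ((e : ℝ) - n) / Q - 1 ≤ (((e - n) / Q : ℕ) : ℝ) := by
    rw [← h4]
    have h6 : ((e - n : ℕ) : ℝ) / Q < (((e - n) / Q : ℕ) : ℝ) + 1 := by
      rw [div_lt_iff₀ hQ']
      have := Nat.lt_mul_div_succ (e - n) hQ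
      have h7 : ((e - n : ℕ) : ℝ) < ((Q * ((e - n) / Q + 1) : ℕ) : ℝ) := by exact_mod_cast this
      push_cast at h7 ⊢
      linarith
    linarith
  have h6 : ((Q.totient * ((e - n) / Q) : ℕ) : ℝ) ≤ cnt Q n e := by exact_mod_cast h3
  push_cast at h6
  have h7 : (0 : ℝ) ≤ Q.totient := by positivity
  have h8 := mul_le_mul_of_nonneg_left h5 h7
  calc (Q.totient : ℝ) / Q * ((e : ℝ) - n) - Q.totient
      = Q.totient * (((e : ℝ) - n) / Q - 1) := by ring
    _ ≤ _ := h8.trans h6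

lemma cnt_upper {Q : ℕ} (hQ : 0 < Q) {n e : ℕ} (h : n ≤ e) :
    (cnt Q n e : ℝ) ≤ (Q.totient : ℝ) / Q * ((e : ℝ) - n) + Q.totient := by
  have h1 := Nat.Ico_filter_coprime_le (n + 1) (e - n) hQ.ne'
  have h2 : (Ioc n e).filter (fun m => m.Coprime Q) ⊆
      (Ico (n + 1) (n + 1 + (e - n))).filter (fun m => Q.Coprime m) := by
    intro m hm
    rw [mem_filter, mem_Ioc] at hm
    rw [mem_filter, mem_Ico]
    exact ⟨⟨by omega, by omega⟩, hm.2.symm⟩
  have h3 : cnt Q n e ≤ Q.totient * ((e - n) / Q + 1) := (card_le_card h2).trans h1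
  have h4 : ((e - n : ℕ) : ℝ) = (e : ℝ) - n := by push_cast [h]; ring
  have hQ' : (0 : ℝ) < Q := by exact_mod_cast hQ
  have h5 : (((e - n) / Q : ℕ) : ℝ) ≤ ((e : ℝ) - n) / Q := by
    rw [← h4]
    exact Nat.cast_div_le
  have h6 : (cnt Q n e : ℝ) ≤ ((Q.totient * ((e - n) / Q + 1) : ℕ) : ℝ) := by exact_mod_cast h3
  push_cast at h6
  have h7 : (0 : ℝ) ≤ Q.totient := by positivity
  have h8 := mul_le_mul_of_nonneg_left h5 h7
  calc (cnt Q n e : ℝ) ≤ Q.totient * ((((e - n) / Q : ℕ) : ℝ) + 1) := h6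
    _ ≤ Q.totient * (((e : ℝ) - n) / Q) + Q.totient := by linarith
    _ = _ := by ring

lemma prod_ite_cnt (Q n e : ℕ) (U : ℝ) :
    ∏ m ∈ Ioc n e, (1 - if m.Coprime Q then U else 0) = (1 - U) ^ cnt Q n e := by
  classical
  rw [cnt, ← prod_const, prod_filter]
  refine prod_congr rfl fun m _ => ?_
  split_ifs with h
  · rfl
  · simp

lemma one_sub_ge {U : ℝ} (h0 : 0 ≤ U) (h1 : U ≤ 1 / 2) : Real.exp (-(U + 2 * U ^ 2)) ≤ 1 - U := by
  have h2 : 0 < 1 + (U + 2 * U ^ 2) := by positivity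
  have h3 : 1 + (U + 2 * U ^ 2) ≤ Real.exp (U + 2 * U ^ 2) := by
    have := Real.add_one_le_exp (U + 2 * U ^ 2)
    linarith
  rw [Real.exp_neg, inv_le_comm₀ (Real.exp_pos _) (by linarith)]
  refine le_trans ?_ h3
  rw [inv_le_iff_one_le_mul₀ (by linarith)]
  nlinarith [mul_nonneg (sq_nonneg U) (by linarith : (0:ℝ) ≤ 1 - 2 * U)]

lemma pow_ge {U : ℝ} (h0 : 0 ≤ U) (h1 : U ≤ 1 / 2) (c : ℕ) :
    Real.exp (-(c * (U + 2 * U ^ 2))) ≤ (1 - U) ^ c := by
  have h2 := one_sub_ge h0 h1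
  calc Real.exp (-(c * (U + 2 * U ^ 2))) = Real.exp (-(U + 2 * U ^ 2)) ^ c := by
        rw [← Real.exp_nat_mul]
        congr 1
        ring
    _ ≤ _ := pow_le_pow_left₀ (Real.exp_pos _).le h2 _

lemma pow_le_exp {L : ℝ} (h1 : L ≤ 1) (c : ℕ) :
    (1 - L) ^ c ≤ Real.exp (-(c * L)) := by
  have h2 : 1 - L ≤ Real.exp (-L) := by
    have := Real.add_one_le_exp (-L)
    linarith
  calc (1 - L) ^ c ≤ Real.exp (-L) ^ c := pow_le_pow_left₀ (by linarith) h2 _
    _ = _ := by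
      rw [← Real.exp_nat_mul]
      congr 1
      ring

end Pool.Agent.H35J
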