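import Mathlib

set_option autoImplicit false

/-!
# The two exponent inequalities
-/

namespace Pool.Agent.H35J

/-- exponent in the lower bound -/
lemma expo_upper {κ K C y T φ c : ℝ} (hκ : 1 ≤ κ) (hK : 0 ≤ K) (hC : 0 ≤ C) (hφ : 0 ≤ φ)
    (hy : 1 ≤ y) (hyU : κ * (1 + K / y) / y ≤ 1 / 2) (hT0 : 0 ≤ T) (hT : T ≤ (1 + C) * y)
    (hc : c ≤ y * T / κ + φ) :
    c * (κ * (1 + K / y) / y + 2 * (κ * (1 + K / y) / y) ^ 2) ≤
      T + (K * (1 + C) + 2 * κ * (1 + C) * (1 + K) ^ 2 + φ) := by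
  have hy0 : 0 < y := by linarith
  have hκ0 : 0 < κ := by linarith
  set U : ℝ := κ * (1 + K / y) / y with hU
  have hU0 : 0 ≤ U := by positivity
  have h1 : U + 2 * U ^ 2 ≤ 1 := by nlinarith
  have h2 : c * (U + 2 * U ^ 2) ≤ (y * T / κ + φ) * (U + 2 * U ^ 2) :=
    mul_le_mul_of_nonneg_right hc (by positivity)
  have h3 : φ * (U + 2 * U ^ 2) ≤ φ := by nlinarith
  have hTy : T / y ≤ 1 + C := by rw [div_le_iff₀ hy0]; exact hT
  have hTy0 : 0 ≤ T / y := by positivity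
  have h4 : y * T / κ * U = T + K * (T / y) := by
    rw [hU]
    field_simp
  have hKy : K / y ≤ K := div_le_self hK hy
  have hKy0 : 0 ≤ K / y := by positivity
  have h5 : y * T / κ * (2 * U ^ 2) = 2 * κ * (T / y) * (1 + K / y) ^ 2 := by
    rw [hU]
    field_simp
  have h6 : 2 * κ * (T / y) * (1 + K / y) ^ 2 ≤ 2 * κ * (1 + C) * (1 + K) ^ 2 := by
    have a1 : (1 + K / y) ^ 2 ≤ (1 + K) ^ 2 := pow_le_pow_left₀ (by positivity) (by linarith) 2
    have a2 : 2 * κ * (T / y) ≤ 2 * κ * (1 + C) := mul_le_mul_of_nonneg_left hTy (by positivity)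
    exact mul_le_mul a2 a1 (by positivity) (by positivity)
  have h7 : K * (T / y) ≤ K * (1 + C) := mul_le_mul_of_nonneg_left hTy hK
  calc c * (U + 2 * U ^ 2) ≤ (y * T / κ + φ) * (U + 2 * U ^ 2) := h2
    _ = y * T / κ * U + y * T / κ * (2 * U ^ 2) + φ * (U + 2 * U ^ 2) := by ring
    _ ≤ _ := by
      rw [h4, h5]
      linarith

/-- exponent in the upper bound -/
lemma expo_lower {κ K C y T φ c Y n : ℝ} (hκ : 1 ≤ κ) (hK : 0 ≤ K) (hC : 0 ≤ C) (hφ : 0 ≤ φ)
    (hy : 1 ≤ y) (hyK : K ≤ y) (hn : y ^ 2 ≤ n) (hT0 : 0 ≤ T) (hT : T ≤ (1 + C) * y)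
    (hY : y ≤ Y) (hY2 : Y ≤ y + y * T / n) (hc : (y * T - 1) / κ - φ ≤ c) :
    T - ((1 + C) ^ 2 + K * (1 + C) + 1 + κ * φ) ≤ c * (κ * (1 - K / y) / Y) := by
  have hy0 : 0 < y := by linarith
  have hκ0 : 0 < κ := by linarith
  have hY0 : 0 < Y := by linarith
  have hn0 : 0 < n := by nlinarith
  have hKy : K / y ≤ 1 := by rw [div_le_one hy0]; exact hyK
  have hKy0 : 0 ≤ K / y := by positivity
  have hL0 : 0 ≤ κ * (1 - K / y) / Y := div_nonneg (mul_nonneg hκ0.le (by linarith)) hY0.le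
  have h1 : ((y * T - 1) / κ - φ) * (κ * (1 - K / y) / Y) ≤ c * (κ * (1 - K / y) / Y) :=
    mul_le_mul_of_nonneg_right hc hL0
  have h2 : ((y * T - 1) / κ - φ) * (κ * (1 - K / y) / Y) =
      y * T * (1 - K / y) / Y - (1 + κ * φ) * ((1 - K / y) / Y) := by
    field_simp
    ring
  have h3 : (1 - K / y) / Y ≤ 1 := by
    rw [div_le_one hY0]
    linarith
  have h4 : (1 + κ * φ) * ((1 - K / y) / Y) ≤ 1 + κ * φ := by
    have : 0 ≤ 1 + κ * φ := by positivity
    nlinarith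
  set c3 : ℝ := (1 + C) ^ 2 + K * (1 + C) with hc3
  have h5 : T - c3 ≤ y * T * (1 - K / y) / Y := by
    rw [le_div_iff₀ hY0]
    rcases le_total T c3 with h6 | h6
    · have : (T - c3) * Y ≤ 0 := mul_nonpos_of_nonpos_of_nonneg (by linarith) hY0.le
      have : 0 ≤ y * T * (1 - K / y) := mul_nonneg (by positivity) (by linarith)
      linarith
    · have h7 : (T - c3) * Y ≤ (T - c3) * (y + y * T / n) :=
        mul_le_mul_of_nonneg_left hY2 (by linarith)
      have h8 : y * T * (1 - K / y) = y * T - K * T := by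
        field_simp
      have h9 : T * (y * T / n) ≤ (1 + C) ^ 2 * y := by
        have a1 : T * (y * T / n) = y * (T ^ 2 / n) := by ring
        rw [a1]
        have a2 : T ^ 2 / n ≤ (1 + C) ^ 2 := by
          rw [div_le_iff₀ hn0]
          have a3 : T ^ 2 ≤ ((1 + C) * y) ^ 2 := pow_le_pow_left₀ hT0 hT 2
          calc T ^ 2 ≤ ((1 + C) * y) ^ 2 := a3
            _ = (1 + C) ^ 2 * y ^ 2 := by ring
            _ ≤ (1 + C) ^ 2 * n := mul_le_mul_of_nonneg_left hn (by positivity)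
        calc y * (T ^ 2 / n) ≤ y * (1 + C) ^ 2 := mul_le_mul_of_nonneg_left a2 hy0.le
          _ = _ := by ring
      have h10 : K * T ≤ K * (1 + C) * y := by
        have := mul_le_mul_of_nonneg_left hT hK
        linarith
      have h11 : 0 ≤ c3 * (y * T / n) := by positivity
      calc (T - c3) * Y ≤ (T - c3) * (y + y * T / n) := h7
        _ = T * y + T * (y * T / n) - c3 * y - c3 * (y * T / n) := by ring
        _ ≤ T * y + (1 + C) ^ 2 * y - c3 * y := by linarith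
        _ = T * y - K * (1 + C) * y := by rw [hc3]; ring
        _ ≤ y * T - K * T := by linarith
        _ = _ := h8.symm
  calc T - ((1 + C) ^ 2 + K * (1 + C) + 1 + κ * φ) = (T - c3) - (1 + κ * φ) := by rw [hc3]; ring
    _ ≤ y * T * (1 - K / y) / Y - (1 + κ * φ) * ((1 - K / y) / Y) := by linarith
    _ = _ := h2.symm
    _ ≤ _ := h1

end Pool.Agent.H35J
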