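import Mathlib
import Pool.Agent.H35J.Abs
import Pool.Agent.H35J.Count
import Pool.Agent.H35J.Ineq

set_option autoImplicit false

/-!
# Probabilities of large gaps in sequential random models
-/

open MeasureTheory Filter Finset
open scoped Topology

namespace Pool.Agent.H35J

variable {Ω : Type*} [mΩ : MeasurableSpace Ω] {μ : Measure Ω} [IsProbabilityMeasure μ]
  {ℱ : Filtration ℕ mΩ} {S : ℕ → Set Ω}

/-- the last integer of the window `(n, n + g)` -/
noncomputable def last (g : ℝ) (n : ℕ) : ℕ := max n (⌈(n : ℝ) + g⌉₊ - 1)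

lemma le_last (g : ℝ) (n : ℕ) : n ≤ last g n := le_max_left _ _

lemma last_le {g : ℝ} (hg : 0 ≤ g) (n : ℕ) : (last g n : ℝ) ≤ n + g := by
  unfold last
  rcases le_total n (⌈(n : ℝ) + g⌉₊ - 1) with h | h
  · rw [max_eq_right h]
    rcases Nat.eq_zero_or_pos ⌈(n : ℝ) + g⌉₊ with h0 | h0
    · rw [h0]
      simp
      positivity
    · have h1 : ⌈(n : ℝ) + g⌉₊ - 1 < ⌈(n : ℝ) + g⌉₊ := by omega
      exact (Nat.lt_ceil.1 h1).le
  · rw [max_eq_left h]
    linarith

lemma le_last' (g : ℝ) (n : ℕ) : (n : ℝ) + g - 1 ≤ last g n := by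
  unfold last
  have h1 : (n : ℝ) + g ≤ ⌈(n : ℝ) + g⌉₊ := Nat.le_ceil _
  have h2 : (⌈(n : ℝ) + g⌉₊ : ℝ) ≤ ((⌈(n : ℝ) + g⌉₊ - 1 : ℕ) : ℝ) + 1 := by
    have : ⌈(n : ℝ) + g⌉₊ ≤ ⌈(n : ℝ) + g⌉₊ - 1 + 1 := by omega
    exact_mod_cast this
  have h3 : ((⌈(n : ℝ) + g⌉₊ - 1 : ℕ) : ℝ) ≤ ((max n (⌈(n : ℝ) + g⌉₊ - 1) : ℕ) : ℝ) := by
    exact_mod_cast le_max_right _ _
  linarith

lemma mem_window {g : ℝ} {n m : ℕ} : (n < m ∧ m ≤ last g n) ↔ (n < m ∧ (m : ℝ) < n + g) := by
  unfold last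
  constructor
  · rintro ⟨h1, h2⟩
    refine ⟨h1, ?_⟩
    have h3 : m ≤ ⌈(n : ℝ) + g⌉₊ - 1 := by
      rcases le_max_iff.1 h2 with h | h
      · omega
      · exact h
    exact Nat.lt_ceil.1 (by omega)
  · rintro ⟨h1, h2⟩
    refine ⟨h1, ?_⟩
    have h3 := Nat.lt_ceil.2 h2
    exact le_trans (by omega) (le_max_right _ _)

/-- `n` is chosen and no integer of the window `(n, n + g)` is chosen -/
def ev (S : ℕ → Set Ω) (g : ℝ) (n : ℕ) : Set Ω := S n ∩ gap S n (last g n)

omit mΩ in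
lemma mem_ev {g : ℝ} {n : ℕ} {ω : Ω} : ω ∈ ev S g n ↔
    ω ∈ S n ∧ ∀ m : ℕ, n < m → (m : ℝ) < n + g → ω ∉ S m := by
  simp only [ev, gap, Set.mem_inter_iff, Set.mem_ofPred_eq]
  refine and_congr_right fun _ => ⟨fun h m h1 h2 => ?_, fun h m h1 h2 => ?_⟩
  · exact h m h1 (mem_window.2 ⟨h1, h2⟩).2
  · exact h m h1 (mem_window.1 ⟨h1, h2⟩).2

lemma meas_ev (hS : ∀ n, MeasurableSet[ℱ n] (S n)) (g : ℝ) (n : ℕ) :
    MeasurableSet[ℱ (last g n)] (ev S g n) :=
  (ℱ.mono (le_last g n) _ (hS n)).inter (meas_gap hS _ _)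

/-- from conditional probabilities to events of the past -/
lemma setb (hS : ∀ n, MeasurableSet[ℱ n] (S n)) {κ K : ℝ} (hκ : 0 < κ) {n : ℕ}
    (hn : 0 < Real.log n)
    (hd : ∀ᵐ ω ∂μ, |(μ[(S (n + 1)).indicator (fun _ => (1 : ℝ)) | ℱ n]) ω *
      (κ⁻¹ * Real.log n) - 1| ≤ K / Real.log n) {B : Set Ω} (hB : MeasurableSet[ℱ n] B) :
    κ * (1 - K / Real.log n) / Real.log n * μ.real B ≤ μ.real (B ∩ S (n + 1)) ∧
      μ.real (B ∩ S (n + 1)) ≤ κ * (1 + K / Real.log n) / Real.log n * μ.real B := by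
  have hSm : MeasurableSet (S (n + 1)) := ℱ.le _ _ (hS (n + 1))
  have hBm : MeasurableSet B := ℱ.le _ _ hB
  have hint : Integrable ((S (n + 1)).indicator (fun _ => (1 : ℝ))) μ :=
    (integrable_const (1 : ℝ)).indicator hSm
  have h1 : μ.real (B ∩ S (n + 1)) =
      ∫ ω in B, (μ[(S (n + 1)).indicator (fun _ => (1 : ℝ)) | ℱ n]) ω ∂μ := by
    rw [setIntegral_condExp (ℱ.le n) hint hB, setIntegral_indicator hSm]
    simp
  have h2 : ∀ c : ℝ, ∫ _ω in B, c ∂μ = c * μ.real B := by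
    intro c
    rw [setIntegral_const, smul_eq_mul, mul_comm]
  have hci : IntegrableOn (μ[(S (n + 1)).indicator (fun _ => (1 : ℝ)) | ℱ n]) B μ :=
    integrable_condExp.integrableOn
  constructor
  · rw [h1, ← h2]
    refine setIntegral_mono_ae (integrableOn_const (by finiteness)) hci ?_
    filter_upwards [hd] with ω hω
    have h3 := (abs_le.1 hω).1
    rw [div_le_iff₀ hn]
    have h4 : (μ[(S (n + 1)).indicator (fun _ => (1 : ℝ)) | ℱ n]) ω * (κ⁻¹ * Real.log n) ≥
      1 - K / Real.log n := by linarith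
    have h5 : κ * ((μ[(S (n + 1)).indicator (fun _ => (1 : ℝ)) | ℱ n]) ω * (κ⁻¹ * Real.log n)) =
      (μ[(S (n + 1)).indicator (fun _ => (1 : ℝ)) | ℱ n]) ω * Real.log n := by
      field_simp
    rw [← h5]
    exact mul_le_mul_of_nonneg_left h4 hκ.le
  · rw [h1, ← h2]
    refine setIntegral_mono_ae hci (integrableOn_const (by finiteness)) ?_
    filter_upwards [hd] with ω hω
    have h3 := (abs_le.1 hω).2
    rw [le_div_iff₀ hn]
    have h4 : (μ[(S (n + 1)).indicator (fun _ => (1 : ℝ)) | ℱ n]) ω * (κ⁻¹ * Real.log n) ≤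
      1 + K / Real.log n := by linarith
    have h5 : κ * ((μ[(S (n + 1)).indicator (fun _ => (1 : ℝ)) | ℱ n]) ω * (κ⁻¹ * Real.log n)) =
      (μ[(S (n + 1)).indicator (fun _ => (1 : ℝ)) | ℱ n]) ω * Real.log n := by
      field_simp
    rw [← h5]
    exact mul_le_mul_of_nonneg_left h4 hκ.le

lemma log_tendsto : Tendsto (fun n : ℕ => Real.log n) atTop atTop :=
  Real.tendsto_log_atTop.comp tendsto_natCast_atTop_atTop

lemma sq_log_le : ∀ᶠ n : ℕ in atTop, Real.log n ^ 2 ≤ n := by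
  have h1 := (Real.isLittleO_pow_log_id_atTop (n := 2)).bound (by norm_num : (0 : ℝ) < 1)
  have h2 := tendsto_natCast_atTop_atTop (R := ℝ) |>.eventually h1
  filter_upwards [h2] with n hn
  simp only [id_eq, Real.norm_eq_abs, one_mul] at hn
  rw [abs_of_nonneg (by positivity), abs_of_nonneg (by positivity)] at hn
  exact hn

/-- the two bounds for the probability of a large gap, given the past -/
lemma core {Q : ℕ} (hQ : 0 < Q) {K C : ℝ} (hK : 0 ≤ K) (hC : 0 ≤ C)
    (hS : ∀ n, MeasurableSet[ℱ n] (S n)) (hsieve : ∀ n, ¬ n.Coprime Q → S n = ∅)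
    (hd : ∀ᶠ n : ℕ in atTop, (n + 1).Coprime Q → ∀ᵐ ω ∂μ,
      |(μ[(S (n + 1)).indicator (fun _ => (1 : ℝ)) | ℱ n]) ω *
        ((Q.totient : ℝ) / Q * Real.log n) - 1| ≤ K / Real.log n)
    (t : ℕ → ℝ) (ht : ∀ᶠ n : ℕ in atTop, -Real.log n ≤ t n ∧ t n ≤ C * Real.log n) :
    ∃ c1 c2 : ℝ, 0 < c1 ∧ 0 < c2 ∧ ∃ n1 : ℕ, 3 ≤ n1 ∧ ∀ n, n1 ≤ n → n.Coprime Q →
      ∀ A, MeasurableSet[ℱ (n - 1)] A →
        c1 * (Real.exp (-t n) / (n * Real.log n)) * μ.real A ≤
          μ.real (A ∩ ev S (Real.log n ^ 2 + t n * Real.log n) n) ∧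
        μ.real (A ∩ ev S (Real.log n ^ 2 + t n * Real.log n) n) ≤
          c2 * (Real.exp (-t n) / (n * Real.log n)) * μ.real A := by
  classical
  have hφ0 : 0 < Q.totient := Nat.totient_pos.2 hQ
  have hφQ : Q.totient ≤ Q := Nat.totient_le Q
  set φ : ℝ := (Q.totient : ℝ) with hφ
  have hφ0' : 0 < φ := by rw [hφ]; exact_mod_cast hφ0
  have hQ0' : (0 : ℝ) < Q := by exact_mod_cast hQ
  set κ : ℝ := (Q : ℝ) / φ with hκdef
  have hκ1 : 1 ≤ κ := by
    rw [hκdef, one_le_div hφ0', hφ]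
    exact_mod_cast hφQ
  have hκ0 : 0 < κ := by linarith
  have hκinv : κ⁻¹ = φ / Q := by rw [hκdef, inv_div]
  obtain ⟨n2, hn2⟩ := eventually_atTop.1 hd
  -- thresholds
  have hbig : ∀ᶠ n : ℕ in atTop, 2 ≤ Real.log n ∧ 2 * K ≤ Real.log n ∧
      κ * (1 + K) * 2 ≤ Real.log n := by
    filter_upwards [log_tendsto.eventually_ge_atTop 2, log_tendsto.eventually_ge_atTop (2 * K),
      log_tendsto.eventually_ge_atTop (κ * (1 + K) * 2)] with n h1 h2 h3
    exact ⟨h1, h2, h3⟩
  have hpred : Tendsto (fun n : ℕ => n - 1) atTop atTop := tendsto_sub_atTop_nat 1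
  obtain ⟨n4, hn4⟩ := eventually_atTop.1 ((hbig.and (hpred.eventually hbig)).and
    (sq_log_le.and ht))
  set c1 : ℝ := 1 / 2 * Real.exp (-(K * (1 + C) + 2 * κ * (1 + C) * (1 + K) ^ 2 + φ)) with hc1
  set c2 : ℝ := 2 * κ * (1 + K) * Real.exp ((1 + C) ^ 2 + K * (1 + C) + 1 + κ * φ) with hc2
  refine ⟨c1, c2, by positivity, by positivity, max (max (n2 + 1) n4) 3, le_max_right _ _, ?_⟩
  intro n hn hcop A hA
  have hn2' : n2 + 1 ≤ n := (le_max_left _ _).trans ((le_max_left _ _).trans hn)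
  have hn4' : n4 ≤ n := (le_max_right _ _).trans ((le_max_left _ _).trans hn)
  have hn3' : 3 ≤ n := (le_max_right _ _).trans hn
  obtain ⟨⟨⟨y2, yK, yκ⟩, ⟨z2, zK, zκ⟩⟩, ⟨hsq, ht1, ht2⟩⟩ := hn4 n hn4'
  set y : ℝ := Real.log n with hy
  set z : ℝ := Real.log ((n - 1 : ℕ) : ℝ) with hz
  have hn0 : (0 : ℝ) < n := by exact_mod_cast (by omega : 0 < n)
  have hn10 : (0 : ℝ) < ((n - 1 : ℕ) : ℝ) := by exact_mod_cast (by omega : 0 < n - 1)
  have hzy : z ≤ y := Real.log_le_log hn10 (by exact_mod_cast Nat.sub_le n 1)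
  have hyz : y ≤ 2 * z := by
    have h1 : (n : ℝ) ≤ ((n - 1 : ℕ) : ℝ) ^ 2 := by
      have : n ≤ (n - 1) ^ 2 := by
        obtain ⟨m, rfl⟩ : ∃ m, n = m + 3 := ⟨n - 3, by omega⟩
        have : m + 3 - 1 = m + 2 := by omega
        rw [this]
        nlinarith
      exact_mod_cast this
    have h2 := Real.log_le_log hn0 h1
    rw [Real.log_pow] at h2
    push_cast at h2
    linarith
  set T : ℝ := y + t n with hT
  have hg : Real.log n ^ 2 + t n * Real.log n = y * T := by rw [hT]; ring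
  have hT0 : 0 ≤ T := by rw [hT]; linarith
  have hTC : T ≤ (1 + C) * y := by rw [hT]; linarith
  rw [hg]
  have hg0 : 0 ≤ y * T := mul_nonneg (by linarith) hT0
  set e : ℕ := last (y * T) n with he
  have hen : n ≤ e := le_last _ _
  have he1 : (e : ℝ) ≤ n + y * T := last_le hg0 n
  have he2 : (n : ℝ) + y * T - 1 ≤ e := le_last' _ n
  -- density at `n`
  have hdn : ∀ B, MeasurableSet[ℱ (n - 1)] B →
      κ * (1 - K / z) / z * μ.real B ≤ μ.real (B ∩ S n) ∧
        μ.real (B ∩ S n) ≤ κ * (1 + K / z) / z * μ.real B := by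
    intro B hB
    have h1 := hn2 (n - 1) (by omega)
    have h2 : n - 1 + 1 = n := by omega
    rw [h2] at h1
    have h3 := h1 hcop
    rw [← hκinv] at h3
    have h4 := setb (μ := μ) (ℱ := ℱ) hS hκ0 (n := n - 1) (K := K) (by
      show 0 < z
      linarith) (by rw [h2]; exact h3) hB
    rw [h2] at h4
    exact h4
  -- densities after `n`
  set U : ℝ := κ * (1 + K / y) / y with hU
  set Y : ℝ := Real.log (n + y * T) with hY
  have hyY : y ≤ Y := Real.log_le_log hn0 (by linarith)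
  have hYy : Y ≤ y + y * T / n := by
    have h1 : (n : ℝ) + y * T = n * (1 + y * T / n) := by field_simp
    rw [hY, h1, Real.log_mul hn0.ne' (by positivity)]
    have h2 : Real.log (1 + y * T / n) ≤ y * T / n := by
      have := Real.log_le_sub_one_of_pos (show 0 < 1 + y * T / n by positivity)
      linarith
    linarith
  set L : ℝ := κ * (1 - K / y) / Y with hL
  have hKy1 : K / y ≤ 1 := by
    rw [div_le_one (by linarith)]
    linarith
  have hKy0 : 0 ≤ K / y := div_nonneg hK (by linarith)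
  have hKyK : K / y ≤ K := div_le_self hK (by linarith)
  have hU0 : 0 ≤ U := by rw [hU]; positivity
  have hU12 : U ≤ 1 / 2 := by
    rw [hU, div_le_iff₀ (by linarith)]
    have : κ * (1 + K / y) ≤ κ * (1 + K) := mul_le_mul_of_nonneg_left (by linarith) hκ0.le
    linarith
  have hL0 : 0 ≤ L := div_nonneg (mul_nonneg hκ0.le (by linarith)) (by linarith)
  have hLU : L ≤ U := by
    rw [hL, hU]
    have h1 : κ * (1 - K / y) ≤ κ * (1 + K / y) := mul_le_mul_of_nonneg_left (by linarith) hκ0.le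
    calc κ * (1 - K / y) / Y ≤ κ * (1 + K / y) / Y := div_le_div_of_nonneg_right h1 (by linarith)
      _ ≤ κ * (1 + K / y) / y := div_le_div_of_nonneg_left (by positivity) (by linarith) hyY
  have hAS : MeasurableSet[ℱ n] (A ∩ S n) := (ℱ.mono (Nat.sub_le n 1) _ hA).inter (hS n)
  have hgb := gap_bounds (μ := μ) (ℱ := ℱ) (S := S) hS (A := A ∩ S n)
    (l := fun m => if m.Coprime Q then (if m ≤ e then L else 0) else 0)
    (u := fun m => if m.Coprime Q then U else 0) (n0 := n)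
    (fun m _ => by
      split_ifs <;> linarith)
    (fun m _ => by
      split_ifs <;> linarith)
    (fun b hb B hB => by
      by_cases hc : (b + 1).Coprime Q
      · rw [if_pos hc, if_pos hc]
        have h1 := hn2 b (by omega) hc
        rw [← hκinv] at h1
        have hyb : y ≤ Real.log b := Real.log_le_log hn0 (by exact_mod_cast hb)
        have hb0 : 0 < Real.log b := by linarith
        obtain ⟨h2, h3⟩ := setb (μ := μ) (ℱ := ℱ) hS hκ0 hb0 h1 hB
        have hBn : 0 ≤ μ.real B := measureReal_nonneg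
        have hKb : K / Real.log b ≤ K / y := div_le_div_of_nonneg_left hK (by linarith) hyb
        have hKb0 : 0 ≤ K / Real.log b := by positivity
        constructor
        · split_ifs with hbe
          · refine le_trans (mul_le_mul_of_nonneg_right ?_ hBn) h2
            have hbY : Real.log b ≤ Y := by
              refine Real.log_le_log (by exact_mod_cast (by omega : 0 < b)) ?_
              have : (b : ℝ) ≤ e := by exact_mod_cast (by omega : b ≤ e)
              linarith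
            rw [hL]
            calc κ * (1 - K / y) / Y ≤ κ * (1 - K / y) / Real.log b :=
                  div_le_div_of_nonneg_left (mul_nonneg hκ0.le (by linarith)) hb0 hbY
              _ ≤ κ * (1 - K / Real.log b) / Real.log b :=
                  div_le_div_of_nonneg_right
                    (mul_le_mul_of_nonneg_left (by linarith) hκ0.le) hb0.le
          · rw [zero_mul]
            exact measureReal_nonneg
        · refine le_trans h3 (mul_le_mul_of_nonneg_right ?_ hBn)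
          rw [hU]
          calc κ * (1 + K / Real.log b) / Real.log b
              ≤ κ * (1 + K / y) / Real.log b :=
                div_le_div_of_nonneg_right (mul_le_mul_of_nonneg_left (by linarith) hκ0.le) hb0.le
            _ ≤ κ * (1 + K / y) / y :=
                div_le_div_of_nonneg_left (by positivity) (by linarith) hyb
      · rw [if_neg hc, if_neg hc, hsieve _ hc]
        simp)
    le_rfl hen hAS
  have hprodU : ∏ m ∈ Ioc n e, (1 - if m.Coprime Q then U else 0) = (1 - U) ^ cnt Q n e :=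
    prod_ite_cnt Q n e U
  have hprodL : ∏ m ∈ Ioc n e, (1 - if m.Coprime Q then (if m ≤ e then L else 0) else 0) =
      (1 - L) ^ cnt Q n e := by
    rw [← prod_ite_cnt Q n e L]
    refine prod_congr rfl fun m hm => ?_
    rw [if_pos (mem_Ioc.1 hm).2]
  have hcu := cnt_upper hQ hen
  have hcl := cnt_lower hQ hen
  rw [← hφ, ← hκinv] at hcu hcl
  have hcu' : (cnt Q n e : ℝ) ≤ y * T / κ + φ := by
    have : κ⁻¹ * ((e : ℝ) - n) ≤ κ⁻¹ * (y * T) :=
      mul_le_mul_of_nonneg_left (by linarith) (by positivity)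
    have h2 : y * T / κ = κ⁻¹ * (y * T) := by rw [div_eq_inv_mul]
    linarith
  have hcl' : (y * T - 1) / κ - φ ≤ (cnt Q n e : ℝ) := by
    have : κ⁻¹ * (y * T - 1) ≤ κ⁻¹ * ((e : ℝ) - n) :=
      mul_le_mul_of_nonneg_left (by linarith) (by positivity)
    have h2 : (y * T - 1) / κ = κ⁻¹ * (y * T - 1) := by rw [div_eq_inv_mul]
    linarith
  have hx1 := expo_upper (κ := κ) (K := K) (C := C) (y := y) (T := T) (φ := φ)
    (c := (cnt Q n e : ℝ)) hκ1 hK hC hφ0'.le (by linarith) hU12 hT0 hTC hcu'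
  have hx2 := expo_lower (κ := κ) (K := K) (C := C) (y := y) (T := T) (φ := φ)
    (c := (cnt Q n e : ℝ)) (Y := Y) (n := (n : ℝ)) hκ1 hK hC hφ0'.le (by linarith) (by linarith) hsq
    hT0 hTC hyY hYy hcl'
  have hexpT : Real.exp (-T) = Real.exp (-t n) / n := by
    rw [hT, neg_add, Real.exp_add, Real.exp_neg (y), hy, Real.exp_log hn0]
    field_simp
  have hlow : Real.exp (-(K * (1 + C) + 2 * κ * (1 + C) * (1 + K) ^ 2 + φ)) *
      (Real.exp (-t n) / n) ≤ (1 - U) ^ cnt Q n e := by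
    refine le_trans ?_ (pow_ge hU0 hU12 (cnt Q n e))
    rw [← hexpT, ← Real.exp_add]
    refine Real.exp_le_exp.2 ?_
    linarith
  have hupp : (1 - L) ^ cnt Q n e ≤ Real.exp ((1 + C) ^ 2 + K * (1 + C) + 1 + κ * φ) *
      (Real.exp (-t n) / n) := by
    refine le_trans (pow_le_exp (by linarith) (cnt Q n e)) ?_
    rw [← hexpT, ← Real.exp_add]
    refine Real.exp_le_exp.2 ?_
    linarith
  -- conclusion
  obtain ⟨g1, g2⟩ := hgb
  rw [hprodU] at g1
  rw [hprodL] at g2
  obtain ⟨d1, d2⟩ := hdn A hA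
  have hAev : A ∩ ev S (y * T) n = A ∩ S n ∩ gap S n e := by
    rw [ev, Set.inter_assoc]
  rw [hAev]
  have hA0 : 0 ≤ μ.real A := measureReal_nonneg
  have hAS0 : 0 ≤ μ.real (A ∩ S n) := measureReal_nonneg
  have hw0 : 0 ≤ Real.exp (-t n) / n := by positivity
  have hz0 : 0 < z := by linarith
  have hKz : K / z ≤ 1 / 2 := by
    rw [div_le_iff₀ hz0]
    linarith
  have hKzK : K / z ≤ K := div_le_self hK (by linarith)
  constructor
  · have h1 : 1 / 2 / y ≤ κ * (1 - K / z) / z := by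
      rw [div_le_div_iff₀ (by linarith) hz0]
      have h2 : 1 / 2 ≤ κ * (1 - K / z) := by nlinarith
      nlinarith
    calc c1 * (Real.exp (-t n) / (n * y)) * μ.real A
        = (Real.exp (-(K * (1 + C) + 2 * κ * (1 + C) * (1 + K) ^ 2 + φ)) *
            (Real.exp (-t n) / n)) * (1 / 2 / y * μ.real A) := by
          rw [hc1]
          field_simp
      _ ≤ (1 - U) ^ cnt Q n e * (κ * (1 - K / z) / z * μ.real A) := by
          refine mul_le_mul hlow (mul_le_mul_of_nonneg_right h1 hA0) ?_ ?_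
          · have : 0 < y := by linarith
            positivity
          · exact pow_nonneg (by linarith) _
      _ ≤ (1 - U) ^ cnt Q n e * μ.real (A ∩ S n) :=
          mul_le_mul_of_nonneg_left d1 (pow_nonneg (by linarith) _)
      _ ≤ _ := g1
  · have h1 : κ * (1 + K / z) / z ≤ 2 * κ * (1 + K) / y := by
      rw [div_le_div_iff₀ hz0 (by linarith)]
      have h2 : κ * (1 + K / z) ≤ κ * (1 + K) := mul_le_mul_of_nonneg_left (by linarith) hκ0.le
      have h3 : 0 ≤ κ * (1 + K / z) := by positivity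
      calc κ * (1 + K / z) * y ≤ κ * (1 + K / z) * (2 * z) := mul_le_mul_of_nonneg_left hyz h3
        _ ≤ κ * (1 + K) * (2 * z) := mul_le_mul_of_nonneg_right h2 (by linarith)
        _ = _ := by ring
    calc μ.real (A ∩ S n ∩ gap S n e) ≤ (1 - L) ^ cnt Q n e * μ.real (A ∩ S n) := g2
      _ ≤ (Real.exp ((1 + C) ^ 2 + K * (1 + C) + 1 + κ * φ) * (Real.exp (-t n) / n)) *
          (2 * κ * (1 + K) / y * μ.real A) := by
          refine mul_le_mul hupp (d2.trans (mul_le_mul_of_nonneg_right h1 hA0)) hAS0 ?_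
          positivity
      _ = c2 * (Real.exp (-t n) / (n * y)) * μ.real A := by
          rw [hc2]
          field_simp

end Pool.Agent.H35J
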