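import Mathlib

set_option autoImplicit false

/-!
# The random sieve of Hawkins: definitions
-/

open MeasureTheory

namespace Pool.Agent.H35J.Hawkins

/-- the set of the integers chosen at `ω` (the random primes) -/
def chosen {Ω : Type} (S : ℕ → Set Ω) (ω : Ω) : Set ℕ := {n | ω ∈ S n}

/-- the open interval `(x, x + g)` contains no element of `A` -/
def Free (A : Set ℕ) (x g : ℝ) : Prop := ∀ m : ℕ, m ∈ A → ¬ (x < m ∧ m < x + g)

open Classical in
/-- the product of `1 - 1 / p` over the chosen `p ≤ n` -/
noncomputable def y {Ω : Type} (S : ℕ → Set Ω) (n : ℕ) (ω : Ω) : ℝ :=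
  ∏ p ∈ (Finset.Icc 1 n).filter (fun p => ω ∈ S p), (1 - 1 / (p : ℝ))

/-- The random sieve of Hawkins.  `S n` is the event that `n` is chosen; it is decided at time `n`.
The first chosen integer is `2`.  For `n ≥ 2` the conditional probability that `n + 1` is chosen, given
the past, is the product of `1 - 1 / p` over the integers `p ≤ n` chosen so far: every chosen `p` deletes
each later integer with probability `1 / p`, independently. -/
structure Sieve {Ω : Type} [mΩ : MeasurableSpace Ω] (μ : Measure Ω) (ℱ : Filtration ℕ mΩ)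
    (S : ℕ → Set Ω) : Prop where
  adapted : ∀ n, MeasurableSet[ℱ n] (S n)
  zero : S 0 = ∅
  one : S 1 = ∅
  two : S 2 = Set.univ
  density : ∀ n, 2 ≤ n → μ[(S (n + 1)).indicator (fun _ => (1 : ℝ)) | ℱ n] =ᵐ[μ] y S n

end Pool.Agent.H35J.Hawkins
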