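import Mathlib
import Pool.Agent.H35J.HDefs

set_option autoImplicit false

/-!
# The random sieve of Hawkins: Mertens' product
-/

open MeasureTheory Filter Finset
open scoped Topology

namespace Pool.Agent.H35J.Hawkins

section path

variable {Ω : Type} (S : ℕ → Set Ω)

/-- indicator -/
noncomputable def ind (n : ℕ) (ω : Ω) : ℝ := (S n).indicator (fun _ => (1 : ℝ)) ω

/-- `1 / y` -/
noncomputable def W (n : ℕ) (ω : Ω) : ℝ := (y S n ω)⁻¹

lemma ind_sq (n : ℕ) (ω : Ω) : ind S n ω * ind S n ω = ind S n ω := by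
  unfold ind
  by_cases h : ω ∈ S n <;> simp [h]

lemma ind_nonneg (n : ℕ) (ω : Ω) : 0 ≤ ind S n ω := by
  unfold ind
  by_cases h : ω ∈ S n <;> simp [h]

lemma ind_le_one (n : ℕ) (ω : Ω) : ind S n ω ≤ 1 := by
  unfold ind
  by_cases h : ω ∈ S n <;> simp [h]

lemma y_zero (ω : Ω) : y S 0 ω = 1 := by
  simp [y]

lemma y_succ (n : ℕ) (ω : Ω) : y S (n + 1) ω = y S n ω * (1 - ind S (n + 1) ω / ((n : ℝ) + 1)) := by
  classical
  unfold y ind
  have h1 : Icc 1 (n + 1) = insert (n + 1) (Icc 1 n) := by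
    ext m
    simp only [mem_Icc, mem_insert]
    omega
  rw [h1, filter_insert]
  by_cases h : ω ∈ S (n + 1)
  · rw [if_pos h, prod_insert (by simp), Set.indicator_of_mem h]
    push_cast
    ring
  · rw [if_neg h, Set.indicator_of_notMem h]
    ring

lemma y_pos (h1 : S 1 = ∅) (n : ℕ) (ω : Ω) : 0 < y S n ω := by
  induction n with
  | zero => rw [y_zero]; norm_num
  | succ n ih =>
    rw [y_succ]
    refine mul_pos ih ?_
    rcases Nat.eq_zero_or_pos n with rfl | hn
    · have : ind S (0 + 1) ω = 0 := by simp [ind, h1]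
      rw [this]
      norm_num
    · have h2 : (0 : ℝ) < n := by exact_mod_cast hn
      have h3 := ind_le_one S (n + 1) ω
      have h4 : ind S (n + 1) ω / ((n : ℝ) + 1) < 1 := by
        rw [div_lt_one (by linarith)]
        linarith
      linarith

lemma y_le_one (h1 : S 1 = ∅) (n : ℕ) (ω : Ω) : y S n ω ≤ 1 := by
  induction n with
  | zero => rw [y_zero]
  | succ n ih =>
    rw [y_succ]
    have h2 := ind_nonneg S (n + 1) ω
    have h3 : 0 ≤ ind S (n + 1) ω / ((n : ℝ) + 1) := by positivity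
    have h4 := (y_pos S h1 n ω).le
    nlinarith

lemma y_ge (h1 : S 1 = ∅) (n : ℕ) (hn : 1 ≤ n) (ω : Ω) : 1 / (n : ℝ) ≤ y S n ω := by
  induction n, hn using Nat.le_induction with
  | base =>
    rw [y_succ, y_zero]
    simp [ind, h1]
  | succ n hn ih =>
    rw [y_succ]
    have h0 : (0 : ℝ) < n := by exact_mod_cast hn
    have h3 := ind_le_one S (n + 1) ω
    have h4 : ind S (n + 1) ω / ((n : ℝ) + 1) ≤ 1 / ((n : ℝ) + 1) :=
      div_le_div_of_nonneg_right h3 (by linarith)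
    have h5 : (n : ℝ) / (n + 1) ≤ 1 - ind S (n + 1) ω / ((n : ℝ) + 1) := by
      have : (n : ℝ) / (n + 1) = 1 - 1 / ((n : ℝ) + 1) := by
        field_simp
        ring
      linarith
    have h6 : 1 / (((n + 1 : ℕ) : ℝ)) = 1 / (n : ℝ) * (n / (n + 1)) := by
      push_cast
      field_simp
    rw [h6]
    exact mul_le_mul ih h5 (by positivity) (y_pos S h1 n ω).le

lemma W_pos (h1 : S 1 = ∅) (n : ℕ) (ω : Ω) : 0 < W S n ω := inv_pos.2 (y_pos S h1 n ω)

lemma W_ge_one (h1 : S 1 = ∅) (n : ℕ) (ω : Ω) : 1 ≤ W S n ω :=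
  (one_le_inv₀ (y_pos S h1 n ω)).2 (y_le_one S h1 n ω)

lemma W_le (h1 : S 1 = ∅) (n : ℕ) (hn : 1 ≤ n) (ω : Ω) : W S n ω ≤ n := by
  have h0 : (0 : ℝ) < n := by exact_mod_cast hn
  have := y_ge S h1 n hn ω
  unfold W
  rw [inv_le_comm₀ (y_pos S h1 n ω) h0]
  simpa using this

lemma W_mul_y (h1 : S 1 = ∅) (n : ℕ) (ω : Ω) : W S n ω * y S n ω = 1 :=
  inv_mul_cancel₀ (y_pos S h1 n ω).ne'

lemma W_succ (h1 : S 1 = ∅) (n : ℕ) (hn : 1 ≤ n) (ω : Ω) :
    W S (n + 1) ω = W S n ω + W S n ω / n * ind S (n + 1) ω := by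
  have h0 : (0 : ℝ) < n := by exact_mod_cast hn
  have hy := (y_pos S h1 n ω).ne'
  unfold W
  rw [y_succ]
  have hsq := ind_sq S (n + 1) ω
  by_cases h : ω ∈ S (n + 1)
  · have : ind S (n + 1) ω = 1 := by simp [ind, h]
    rw [this]
    have h2 : (1 - 1 / ((n : ℝ) + 1)) = n / (n + 1) := by
      field_simp
      ring
    rw [h2]
    field_simp
  · have : ind S (n + 1) ω = 0 := by simp [ind, h]
    rw [this]
    simp

end path

section prob

variable {Ω : Type} [mΩ : MeasurableSpace Ω] {μ : Measure Ω} [IsProbabilityMeasure μ]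
  {ℱ : Filtration ℕ mΩ} {S : ℕ → Set Ω}

lemma sm_ind (h : Sieve μ ℱ S) (n : ℕ) : StronglyMeasurable[ℱ n] (ind S n) :=
  StronglyMeasurable.indicator stronglyMeasurable_const (h.adapted n)

lemma sm_y (h : Sieve μ ℱ S) (n : ℕ) : StronglyMeasurable[ℱ n] (y S n) := by
  induction n with
  | zero =>
    have : y S 0 = fun _ => (1 : ℝ) := by
      funext ω
      exact y_zero S ω
    rw [this]
    exact stronglyMeasurable_const
  | succ n ih =>
    have : y S (n + 1) = fun ω => y S n ω * (1 - ind S (n + 1) ω / ((n : ℝ) + 1)) := by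
      funext ω
      exact y_succ S n ω
    rw [this]
    have h1 : StronglyMeasurable[ℱ (n + 1)] (y S n) := ih.mono (ℱ.mono (Nat.le_succ n))
    have h2 : StronglyMeasurable[ℱ (n + 1)] (fun ω => 1 - ind S (n + 1) ω / ((n : ℝ) + 1)) := by
      have h3 := sm_ind h (n + 1)
      exact stronglyMeasurable_const.sub (h3.div stronglyMeasurable_const)
    exact h1.mul h2

lemma sm_W (h : Sieve μ ℱ S) (n : ℕ) : StronglyMeasurable[ℱ n] (W S n) := by
  have : Measurable[ℱ n] (W S n) := (sm_y h n).measurable.inv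
  exact this.stronglyMeasurable

lemma int_of_bdd {m : MeasurableSpace Ω} (hm : m ≤ mΩ) {f : Ω → ℝ} (hf : StronglyMeasurable[m] f)
    {c : ℝ} (hc : ∀ ω, |f ω| ≤ c) : Integrable f μ := by
  refine Integrable.of_bound (hf.mono hm).aestronglyMeasurable c ?_
  exact Eventually.of_forall fun ω => by rw [Real.norm_eq_abs]; exact hc ω

/-- the basic identity -/
lemma key (h : Sieve μ ℱ S) {n : ℕ} (hn : 2 ≤ n) {f : Ω → ℝ} (hf : StronglyMeasurable[ℱ n] f)
    {c : ℝ} (hc : ∀ ω, |f ω| ≤ c) :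
    ∫ ω, f ω * ind S (n + 1) ω ∂μ = ∫ ω, f ω * y S n ω ∂μ := by
  have hint : Integrable (ind S (n + 1)) μ :=
    int_of_bdd (ℱ.le (n + 1)) (sm_ind h (n + 1)) (c := 1) fun ω => by
      rw [abs_of_nonneg (ind_nonneg S _ ω)]
      exact ind_le_one S _ ω
  have h1 := condExp_stronglyMeasurable_mul_of_bound (ℱ.le n) hf hint c
    (Eventually.of_forall fun ω => by rw [Real.norm_eq_abs]; exact hc ω)
  have h2 : ∫ ω, (μ[f * ind S (n + 1) | ℱ n]) ω ∂μ = ∫ ω, (f * ind S (n + 1)) ω ∂μ :=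
    integral_condExp (ℱ.le n)
  have h3 : ∫ ω, (μ[f * ind S (n + 1) | ℱ n]) ω ∂μ = ∫ ω, f ω * y S n ω ∂μ := by
    refine integral_congr_ae ?_
    have h4 : μ[ind S (n + 1) | ℱ n] =ᵐ[μ] y S n := h.density n hn
    filter_upwards [h1, h4] with ω e1 e2
    rw [e1, Pi.mul_apply, e2]
  rw [← h3, h2]
  rfl

/-- the martingale -/
noncomputable def MM (S : ℕ → Set Ω) (n : ℕ) (ω : Ω) : ℝ :=
  W S n ω - ∑ k ∈ Ico 2 n, 1 / (k : ℝ)

lemma MM_succ (h1 : S 1 = ∅) (n : ℕ) (hn : 2 ≤ n) (ω : Ω) :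
    MM S (n + 1) ω = MM S n ω + W S n ω / n * (ind S (n + 1) ω - y S n ω) := by
  unfold MM
  rw [W_succ S h1 n (by omega), sum_Ico_succ_top (by omega)]
  have h2 := W_mul_y S h1 n ω
  have h0 : (0 : ℝ) < n := by exact_mod_cast (by omega : 0 < n)
  have : W S n ω / n * (ind S (n + 1) ω - y S n ω) =
      W S n ω / n * ind S (n + 1) ω - (W S n ω * y S n ω) / n := by ring
  rw [this, h2]
  ring

lemma sm_MM (h : Sieve μ ℱ S) (n : ℕ) : StronglyMeasurable[ℱ n] (MM S n) :=
  (sm_W h n).sub stronglyMeasurable_const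

lemma sum_bd (n : ℕ) (hn : 2 ≤ n) : ∑ k ∈ Ico 2 n, 1 / (k : ℝ) ≤ 2 * Real.sqrt n := by
  induction n, hn using Nat.le_induction with
  | base => simp
  | succ n hn ih =>
    rw [sum_Ico_succ_top (by omega)]
    have h0 : (0 : ℝ) < n := by exact_mod_cast (by omega : 0 < n)
    have h2 : (2 : ℝ) ≤ n := by exact_mod_cast hn
    push_cast
    set a := Real.sqrt (n : ℝ) with ha
    set b := Real.sqrt ((n : ℝ) + 1) with hb
    have ha0 : 0 < a := Real.sqrt_pos.2 h0
    have hab : a ≤ b := Real.sqrt_le_sqrt (by linarith)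
    have ha2 : a * a = n := Real.mul_self_sqrt h0.le
    have hb2 : b * b = n + 1 := Real.mul_self_sqrt (by linarith)
    have hbn : b ≤ n := by
      rw [hb, Real.sqrt_le_left h0.le]
      nlinarith
    have h3 : 1 / (n : ℝ) ≤ 2 * (b - a) := by
      have h4 : (b - a) * (b + a) = 1 := by nlinarith
      have hb0 : 0 < b := by linarith
      have h5 : b - a = 1 / (b + a) := by
        rw [eq_div_iff (by positivity)]
        exact h4
      have h6 : 2 * (1 / (b + a)) = 2 / (b + a) := by ring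
      rw [h5, h6, div_le_div_iff₀ h0 (by positivity)]
      linarith
    linarith

lemma MM_bdd (h1 : S 1 = ∅) (n : ℕ) (hn : 2 ≤ n) (ω : Ω) : |MM S n ω| ≤ 3 * n := by
  have h2 := W_pos S h1 n ω
  have h3 := W_le S h1 n (by omega) ω
  have h4 := sum_bd n hn
  have h0 : (1 : ℝ) ≤ n := by exact_mod_cast (by omega : 1 ≤ n)
  have h5 : Real.sqrt n ≤ n := by
    rw [Real.sqrt_le_left (by linarith)]
    nlinarith
  have h6 : 0 ≤ ∑ k ∈ Ico 2 n, 1 / (k : ℝ) := sum_nonneg fun k _ => by positivity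
  unfold MM
  rw [abs_le]
  constructor <;> linarith

lemma int_MM (h : Sieve μ ℱ S) (n : ℕ) (hn : 2 ≤ n) : Integrable (MM S n) μ :=
  int_of_bdd (ℱ.le n) (sm_MM h n) (MM_bdd h.one n hn)

lemma W_bdd (h1 : S 1 = ∅) (n : ℕ) (hn : 1 ≤ n) (ω : Ω) : |W S n ω| ≤ n := by
  rw [abs_of_pos (W_pos S h1 n ω)]
  exact W_le S h1 n hn ω

/-- expectation of the martingale -/
lemma exp_MM (h : Sieve μ ℱ S) (n : ℕ) (hn : 2 ≤ n) : ∫ ω, MM S n ω ∂μ = 2 := by
  induction n, hn using Nat.le_induction with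
  | base =>
    have : ∀ ω, MM S 2 ω = 2 := by
      intro ω
      have e1 : ind S 1 ω = 0 := by simp [ind, h.one]
      have e2 : ind S 2 ω = 1 := by simp [ind, h.two]
      have e3 := y_succ S 0 ω
      have e4 := y_succ S 1 ω
      rw [y_zero] at e3
      norm_num at e3 e4
      rw [e1] at e3
      rw [e3, e2] at e4
      unfold MM W
      rw [e4]
      norm_num
    simp [this]
  | succ n hn ih =>
    have h0 : (0 : ℝ) < n := by exact_mod_cast (by omega : 0 < n)
    have hsm : StronglyMeasurable[ℱ n] (fun ω => W S n ω / n) :=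
      (sm_W h n).div stronglyMeasurable_const
    have hbd : ∀ ω, |W S n ω / n| ≤ 1 := by
      intro ω
      rw [abs_div, abs_of_pos h0, div_le_one h0]
      exact W_bdd h.one n (by omega) ω
    have hk := key h hn hsm hbd
    have i1 : Integrable (fun ω => W S n ω / n * ind S (n + 1) ω) μ := by
      refine int_of_bdd (ℱ.le (n + 1)) (((hsm.mono (ℱ.mono (Nat.le_succ n)))).mul (sm_ind h (n + 1)))
        (c := 1) fun ω => ?_
      rw [abs_mul, abs_of_nonneg (ind_nonneg S _ ω)]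
      have := mul_le_mul (hbd ω) (ind_le_one S (n + 1) ω) (ind_nonneg S _ ω) (by norm_num)
      linarith
    have i2 : Integrable (fun ω => W S n ω / n * y S n ω) μ := by
      refine int_of_bdd (ℱ.le n) (hsm.mul (sm_y h n)) (c := 1) fun ω => ?_
      rw [abs_mul, abs_of_nonneg (y_pos S h.one n ω).le]
      have := mul_le_mul (hbd ω) (y_le_one S h.one n ω) (y_pos S h.one n ω).le (by norm_num)
      linarith
    have : ∀ ω, MM S (n + 1) ω = MM S n ω +
        (W S n ω / n * ind S (n + 1) ω - W S n ω / n * y S n ω) := by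
      intro ω
      rw [MM_succ h.one n hn]
      ring
    simp only [this]
    have i12 : Integrable (fun ω => W S n ω / n * ind S (n + 1) ω - W S n ω / n * y S n ω) μ :=
      i1.sub i2
    rw [integral_add (int_MM h n hn) i12, integral_sub i1 i2, hk, ih]
    ring

/-- second moment of the martingale -/
lemma sq_MM (h : Sieve μ ℱ S) (n : ℕ) (hn : 2 ≤ n) :
    ∫ ω, MM S (n + 1) ω ^ 2 ∂μ ≤ ∫ ω, MM S n ω ^ 2 ∂μ + 4 * ((n : ℝ) ^ (3 / 2 : ℝ))⁻¹ := by
  have h0 : (0 : ℝ) < n := by exact_mod_cast (by omega : 0 < n)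
  have hWs := sm_W h n
  have hMs := sm_MM h n
  have hys := sm_y h n
  have hWb := W_bdd (S := S) h.one n (by omega)
  have hMb := MM_bdd (S := S) h.one n hn
  have hyb : ∀ ω, |y S n ω| ≤ 1 := fun ω => by
    rw [abs_of_pos (y_pos S h.one n ω)]
    exact y_le_one S h.one n ω
  have hib : ∀ ω, |ind S (n + 1) ω| ≤ 1 := fun ω => by
    rw [abs_of_nonneg (ind_nonneg S _ ω)]
    exact ind_le_one S _ ω
  -- the functions
  set f1 : Ω → ℝ := fun ω => 2 * (MM S n ω * (W S n ω / n)) with hf1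
  set f2 : Ω → ℝ := fun ω => (W S n ω / n) ^ 2 with hf2
  have sf1 : StronglyMeasurable[ℱ n] f1 :=
    stronglyMeasurable_const.mul (hMs.mul (hWs.div stronglyMeasurable_const))
  have sf2 : StronglyMeasurable[ℱ n] f2 := (hWs.div stronglyMeasurable_const).pow 2
  have hWn : ∀ ω, |W S n ω / n| ≤ 1 := by
    intro ω
    rw [abs_div, abs_of_pos h0, div_le_one h0]
    exact hWb ω
  have bf1 : ∀ ω, |f1 ω| ≤ 6 * n := by
    intro ω
    rw [hf1]
    simp only [abs_mul]
    have := mul_le_mul (hMb ω) (hWn ω) (abs_nonneg _) (by positivity)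
    have h2 : |(2 : ℝ)| = 2 := by norm_num
    rw [h2]
    rw [← abs_mul] at this ⊢
    linarith
  have bf2 : ∀ ω, |f2 ω| ≤ 1 := by
    intro ω
    rw [hf2]
    simp only [abs_pow]
    exact pow_le_one₀ (abs_nonneg _) (hWn ω)
  have sf1y : StronglyMeasurable[ℱ n] (fun ω => f1 ω * y S n ω) := sf1.mul hys
  have sf2y : StronglyMeasurable[ℱ n] (fun ω => f2 ω * y S n ω) := sf2.mul hys
  have bf1y : ∀ ω, |f1 ω * y S n ω| ≤ 6 * n := by
    intro ω
    rw [abs_mul]
    have := mul_le_mul (bf1 ω) (hyb ω) (abs_nonneg _) (by positivity)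
    linarith
  have bf2y : ∀ ω, |f2 ω * y S n ω| ≤ 1 := by
    intro ω
    rw [abs_mul]
    have := mul_le_mul (bf2 ω) (hyb ω) (abs_nonneg _) (by positivity)
    linarith
  have k1 := key h hn sf1 bf1
  have k2 := key h hn sf2 bf2
  have k3 := key h hn sf2y bf2y
  have mulind : ∀ (f : Ω → ℝ) (c : ℝ), StronglyMeasurable[ℱ n] f → (∀ ω, |f ω| ≤ c) → 0 ≤ c →
      Integrable (fun ω => f ω * ind S (n + 1) ω) μ := by
    intro f c hf hc hc0
    refine int_of_bdd (ℱ.le (n + 1)) ((hf.mono (ℱ.mono (Nat.le_succ n))).mul (sm_ind h (n + 1)))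
      (c := c) fun ω => ?_
    rw [abs_mul]
    have := mul_le_mul (hc ω) (hib ω) (abs_nonneg _) hc0
    linarith
  have muly : ∀ (f : Ω → ℝ) (c : ℝ), StronglyMeasurable[ℱ n] f → (∀ ω, |f ω| ≤ c) → 0 ≤ c →
      Integrable (fun ω => f ω * y S n ω) μ := by
    intro f c hf hc hc0
    refine int_of_bdd (ℱ.le n) (hf.mul (sm_y h n)) (c := c) fun ω => ?_
    rw [abs_mul]
    have := mul_le_mul (hc ω) (hyb ω) (abs_nonneg _) hc0
    linarith
  have iM2 : Integrable (fun ω => MM S n ω ^ 2) μ :=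
    int_of_bdd (ℱ.le n) (hMs.pow 2) (c := (3 * n) ^ 2) fun ω => by
      rw [abs_pow]
      exact pow_le_pow_left₀ (abs_nonneg _) (hMb ω) 2
  have i1 := mulind f1 (6 * n) sf1 bf1 (by positivity)
  have i2 := muly f1 (6 * n) sf1 bf1 (by positivity)
  have i3 := mulind f2 1 sf2 bf2 (by norm_num)
  have i4 := mulind _ 1 sf2y bf2y (by norm_num)
  have i5 := muly _ 1 sf2y bf2y (by norm_num)
  have i6 := muly f2 1 sf2 bf2 (by norm_num)
  have expand : ∀ ω, MM S (n + 1) ω ^ 2 = MM S n ω ^ 2 + (f1 ω * ind S (n + 1) ω - f1 ω * y S n ω) +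
      (f2 ω * ind S (n + 1) ω - 2 * (f2 ω * y S n ω * ind S (n + 1) ω) +
        f2 ω * y S n ω * y S n ω) := by
    intro ω
    rw [MM_succ h.one n hn, hf1, hf2]
    simp only
    have := ind_sq S (n + 1) ω
    linear_combination (W S n ω / n) ^ 2 * this
  have e1 : ∫ ω, MM S (n + 1) ω ^ 2 ∂μ = ∫ ω, MM S n ω ^ 2 ∂μ +
      (∫ ω, f2 ω * y S n ω ∂μ - ∫ ω, f2 ω * y S n ω * y S n ω ∂μ) := by
    simp only [expand]
    have j1 : Integrable (fun ω => f1 ω * ind S (n + 1) ω - f1 ω * y S n ω) μ := i1.sub i2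
    have j2 : Integrable (fun ω => MM S n ω ^ 2 +
      (f1 ω * ind S (n + 1) ω - f1 ω * y S n ω)) μ := iM2.add j1
    have j3 : Integrable (fun ω => 2 * (f2 ω * y S n ω * ind S (n + 1) ω)) μ := i4.const_mul 2
    have j4 : Integrable (fun ω => f2 ω * ind S (n + 1) ω -
      2 * (f2 ω * y S n ω * ind S (n + 1) ω)) μ := i3.sub j3
    have j5 : Integrable (fun ω => f2 ω * ind S (n + 1) ω -
      2 * (f2 ω * y S n ω * ind S (n + 1) ω) + f2 ω * y S n ω * y S n ω) μ := j4.add i5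
    rw [integral_add j2 j5, integral_add iM2 j1, integral_sub i1 i2, integral_add j4 i5,
      integral_sub i3 j3, integral_const_mul, k1, k2, k3]
    ring
  have e2 : 0 ≤ ∫ ω, f2 ω * y S n ω * y S n ω ∂μ := by
    refine integral_nonneg fun ω => ?_
    have := (y_pos S h.one n ω).le
    have : 0 ≤ f2 ω := sq_nonneg _
    positivity
  have e3 : ∫ ω, f2 ω * y S n ω ∂μ = (2 + ∑ k ∈ Ico 2 n, 1 / (k : ℝ)) / n ^ 2 := by
    have : ∀ ω, f2 ω * y S n ω = (MM S n ω + ∑ k ∈ Ico 2 n, 1 / (k : ℝ)) / n ^ 2 := by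
      intro ω
      have hw := W_mul_y S h.one n ω
      have : f2 ω * y S n ω = W S n ω * (W S n ω * y S n ω) / n ^ 2 := by
        rw [hf2]
        ring
      rw [this, hw]
      unfold MM
      ring
    simp only [this]
    rw [integral_div, integral_add (int_MM h n hn) (integrable_const _), exp_MM h n hn]
    simp
  have e4 : (2 + ∑ k ∈ Ico 2 n, 1 / (k : ℝ)) / n ^ 2 ≤ 4 * ((n : ℝ) ^ (3 / 2 : ℝ))⁻¹ := by
    have h1 := sum_bd n hn
    have h2 : (1 : ℝ) ≤ Real.sqrt n := by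
      rw [Real.one_le_sqrt]
      exact_mod_cast (by omega : 1 ≤ n)
    have h3 : (n : ℝ) ^ (3 / 2 : ℝ) * Real.sqrt n = (n : ℝ) ^ 2 := by
      rw [Real.sqrt_eq_rpow, ← Real.rpow_add h0]
      norm_num
    have h4 : (0 : ℝ) < (n : ℝ) ^ (3 / 2 : ℝ) := Real.rpow_pos_of_pos h0 _
    rw [← h3, div_le_iff₀ (by positivity)]
    calc 2 + ∑ k ∈ Ico 2 n, 1 / (k : ℝ) ≤ 4 * Real.sqrt n := by linarith
      _ = 4 * ((n : ℝ) ^ (3 / 2 : ℝ))⁻¹ * ((n : ℝ) ^ (3 / 2 : ℝ) * Real.sqrt n) := by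
        field_simp
  linarith

lemma sq_bdd (h : Sieve μ ℱ S) : ∃ R : ℝ, ∀ n, 2 ≤ n → ∫ ω, MM S n ω ^ 2 ∂μ ≤ R := by
  have hs : Summable (fun n : ℕ => 4 * ((n : ℝ) ^ (3 / 2 : ℝ))⁻¹) :=
    (Real.summable_nat_rpow_inv.2 (by norm_num)).mul_left 4
  refine ⟨∫ ω, MM S 2 ω ^ 2 ∂μ + ∑' n : ℕ, 4 * ((n : ℝ) ^ (3 / 2 : ℝ))⁻¹, fun n hn => ?_⟩
  have h1 : ∀ n, 2 ≤ n → ∫ ω, MM S n ω ^ 2 ∂μ ≤
      ∫ ω, MM S 2 ω ^ 2 ∂μ + ∑ k ∈ Ico 2 n, 4 * ((k : ℝ) ^ (3 / 2 : ℝ))⁻¹ := by
    intro n hn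
    induction n, hn using Nat.le_induction with
    | base => simp
    | succ n hn ih =>
      rw [sum_Ico_succ_top (by omega)]
      have := sq_MM h n hn
      linarith
  refine (h1 n hn).trans ?_
  have h2 := hs.sum_le_tsum (Ico 2 n) (fun k _ => by positivity)
  linarith

/-- **Mertens' product in the sieve of Hawkins.** -/
lemma conv (h : Sieve μ ℱ S) : ∃ L : Ω → ℝ, ∀ᵐ ω ∂μ,
    Tendsto (fun n : ℕ => W S n ω - Real.log n) atTop (𝓝 (L ω)) := by
  let 𝒢 : Filtration ℕ mΩ := ⟨fun n => ℱ (n + 2), fun i j hij => ℱ.mono (by omega), fun i => ℱ.le _⟩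
  have hmart : Martingale (fun n => MM S (n + 2)) 𝒢 μ := by
    refine martingale_nat (fun n => sm_MM h (n + 2)) (fun n => int_MM h (n + 2) (by omega)) ?_
    intro n
    show MM S (n + 2) =ᵐ[μ] μ[MM S (n + 2 + 1) | ℱ (n + 2)]
    set k := n + 2 with hk
    have hk2 : 2 ≤ k := by omega
    have h0 : (0 : ℝ) < k := by exact_mod_cast (by omega : 0 < k)
    have hsm : StronglyMeasurable[ℱ k] (fun ω => W S k ω / k) :=
      (sm_W h k).div stronglyMeasurable_const
    have hbd : ∀ ω, |W S k ω / k| ≤ 1 := by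
      intro ω
      rw [abs_div, abs_of_pos h0, div_le_one h0]
      exact W_bdd h.one k (by omega) ω
    have hint : Integrable (ind S (k + 1)) μ :=
      int_of_bdd (ℱ.le (k + 1)) (sm_ind h (k + 1)) (c := 1) fun ω => by
        rw [abs_of_nonneg (ind_nonneg S _ ω)]
        exact ind_le_one S _ ω
    have hfun : MM S (k + 1) = (fun ω => MM S k ω - 1 / k) +
        (fun ω => W S k ω / k) * ind S (k + 1) := by
      funext ω
      rw [MM_succ h.one k hk2]
      simp only [Pi.add_apply, Pi.mul_apply]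
      have hw := W_mul_y S h.one k ω
      have : W S k ω / k * (ind S (k + 1) ω - y S k ω) =
        W S k ω / k * ind S (k + 1) ω - (W S k ω * y S k ω) / k := by ring
      rw [this, hw]
      ring
    have sA : StronglyMeasurable[ℱ k] (fun ω => MM S k ω - 1 / (k : ℝ)) :=
      (sm_MM h k).sub stronglyMeasurable_const
    have iA : Integrable (fun ω => MM S k ω - 1 / (k : ℝ)) μ :=
      (int_MM h k hk2).sub (integrable_const _)
    have iB : Integrable ((fun ω => W S k ω / k) * ind S (k + 1)) μ := by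
      refine int_of_bdd (ℱ.le (k + 1))
        ((hsm.mono (ℱ.mono (Nat.le_succ k))).mul (sm_ind h (k + 1))) (c := 1) fun ω => ?_
      rw [Pi.mul_apply, abs_mul, abs_of_nonneg (ind_nonneg S _ ω)]
      have := mul_le_mul (hbd ω) (ind_le_one S (k + 1) ω) (ind_nonneg S _ ω) (by norm_num)
      linarith
    have c1 := condExp_add (μ := μ) iA iB (ℱ k)
    have c2 := condExp_of_stronglyMeasurable (ℱ.le k) sA iA
    have c3 := condExp_stronglyMeasurable_mul_of_bound (ℱ.le k) hsm hint 1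
      (Eventually.of_forall fun ω => by rw [Real.norm_eq_abs]; exact hbd ω)
    have c4 : μ[ind S (k + 1) | ℱ k] =ᵐ[μ] y S k := h.density k hk2
    rw [hfun]
    filter_upwards [c1, c3, c4] with ω e1 e3 e4
    rw [e1, Pi.add_apply, c2, e3, Pi.mul_apply, e4]
    have hw := W_mul_y S h.one k ω
    have : W S k ω / k * y S k ω = (W S k ω * y S k ω) / k := by ring
    rw [this, hw]
    ring
  obtain ⟨R, hR⟩ := sq_bdd h
  have hL1 : ∀ n, eLpNorm (MM S (n + 2)) 1 μ ≤ ((1 + R).toNNReal : ENNReal) := by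
    intro n
    have hint := int_MM h (n + 2) (by omega)
    rw [eLpNorm_one_eq_lintegral_enorm, ← ofReal_integral_norm_eq_lintegral_enorm hint]
    refine ENNReal.ofReal_le_ofReal ?_
    have isq : Integrable (fun ω => MM S (n + 2) ω ^ 2) μ :=
      int_of_bdd (ℱ.le _) ((sm_MM h (n + 2)).pow 2) (c := (3 * ((n + 2 : ℕ) : ℝ)) ^ 2)
          fun ω => by
            show |MM S (n + 2) ω ^ 2| ≤ _
            rw [abs_pow]
            exact pow_le_pow_left₀ (abs_nonneg _) (MM_bdd h.one (n + 2) (by omega) ω) 2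
    have h1 : ∫ ω, ‖MM S (n + 2) ω‖ ∂μ ≤ ∫ ω, (1 + MM S (n + 2) ω ^ 2) ∂μ := by
      refine integral_mono hint.norm ((integrable_const _).add isq) fun ω => ?_
      simp only [Real.norm_eq_abs]
      rw [abs_le]
      constructor <;> nlinarith [sq_nonneg (MM S (n + 2) ω - 1), sq_nonneg (MM S (n + 2) ω + 1)]
    refine h1.trans ?_
    rw [integral_add (integrable_const _) isq]
    have := hR (n + 2) (by omega)
    simp only [integral_const, probReal_univ, smul_eq_mul, mul_one]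
    linarith
  have hlim := hmart.submartingale.ae_tendsto_limitProcess hL1
  refine ⟨fun ω => 𝒢.limitProcess (fun n => MM S (n + 2)) μ ω +
    (Real.eulerMascheroniConstant - 1), ?_⟩
  filter_upwards [hlim] with ω hω
  have h2 : Tendsto (fun n : ℕ => MM S n ω) atTop
      (𝓝 (𝒢.limitProcess (fun n => MM S (n + 2)) μ ω)) :=
    (tendsto_add_atTop_iff_nat (f := fun n => MM S n ω) 2).1 hω
  have h3 : Tendsto (fun n : ℕ => ∑ k ∈ Ico 2 n, 1 / (k : ℝ) - Real.log n) atTop
      (𝓝 (Real.eulerMascheroniConstant - 1)) := by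
    have h4 := Real.tendsto_harmonic_sub_log
    have h5 : Tendsto (fun n : ℕ => (harmonic n : ℝ) - Real.log n - (1 + 1 / (n : ℝ))) atTop
        (𝓝 (Real.eulerMascheroniConstant - (1 + 0))) :=
      h4.sub (tendsto_const_nhds.add tendsto_one_div_atTop_nhds_zero_nat)
    rw [add_zero] at h5
    refine h5.congr' ?_
    filter_upwards [eventually_ge_atTop 2] with n hn
    have h6 : (harmonic n : ℝ) = 1 + ∑ k ∈ Ico 2 n, 1 / (k : ℝ) + 1 / n := by
      have h7 : (harmonic n : ℝ) = ∑ k ∈ Icc 1 n, 1 / (k : ℝ) := by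
        rw [harmonic_eq_sum_Icc]
        push_cast
        refine sum_congr rfl fun k _ => ?_
        rw [one_div]
      have h8 : Icc 1 n = insert 1 (insert n (Ico 2 n)) := by
        ext m
        simp only [mem_Icc, mem_insert, mem_Ico]
        omega
      rw [h7, h8, sum_insert (by simp; omega), sum_insert (by simp)]
      push_cast
      ring
    rw [h6]
    ring
  have h9 := h2.add h3
  refine h9.congr fun n => ?_
  unfold MM
  ring

end prob

end Pool.Agent.H35J.Hawkins
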