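import Mathlib
import Pool.Agent.H35J.Core

set_option autoImplicit false

/-!
# The zero-one law and the threshold
-/

open MeasureTheory Filter Finset
open scoped Topology

namespace Pool.Agent.H35J

/-- the series of the zero-one law -/
noncomputable def wt (Q : ℕ) (t : ℕ → ℝ) (n : ℕ) : ℝ :=
  if n.Coprime Q then Real.exp (-t n) / (n * Real.log n) else 0

lemma wt_nonneg (Q : ℕ) (t : ℕ → ℝ) (n : ℕ) : 0 ≤ wt Q t n := by
  unfold wt
  split_ifs
  · have := Real.log_natCast_nonneg n
    positivity
  · exact le_rfl

section law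

variable {Ω : Type*} [mΩ : MeasurableSpace Ω] {μ : Measure Ω} [IsProbabilityMeasure μ]
  {ℱ : Filtration ℕ mΩ} {S : ℕ → Set Ω}

lemma law {Q : ℕ} (hQ : 0 < Q) {K C : ℝ} (hK : 0 ≤ K) (hC : 0 ≤ C)
    (hS : ∀ n, MeasurableSet[ℱ n] (S n)) (hsieve : ∀ n, ¬ n.Coprime Q → S n = ∅)
    (hd : ∀ᶠ n : ℕ in atTop, (n + 1).Coprime Q → ∀ᵐ ω ∂μ,
      |(μ[(S (n + 1)).indicator (fun _ => (1 : ℝ)) | ℱ n]) ω *
        ((Q.totient : ℝ) / Q * Real.log n) - 1| ≤ K / Real.log n)
    (t : ℕ → ℝ) (ht : ∀ᶠ n : ℕ in atTop, -Real.log n ≤ t n ∧ t n ≤ C * Real.log n) :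
    (¬ Summable (wt Q t) → ∀ᵐ ω ∂μ, ∃ᶠ n : ℕ in atTop,
      ω ∈ ev S (Real.log n ^ 2 + t n * Real.log n) n) ∧
    (Summable (wt Q t) → ∀ᵐ ω ∂μ, ∀ᶠ n : ℕ in atTop,
      ω ∉ ev S (Real.log n ^ 2 + t n * Real.log n) n) := by
  obtain ⟨c1, c2, hc1, hc2, n1, hn1, hb⟩ := core hQ hK hC hS hsieve hd t ht
  have hempty : ∀ n, ¬ n.Coprime Q → ∀ g, ev S g n = ∅ := by
    intro n hn g
    rw [ev, hsieve n hn, Set.empty_inter]
  have hb' : ∀ n, n1 ≤ n → ∀ A, MeasurableSet[ℱ (n - 1)] A →
      c1 * wt Q t n * μ.real A ≤ μ.real (A ∩ ev S (Real.log n ^ 2 + t n * Real.log n) n) ∧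
      μ.real (A ∩ ev S (Real.log n ^ 2 + t n * Real.log n) n) ≤ c2 * wt Q t n * μ.real A := by
    intro n hn A hA
    unfold wt
    split_ifs with h
    · exact hb n hn h A hA
    · rw [hempty n h]
      simp
  constructor
  · intro hsum
    refine diverge (μ := μ) (ℱ := ℱ) (E := fun n => ev S (Real.log n ^ 2 + t n * Real.log n) n)
      (e := fun n => last (Real.log n ^ 2 + t n * Real.log n) n)
      (h := fun n => c1 * wt Q t n) (H := fun n => c2 * wt Q t n) (C := c2 / c1) (n1 := n1)
      (by omega) (fun n => meas_ev hS _ n) (fun n => mul_nonneg hc1.le (wt_nonneg Q t n))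
      (fun n => mul_nonneg hc2.le (wt_nonneg Q t n)) ?_ (by positivity) hb' ?_ ?_
    · intro n
      rw [div_mul_eq_mul_div, le_div_iff₀ hc1]
      apply le_of_eq
      ring
    · intro n n' _ h1 h2
      rw [Set.disjoint_left]
      intro ω hω hω'
      exact hω.2 n' h1 h2 hω'.1
    · intro h
      exact hsum ((summable_mul_left_iff hc1.ne').1 h)
  · intro hsum
    refine converge (μ := μ) (E := fun n => ev S (Real.log n ^ 2 + t n * Real.log n) n)
      (H := fun n => c2 * wt Q t n) (n1 := n1) (fun n => mul_nonneg hc2.le (wt_nonneg Q t n)) ?_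
      (hsum.mul_left c2)
    intro n hn
    have := (hb' n hn Set.univ MeasurableSet.univ).2
    simpa using this

end law

/-! ### the threshold -/

lemma loglog_tendsto : Tendsto (fun n : ℕ => Real.log (Real.log n)) atTop atTop :=
  Real.tendsto_log_atTop.comp log_tendsto

lemma logloglog_tendsto : Tendsto (fun n : ℕ => Real.log (Real.log (Real.log n))) atTop atTop :=
  Real.tendsto_log_atTop.comp loglog_tendsto

lemma log_ratio_le {a b : ℝ} (ha : 0 < a) (hb : a ≤ b) : Real.log b - Real.log a ≤ (b - a) / a := by
  rw [← Real.log_div (by linarith) ha.ne']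
  have := Real.log_le_sub_one_of_pos (show 0 < b / a by
    have : 0 < b := by linarith
    positivity)
  have h2 : (b - a) / a = b / a - 1 := by
    field_simp
  linarith

lemma log_ratio_ge {a b : ℝ} (ha : 0 < a) (hb : a ≤ b) : (b - a) / b ≤ Real.log b - Real.log a := by
  have hb0 : 0 < b := by linarith
  rw [← Real.log_div hb0.ne' ha.ne']
  have := Real.one_sub_inv_le_log_of_pos (show 0 < b / a by positivity)
  have h2 : (b - a) / b = 1 - (b / a)⁻¹ := by
    field_simp
  linarith

/-- divergence -/
lemma not_summable {Q : ℕ} (hQ : 0 < Q) {c : ℝ} (hc : c ≤ 1) :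
    ¬ Summable (wt Q (fun n => c * Real.log (Real.log (Real.log n)))) := by
  intro hsum
  set F : ℕ → ℝ := fun k => Real.log (Real.log (Real.log ((k * Q + 1 : ℕ) : ℝ))) with hF
  have hmap : Tendsto (fun k : ℕ => k * Q + 1) atTop atTop :=
    tendsto_atTop_mono (fun k => by
      show k ≤ k * Q + 1
      have : k * 1 ≤ k * Q := Nat.mul_le_mul_left k hQ
      omega) tendsto_id
  have hinj : Function.Injective (fun k : ℕ => k * Q + 1) := by
    intro a b hab
    have : a * Q = b * Q := by
      simp only at hab
      omega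
    exact Nat.eq_of_mul_eq_mul_right hQ this
  have h1 := hsum.comp_injective hinj
  have hev := (hmap.eventually (log_tendsto.eventually_ge_atTop 1)).and
    ((hmap.eventually (loglog_tendsto.eventually_ge_atTop 1)).and
      (hmap.eventually (logloglog_tendsto.eventually_ge_atTop 0)))
  obtain ⟨k0, hk0⟩ := eventually_atTop.1 hev
  have hstep : ∀ k, k0 ≤ k → 0 ≤ F (k + 1) - F k ∧ F (k + 1) - F k ≤
      Q * (wt Q (fun n => c * Real.log (Real.log (Real.log n))) (k * Q + 1)) := by
    intro k hk
    obtain ⟨a1, a2, a3⟩ := hk0 k hk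
    obtain ⟨b1, b2, b3⟩ := hk0 (k + 1) (by omega)
    have hcop : (k * Q + 1).Coprime Q := by
      have : Nat.Coprime (1 + k * Q) Q := by simp
      rwa [add_comm] at this
    set a : ℝ := ((k * Q + 1 : ℕ) : ℝ) with ha
    set b : ℝ := (((k + 1) * Q + 1 : ℕ) : ℝ) with hb
    have hab : b - a = Q := by
      rw [ha, hb]
      push_cast
      ring
    have ha0 : 0 < a := by rw [ha]; exact_mod_cast Nat.succ_pos _
    have hQ0 : (0 : ℝ) < Q := by exact_mod_cast hQ
    have hab' : a ≤ b := by linarith
    have l1 : Real.log a ≤ Real.log b := Real.log_le_log ha0 hab'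
    have l2 : Real.log (Real.log a) ≤ Real.log (Real.log b) := Real.log_le_log (by linarith) l1
    have l3 : Real.log (Real.log (Real.log a)) ≤ Real.log (Real.log (Real.log b)) :=
      Real.log_le_log (by linarith) l2
    have m1 := log_ratio_le ha0 hab'
    have m2 := log_ratio_le (show 0 < Real.log a by linarith) l1
    have m3 := log_ratio_le (show 0 < Real.log (Real.log a) by linarith) l2
    rw [hab] at m1
    constructor
    · show 0 ≤ Real.log (Real.log (Real.log b)) - Real.log (Real.log (Real.log a))
      linarith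
    · show Real.log (Real.log (Real.log b)) - Real.log (Real.log (Real.log a)) ≤ _
      have hla : 0 < Real.log a := by linarith
      have hlla : 0 < Real.log (Real.log a) := by linarith
      have e1 : Real.log (Real.log b) - Real.log (Real.log a) ≤ Q / a / Real.log a :=
        m2.trans (div_le_div_of_nonneg_right m1 hla.le)
      have e2 : Real.log (Real.log (Real.log b)) - Real.log (Real.log (Real.log a)) ≤
          Q / a / Real.log a / Real.log (Real.log a) :=
        m3.trans (div_le_div_of_nonneg_right e1 hlla.le)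
      refine e2.trans ?_
      unfold wt
      rw [if_pos hcop, ← ha]
      have e3 : (Real.log (Real.log a))⁻¹ ≤ Real.exp (-(c * Real.log (Real.log (Real.log a)))) := by
        have : (Real.log (Real.log a))⁻¹ = Real.exp (-(Real.log (Real.log (Real.log a)))) := by
          rw [Real.exp_neg, Real.exp_log hlla]
        rw [this]
        refine Real.exp_le_exp.2 ?_
        nlinarith
      calc Q / a / Real.log a / Real.log (Real.log a)
          = Q * ((Real.log (Real.log a))⁻¹ / (a * Real.log a)) := by
            field_simp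
        _ ≤ _ := mul_le_mul_of_nonneg_left
            (div_le_div_of_nonneg_right e3 (by positivity)) hQ0.le
  have h2 : Summable fun k => F (k + k0 + 1) - F (k + k0) := by
    have h3 : Summable fun k => (Q : ℝ) *
        (wt Q (fun n => c * Real.log (Real.log (Real.log n))) ((k + k0) * Q + 1)) :=
      (((summable_nat_add_iff k0).2 h1).mul_left (Q : ℝ))
    refine Summable.of_nonneg_of_le (fun k => (hstep (k + k0) (by omega)).1)
      (fun k => (hstep (k + k0) (by omega)).2) h3
  have h4 := h2.hasSum.tendsto_sum_nat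
  have h5 : ∀ n, ∑ k ∈ range n, (F (k + k0 + 1) - F (k + k0)) = F (n + k0) - F k0 := by
    intro n
    have := sum_range_sub (fun k => F (k + k0)) n
    simp only [zero_add] at this
    rw [← this]
    refine sum_congr rfl fun k _ => ?_
    congr 2
    omega
  simp only [h5] at h4
  have h6 : Tendsto (fun n => F (n + k0) - F k0) atTop atTop := by
    refine tendsto_atTop_add_const_right _ _ ?_
    have : Tendsto F atTop atTop := logloglog_tendsto.comp hmap
    exact this.comp (tendsto_add_atTop_nat k0)
  exact not_tendsto_nhds_of_tendsto_atTop h6 _ h4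

/-- convergence -/
lemma summable_wt (Q : ℕ) {c : ℝ} (hc : 1 < c) :
    Summable (wt Q (fun n => c * Real.log (Real.log (Real.log n)))) := by
  set p : ℝ := c - 1 with hp
  have hp0 : 0 < p := by rw [hp]; linarith
  set G : ℕ → ℝ := fun n => Real.exp (-(p * Real.log (Real.log (Real.log n)))) with hG
  obtain ⟨n0, hn0⟩ := eventually_atTop.1 ((log_tendsto.eventually_ge_atTop 1).and
    (loglog_tendsto.eventually_ge_atTop 1))
  have hstep : ∀ n, max n0 1 ≤ n → wt Q (fun n => c * Real.log (Real.log (Real.log n))) (n + 1) ≤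
      p⁻¹ * (G n - G (n + 1)) := by
    intro n hn
    have hn' : n0 ≤ n := (le_max_left _ _).trans hn
    have hn1 : 1 ≤ n := (le_max_right _ _).trans hn
    obtain ⟨a1, a2⟩ := hn0 n hn'
    set a : ℝ := (n : ℝ) with ha
    set b : ℝ := ((n + 1 : ℕ) : ℝ) with hb
    have hab : b - a = 1 := by
      rw [ha, hb]
      push_cast
      ring
    have ha0 : 0 < a := by rw [ha]; exact_mod_cast hn1
    have hb0 : 0 < b := by linarith
    have l1 : Real.log a ≤ Real.log b := Real.log_le_log ha0 (by linarith)
    have l2 : Real.log (Real.log a) ≤ Real.log (Real.log b) := Real.log_le_log (by linarith) l1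
    have m1 := log_ratio_ge ha0 (show a ≤ b by linarith)
    have m2 := log_ratio_ge (show 0 < Real.log a by linarith) l1
    have m3 := log_ratio_ge (show 0 < Real.log (Real.log a) by linarith) l2
    rw [hab] at m1
    have hlb : 0 < Real.log b := by linarith
    have hllb : 0 < Real.log (Real.log b) := by linarith
    have e1 : 1 / b / Real.log b ≤ Real.log (Real.log b) - Real.log (Real.log a) :=
      (div_le_div_of_nonneg_right m1 hlb.le).trans m2
    have e2 : 1 / b / Real.log b / Real.log (Real.log b) ≤
        Real.log (Real.log (Real.log b)) - Real.log (Real.log (Real.log a)) :=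
      (div_le_div_of_nonneg_right e1 hllb.le).trans m3
    set x : ℝ := Real.log (Real.log (Real.log b)) with hx
    set x' : ℝ := Real.log (Real.log (Real.log a)) with hx'
    have e3 : G n - G (n + 1) ≥ Real.exp (-(p * x)) * (p * (x - x')) := by
      show Real.exp (-(p * x')) - Real.exp (-(p * x)) ≥ _
      have : Real.exp (-(p * x')) = Real.exp (-(p * x)) * Real.exp (p * (x - x')) := by
        rw [← Real.exp_add]
        congr 1
        ring
      rw [this]
      have h := Real.add_one_le_exp (p * (x - x'))
      have h2 := mul_le_mul_of_nonneg_left h (Real.exp_pos (-(p * x))).le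
      linarith
    have e4 : Real.exp (-(c * x)) = Real.exp (-(p * x)) / Real.log (Real.log b) := by
      have : Real.exp (-x) = (Real.log (Real.log b))⁻¹ := by
        rw [Real.exp_neg, hx, Real.exp_log hllb]
      rw [div_eq_mul_inv, ← this, ← Real.exp_add]
      congr 1
      rw [hp]
      ring
    have e5 : wt Q (fun n => c * Real.log (Real.log (Real.log n))) (n + 1) ≤
        Real.exp (-(c * x)) / (b * Real.log b) := by
      unfold wt
      split_ifs
      · exact le_rfl
      · positivity
    refine e5.trans ?_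
    rw [e4]
    calc Real.exp (-(p * x)) / Real.log (Real.log b) / (b * Real.log b)
        = Real.exp (-(p * x)) * (1 / b / Real.log b / Real.log (Real.log b)) := by
          field_simp
      _ ≤ Real.exp (-(p * x)) * (x - x') := mul_le_mul_of_nonneg_left e2 (Real.exp_pos _).le
      _ = p⁻¹ * (Real.exp (-(p * x)) * (p * (x - x'))) := by
          field_simp
      _ ≤ _ := mul_le_mul_of_nonneg_left e3 (by positivity)
  set N : ℕ := max n0 1 with hN
  rw [← summable_nat_add_iff (N + 1)]
  refine summable_of_sum_range_le (c := p⁻¹ * G N) (fun n => wt_nonneg Q _ _) ?_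
  intro n
  calc ∑ i ∈ range n, wt Q (fun n => c * Real.log (Real.log (Real.log n))) (i + (N + 1))
      ≤ ∑ i ∈ range n, p⁻¹ * (G (i + N) - G (i + N + 1)) :=
        sum_le_sum fun i _ => hstep (i + N) (by omega)
    _ = p⁻¹ * (G N - G (n + N)) := by
        rw [← mul_sum]
        congr 1
        have := sum_range_sub' (fun k => G (k + N)) n
        simp only [zero_add] at this
        rw [← this]
        refine sum_congr rfl fun k _ => ?_
        congr 2
        omega
    _ ≤ p⁻¹ * G N := by
        refine mul_le_mul_of_nonneg_left ?_ (by positivity)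
        have : 0 ≤ G (n + N) := (Real.exp_pos _).le
        linarith

lemma t_bounds (c : ℝ) : ∀ᶠ n : ℕ in atTop,
    -Real.log n ≤ c * Real.log (Real.log (Real.log n)) ∧
      c * Real.log (Real.log (Real.log n)) ≤ |c| * Real.log n := by
  -- `logloglog n ≤ log n / (1 + |c|)` eventually
  have h1 : Tendsto (fun n : ℕ => Real.log (Real.log (Real.log n)) / Real.log n) atTop (𝓝 0) := by
    have h2 : Tendsto (fun x : ℝ => Real.log (Real.log x) / x) atTop (𝓝 0) := by
      have h3 := Real.isLittleO_log_id_atTop
      have h4 : (fun x : ℝ => Real.log (Real.log x)) =o[atTop] fun x : ℝ => x := by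
        have h5 : (fun x : ℝ => Real.log (Real.log x)) =o[atTop] fun x : ℝ => Real.log x :=
          h3.comp_tendsto Real.tendsto_log_atTop
        exact h5.trans h3
      exact h4.tendsto_div_nhds_zero
    exact h2.comp log_tendsto
  have h2 : ∀ᶠ n : ℕ in atTop, Real.log (Real.log (Real.log n)) / Real.log n < 1 / (1 + |c|) :=
    h1.eventually (gt_mem_nhds (by positivity))
  filter_upwards [h2, log_tendsto.eventually_ge_atTop 1, logloglog_tendsto.eventually_ge_atTop 0]
    with n a1 a2 a3
  have hl : 0 < Real.log n := by linarith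
  rw [div_lt_div_iff₀ hl (by positivity)] at a1
  have h3 : Real.log (Real.log (Real.log n)) ≤ Real.log n := by
    have : 0 ≤ |c| * Real.log (Real.log (Real.log n)) := by positivity
    linarith
  have h4 : |c| * Real.log (Real.log (Real.log n)) ≤ Real.log n := by
    have : 0 ≤ Real.log (Real.log (Real.log n)) := a3
    linarith
  constructor
  · have : -(|c| * Real.log (Real.log (Real.log n))) ≤ c * Real.log (Real.log (Real.log n)) := by
      have := neg_abs_le c
      nlinarith
    linarith
  · have : c * Real.log (Real.log (Real.log n)) ≤ |c| * Real.log (Real.log (Real.log n)) :=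
      mul_le_mul_of_nonneg_right (le_abs_self c) a3
    have h5 : |c| * Real.log (Real.log (Real.log n)) ≤ |c| * Real.log n :=
      mul_le_mul_of_nonneg_left h3 (abs_nonneg c)
    linarith

end Pool.Agent.H35J
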