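import Mathlib
import Pool.Agent.H35J.Haw1
import Pool.Agent.H35J.Thresh

set_option autoImplicit false

/-!
# The random sieve of Hawkins: orthogonality and second moments
-/

open MeasureTheory Filter Finset
open scoped Topology

namespace Pool.Agent.H35J.Hawkins

open Pool.Agent.H35J (gap gap_self gap_succ meas_gap last le_last last_le le_last')

variable {Ω : Type} [mΩ : MeasurableSpace Ω] {μ : Measure Ω} [IsProbabilityMeasure μ]
  {ℱ : Filtration ℕ mΩ} {S : ℕ → Set Ω}

/-- indicator of a gap -/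
noncomputable def gI (S : ℕ → Set Ω) (a b : ℕ) (ω : Ω) : ℝ := (gap S a b).indicator (fun _ => (1 : ℝ)) ω

omit mΩ in
lemma gI_nonneg (a b : ℕ) (ω : Ω) : 0 ≤ gI S a b ω := by
  unfold gI
  by_cases h : ω ∈ gap S a b <;> simp [h]

omit mΩ in
lemma gI_le_one (a b : ℕ) (ω : Ω) : gI S a b ω ≤ 1 := by
  unfold gI
  by_cases h : ω ∈ gap S a b <;> simp [h]

omit mΩ in
lemma gI_sq (a b : ℕ) (ω : Ω) : gI S a b ω * gI S a b ω = gI S a b ω := by
  unfold gI
  by_cases h : ω ∈ gap S a b <;> simp [h]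

lemma gI_succ {a b : ℕ} (h : a ≤ b) (ω : Ω) :
    gI S a (b + 1) ω = gI S a b ω * (1 - ind S (b + 1) ω) := by
  unfold gI ind
  rw [gap_succ S h]
  by_cases h1 : ω ∈ gap S a b
  · by_cases h2 : ω ∈ S (b + 1)
    · rw [Set.indicator_of_notMem (fun h' => h'.2 h2), Set.indicator_of_mem h1,
        Set.indicator_of_mem h2]
      norm_num
    · rw [Set.indicator_of_mem (show ω ∈ gap S a b \ S (b + 1) from ⟨h1, h2⟩),
        Set.indicator_of_mem h1, Set.indicator_of_notMem h2]
      norm_num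
  · rw [Set.indicator_of_notMem (fun h' => h1 h'.1), Set.indicator_of_notMem h1]
    ring

lemma y_gap {a b : ℕ} (h : a ≤ b) (ω : Ω) (hω : ω ∈ gap S a b) : y S b ω = y S a ω := by
  induction b, h using Nat.le_induction with
  | base => rfl
  | succ b h ih =>
    rw [gap_succ S h] at hω
    rw [y_succ, ih hω.1]
    have : ind S (b + 1) ω = 0 := by
      unfold ind
      exact Set.indicator_of_notMem hω.2 _
    rw [this]
    ring

lemma sm_gI (h : Sieve μ ℱ S) (a b : ℕ) : StronglyMeasurable[ℱ b] (gI S a b) :=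
  StronglyMeasurable.indicator stronglyMeasurable_const (meas_gap h.adapted a b)

/-- the conditional probability of a gap -/
lemma gapint (h : Sieve μ ℱ S) {a b : ℕ} (ha : 2 ≤ a) (hab : a ≤ b) :
    ∀ {f : Ω → ℝ}, StronglyMeasurable[ℱ a] f → (∀ ω, |f ω| ≤ 1) →
      ∫ ω, f ω * gI S a b ω ∂μ = ∫ ω, f ω * (1 - y S a ω) ^ (b - a) ∂μ := by
  induction b, hab using Nat.le_induction with
  | base =>
    intro f hf hc
    refine integral_congr_ae (Eventually.of_forall fun ω => ?_)
    simp [gI, gap_self]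
  | succ b hab ih =>
    intro f hf hc
    have hy0 : ∀ ω, 0 ≤ 1 - y S a ω := fun ω => by linarith [y_le_one S h.one a ω]
    have hy1 : ∀ ω, 1 - y S a ω ≤ 1 := fun ω => by linarith [y_pos S h.one a ω]
    have sF : StronglyMeasurable[ℱ b] (fun ω => f ω * gI S a b ω) :=
      (hf.mono (ℱ.mono hab)).mul (sm_gI h a b)
    have bF : ∀ ω, |f ω * gI S a b ω| ≤ 1 := by
      intro ω
      rw [abs_mul, abs_of_nonneg (gI_nonneg a b ω)]
      have := mul_le_mul (hc ω) (gI_le_one (S := S) a b ω) (gI_nonneg a b ω) (by norm_num)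
      linarith
    have hk := key h (by omega : 2 ≤ b) sF bF
    have i1 : Integrable (fun ω => f ω * gI S a b ω) μ := int_of_bdd (ℱ.le b) sF bF
    have i2 : Integrable (fun ω => f ω * gI S a b ω * ind S (b + 1) ω) μ := by
      refine int_of_bdd (ℱ.le (b + 1)) ((sF.mono (ℱ.mono (Nat.le_succ b))).mul (sm_ind h (b + 1)))
        (c := 1) fun ω => ?_
      rw [abs_mul, abs_of_nonneg (ind_nonneg S _ ω)]
      have := mul_le_mul (bF ω) (ind_le_one S (b + 1) ω) (ind_nonneg S _ ω) (by norm_num)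
      linarith
    have i3 : Integrable (fun ω => f ω * gI S a b ω * y S b ω) μ := by
      refine int_of_bdd (ℱ.le b) (sF.mul (sm_y h b)) (c := 1) fun ω => ?_
      rw [abs_mul, abs_of_nonneg (y_pos S h.one b ω).le]
      have := mul_le_mul (bF ω) (y_le_one S h.one b ω) (y_pos S h.one b ω).le (by norm_num)
      linarith
    have e1 : ∫ ω, f ω * gI S a (b + 1) ω ∂μ =
        ∫ ω, f ω * gI S a b ω ∂μ - ∫ ω, f ω * gI S a b ω * ind S (b + 1) ω ∂μ := by
      rw [← integral_sub i1 i2]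
      refine integral_congr_ae (Eventually.of_forall fun ω => ?_)
      simp only
      rw [gI_succ hab]
      ring
    rw [e1, hk, ← integral_sub i1 i3]
    have sf' : StronglyMeasurable[ℱ a] (fun ω => f ω * (1 - y S a ω)) :=
      hf.mul (stronglyMeasurable_const.sub (sm_y h a))
    have bf' : ∀ ω, |f ω * (1 - y S a ω)| ≤ 1 := by
      intro ω
      rw [abs_mul, abs_of_nonneg (hy0 ω)]
      have := mul_le_mul (hc ω) (hy1 ω) (hy0 ω) (by norm_num)
      linarith
    have hih := ih sf' bf'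
    have e2 : ∫ ω, (f ω * gI S a b ω - f ω * gI S a b ω * y S b ω) ∂μ =
        ∫ ω, f ω * (1 - y S a ω) * gI S a b ω ∂μ := by
      refine integral_congr_ae (Eventually.of_forall fun ω => ?_)
      simp only
      by_cases hω : ω ∈ gap S a b
      · rw [y_gap hab ω hω]
        ring
      · have : gI S a b ω = 0 := Set.indicator_of_notMem hω _
        rw [this]
        ring
    rw [e2, hih]
    refine integral_congr_ae (Eventually.of_forall fun ω => ?_)
    simp only
    have : b + 1 - a = (b - a) + 1 := by omega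
    rw [this, pow_succ]
    ring

/-- the conditional probability that the window of `n` is empty -/
noncomputable def q (S : ℕ → Set Ω) (g : ℕ → ℝ) (n : ℕ) (ω : Ω) : ℝ :=
  (1 - y S n ω) ^ (last (g n) n - n)

/-- the window of `n` is empty -/
noncomputable def gw (S : ℕ → Set Ω) (g : ℕ → ℝ) (n : ℕ) (ω : Ω) : ℝ := gI S n (last (g n) n) ω

lemma q_nonneg (h1 : S 1 = ∅) (g : ℕ → ℝ) (n : ℕ) (ω : Ω) : 0 ≤ q S g n ω :=
  pow_nonneg (by linarith [y_le_one S h1 n ω]) _

lemma q_le_one (h1 : S 1 = ∅) (g : ℕ → ℝ) (n : ℕ) (ω : Ω) : q S g n ω ≤ 1 :=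
  pow_le_one₀ (by linarith [y_le_one S h1 n ω]) (by linarith [y_pos S h1 n ω])

lemma sm_q (h : Sieve μ ℱ S) (g : ℕ → ℝ) (n : ℕ) : StronglyMeasurable[ℱ n] (q S g n) :=
  (stronglyMeasurable_const.sub (sm_y h n)).pow _

/-- truncation and deviation -/
noncomputable def D (S : ℕ → Set Ω) (g : ℕ → ℝ) (T : ℕ → Set Ω) (n : ℕ) (ω : Ω) : ℝ :=
  ind S n ω * ind T n ω * (gw S g n ω - q S g n ω)

lemma sm_T {T : ℕ → Set Ω} (hT : ∀ n, MeasurableSet[ℱ n] (T n)) (n : ℕ) :
    StronglyMeasurable[ℱ n] (ind T n) :=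
  StronglyMeasurable.indicator stronglyMeasurable_const (hT n)

lemma sm_D (h : Sieve μ ℱ S) (g : ℕ → ℝ) {T : ℕ → Set Ω} (hT : ∀ n, MeasurableSet[ℱ n] (T n))
    (n : ℕ) : StronglyMeasurable[ℱ (last (g n) n)] (D S g T n) := by
  have hm : ℱ n ≤ ℱ (last (g n) n) := ℱ.mono (le_last _ _)
  exact (((sm_ind h n).mono hm).mul ((sm_T hT n).mono hm)).mul
    ((sm_gI h n _).sub ((sm_q h g n).mono hm))

lemma D_bdd (h1 : S 1 = ∅) (g : ℕ → ℝ) (T : ℕ → Set Ω) (n : ℕ) (ω : Ω) : |D S g T n ω| ≤ 1 := by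
  unfold D
  have a1 : |gw S g n ω - q S g n ω| ≤ 1 := by
    rw [abs_le]
    have b1 := gI_nonneg (S := S) n (last (g n) n) ω
    have b2 := gI_le_one (S := S) n (last (g n) n) ω
    have b3 := q_nonneg h1 g n ω
    have b4 := q_le_one h1 g n ω
    unfold gw
    constructor <;> linarith
  have a2 : |ind S n ω * ind T n ω| ≤ 1 := by
    rw [abs_of_nonneg (mul_nonneg (ind_nonneg S n ω) (ind_nonneg T n ω))]
    exact mul_le_one₀ (ind_le_one S n ω) (ind_nonneg T n ω) (ind_le_one T n ω)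
  rw [abs_mul]
  have := mul_le_mul a2 a1 (abs_nonneg _) (by norm_num)
  linarith

/-- mean zero -/
lemma mean_zero (h : Sieve μ ℱ S) (g : ℕ → ℝ) {n : ℕ} (hn : 2 ≤ n) {f : Ω → ℝ}
    (hf : StronglyMeasurable[ℱ n] f) (hc : ∀ ω, |f ω| ≤ 1) :
    ∫ ω, f ω * (gw S g n ω - q S g n ω) ∂μ = 0 := by
  have h1 := gapint h hn (le_last (g n) n) hf hc
  have i1 : Integrable (fun ω => f ω * gw S g n ω) μ := by
    refine int_of_bdd (ℱ.le (last (g n) n)) ((hf.mono (ℱ.mono (le_last _ _))).mul (sm_gI h n _))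
      (c := 1) fun ω => ?_
    rw [abs_mul, abs_of_nonneg (show 0 ≤ gw S g n ω from gI_nonneg _ _ ω)]
    exact mul_le_one₀ (hc ω) (gI_nonneg _ _ ω) (gI_le_one (S := S) n (last (g n) n) ω)
  have i2 : Integrable (fun ω => f ω * q S g n ω) μ := by
    refine int_of_bdd (ℱ.le n) (hf.mul (sm_q h g n)) (c := 1) fun ω => ?_
    rw [abs_mul, abs_of_nonneg (q_nonneg h.one g n ω)]
    have := mul_le_mul (hc ω) (q_le_one h.one g n ω) (q_nonneg h.one g n ω) (by norm_num)
    linarith
  have e : ∀ ω, f ω * (gw S g n ω - q S g n ω) = f ω * gw S g n ω - f ω * q S g n ω :=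
    fun ω => by ring
  simp only [e]
  rw [integral_sub i1 i2]
  have : ∫ ω, f ω * gw S g n ω ∂μ = ∫ ω, f ω * q S g n ω ∂μ := h1
  rw [this, sub_self]

/-- orthogonality -/
lemma orth (h : Sieve μ ℱ S) (g : ℕ → ℝ) {T : ℕ → Set Ω} (hT : ∀ n, MeasurableSet[ℱ n] (T n))
    {n m : ℕ} (hn : 2 ≤ n) (hnm : n < m) : ∫ ω, D S g T n ω * D S g T m ω ∂μ = 0 := by
  have indb : ∀ (A : ℕ → Set Ω) k ω, |ind A k ω| ≤ 1 := fun A k ω => by
    rw [abs_of_nonneg (ind_nonneg A k ω)]
    exact ind_le_one A k ω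
  by_cases hm : m ≤ last (g n) n
  · -- the window of `n` contains `m`
    have e : ∀ ω, D S g T n ω * D S g T m ω =
        (-(ind S n ω * ind T n ω * q S g n ω * (ind S m ω * ind T m ω))) *
          (gw S g m ω - q S g m ω) := by
      intro ω
      unfold D
      by_cases hω : ω ∈ S m
      · have : gw S g n ω = 0 := by
          unfold gw gI
          refine Set.indicator_of_notMem (fun h' => ?_) _
          exact h' m hnm hm hω
        rw [this]
        ring
      · have : ind S m ω = 0 := Set.indicator_of_notMem hω _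
        rw [this]
        ring
    simp only [e]
    have hm' : ℱ n ≤ ℱ m := ℱ.mono hnm.le
    refine mean_zero h g (by omega) ?_ ?_
    · exact (((((sm_ind h n).mono hm').mul ((sm_T hT n).mono hm')).mul
        ((sm_q h g n).mono hm')).mul ((sm_ind h m).mul (sm_T hT m))).neg
    · intro ω
      rw [abs_neg, abs_mul, abs_mul, abs_mul, abs_mul]
      have b1 := indb S n ω
      have b2 := indb T n ω
      have b3 : |q S g n ω| ≤ 1 := by
        rw [abs_of_nonneg (q_nonneg h.one g n ω)]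
        exact q_le_one h.one g n ω
      have b4 := indb S m ω
      have b5 := indb T m ω
      have c1 : |ind S n ω| * |ind T n ω| ≤ 1 := mul_le_one₀ b1 (abs_nonneg _) b2
      have c2 : |ind S n ω| * |ind T n ω| * |q S g n ω| ≤ 1 := mul_le_one₀ c1 (abs_nonneg _) b3
      have c3 : |ind S m ω| * |ind T m ω| ≤ 1 := mul_le_one₀ b4 (abs_nonneg _) b5
      exact mul_le_one₀ c2 (by positivity) c3
  · push Not at hm
    have e : ∀ ω, D S g T n ω * D S g T m ω =
        (D S g T n ω * (ind S m ω * ind T m ω)) * (gw S g m ω - q S g m ω) := by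
      intro ω
      conv_lhs => rw [show D S g T m ω = ind S m ω * ind T m ω * (gw S g m ω - q S g m ω) from rfl]
      ring
    simp only [e]
    refine mean_zero h g (by omega) ?_ ?_
    · exact ((sm_D h g hT n).mono (ℱ.mono hm.le)).mul ((sm_ind h m).mul (sm_T hT m))
    · intro ω
      rw [abs_mul, abs_mul]
      have c3 : |ind S m ω| * |ind T m ω| ≤ 1 :=
        mul_le_one₀ (indb S m ω) (abs_nonneg _) (indb T m ω)
      exact mul_le_one₀ (D_bdd h.one g T n ω) (by positivity) c3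

/-- second moment of one deviation -/
lemma D_sq (h : Sieve μ ℱ S) (g : ℕ → ℝ) {T : ℕ → Set Ω} (hT : ∀ n, MeasurableSet[ℱ n] (T n))
    {n : ℕ} (hn : 2 ≤ n) :
    ∫ ω, D S g T n ω * D S g T n ω ∂μ ≤ ∫ ω, ind S n ω * ind T n ω * q S g n ω ∂μ := by
  have indb : ∀ (A : ℕ → Set Ω) k ω, |ind A k ω| ≤ 1 := fun A k ω => by
    rw [abs_of_nonneg (ind_nonneg A k ω)]
    exact ind_le_one A k ω
  set f : Ω → ℝ := fun ω => ind S n ω * ind T n ω * (1 - 2 * q S g n ω) with hf
  have sf : StronglyMeasurable[ℱ n] f :=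
    ((sm_ind h n).mul (sm_T hT n)).mul
      (stronglyMeasurable_const.sub (stronglyMeasurable_const.mul (sm_q h g n)))
  have bf : ∀ ω, |f ω| ≤ 1 := by
    intro ω
    rw [hf]
    simp only [abs_mul]
    have b1 := indb S n ω
    have b2 := indb T n ω
    have b3 : |1 - 2 * q S g n ω| ≤ 1 := by
      rw [abs_le]
      have := q_nonneg h.one g n ω
      have := q_le_one h.one g n ω
      constructor <;> linarith
    exact mul_le_one₀ (mul_le_one₀ b1 (abs_nonneg _) b2) (abs_nonneg _) b3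
  have hz := mean_zero h g hn sf bf
  set r : Ω → ℝ := fun ω => ind S n ω * ind T n ω * q S g n ω with hr
  have sr : StronglyMeasurable[ℱ n] r := ((sm_ind h n).mul (sm_T hT n)).mul (sm_q h g n)
  have br : ∀ ω, |r ω| ≤ 1 := by
    intro ω
    rw [hr]
    simp only [abs_mul]
    have b3 : |q S g n ω| ≤ 1 := by
      rw [abs_of_nonneg (q_nonneg h.one g n ω)]
      exact q_le_one h.one g n ω
    exact mul_le_one₀ (mul_le_one₀ (indb S n ω) (abs_nonneg _) (indb T n ω)) (abs_nonneg _) b3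
  have ir : Integrable r μ := int_of_bdd (ℱ.le n) sr br
  have irq : Integrable (fun ω => r ω * q S g n ω) μ := by
    refine int_of_bdd (ℱ.le n) (sr.mul (sm_q h g n)) (c := 1) fun ω => ?_
    rw [abs_mul, abs_of_nonneg (q_nonneg h.one g n ω)]
    exact mul_le_one₀ (br ω) (q_nonneg h.one g n ω) (q_le_one h.one g n ω)
  have ifz : Integrable (fun ω => f ω * (gw S g n ω - q S g n ω)) μ := by
    refine int_of_bdd (ℱ.le (last (g n) n)) ((sf.mono (ℱ.mono (le_last _ _))).mul
      ((sm_gI h n _).sub ((sm_q h g n).mono (ℱ.mono (le_last _ _))))) (c := 1) fun ω => ?_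
    rw [abs_mul]
    have a1 : |gw S g n ω - q S g n ω| ≤ 1 := by
      rw [abs_le]
      have b1 := gI_nonneg (S := S) n (last (g n) n) ω
      have b2 := gI_le_one (S := S) n (last (g n) n) ω
      have b3 := q_nonneg h.one g n ω
      have b4 := q_le_one h.one g n ω
      unfold gw
      constructor <;> linarith
    exact mul_le_one₀ (bf ω) (abs_nonneg _) a1
  have e : ∀ ω, D S g T n ω * D S g T n ω =
      f ω * (gw S g n ω - q S g n ω) + (r ω - r ω * q S g n ω) := by
    intro ω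
    unfold D
    rw [hf, hr]
    simp only
    have s1 := ind_sq S n ω
    have s2 := ind_sq T n ω
    have s3 : gw S g n ω * gw S g n ω = gw S g n ω := gI_sq n (last (g n) n) ω
    calc ind S n ω * ind T n ω * (gw S g n ω - q S g n ω) *
          (ind S n ω * ind T n ω * (gw S g n ω - q S g n ω))
        = (ind S n ω * ind S n ω) * (ind T n ω * ind T n ω) *
            (gw S g n ω * gw S g n ω - 2 * gw S g n ω * q S g n ω + q S g n ω * q S g n ω) := by ring
      _ = ind S n ω * ind T n ω *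
            (gw S g n ω - 2 * gw S g n ω * q S g n ω + q S g n ω * q S g n ω) := by
          rw [s1, s2, s3]
      _ = _ := by ring
  simp only [e]
  have j : Integrable (fun ω => r ω - r ω * q S g n ω) μ := ir.sub irq
  rw [integral_add ifz j, hz, integral_sub ir irq, zero_add]
  have : 0 ≤ ∫ ω, r ω * q S g n ω ∂μ := by
    refine integral_nonneg fun ω => ?_
    rw [hr]
    have := ind_nonneg S n ω
    have := ind_nonneg T n ω
    have := q_nonneg h.one g n ω
    positivity
  linarith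

/-- second moment of the sum -/
lemma V_sq (h : Sieve μ ℱ S) (g : ℕ → ℝ) {T : ℕ → Set Ω} (hT : ∀ n, MeasurableSet[ℱ n] (T n))
    {k0 : ℕ} (hk0 : 2 ≤ k0) (X : ℕ) :
    ∫ ω, (∑ n ∈ Ioc k0 X, D S g T n ω) ^ 2 ∂μ ≤
      ∑ n ∈ Ioc k0 X, ∫ ω, ind S n ω * ind T n ω * q S g n ω ∂μ := by
  classical
  have ii : ∀ n m, Integrable (fun ω => D S g T n ω * D S g T m ω) μ := by
    intro n m
    refine int_of_bdd (ℱ.le (max (last (g n) n) (last (g m) m)))
      (((sm_D h g hT n).mono (ℱ.mono (le_max_left _ _))).mul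
        ((sm_D h g hT m).mono (ℱ.mono (le_max_right _ _)))) (c := 1) fun ω => ?_
    rw [abs_mul]
    exact mul_le_one₀ (D_bdd h.one g T n ω) (abs_nonneg _) (D_bdd h.one g T m ω)
  have e : ∀ ω, (∑ n ∈ Ioc k0 X, D S g T n ω) ^ 2 =
      ∑ n ∈ Ioc k0 X, ∑ m ∈ Ioc k0 X, D S g T n ω * D S g T m ω := by
    intro ω
    rw [sq, sum_mul_sum]
  simp only [e]
  rw [integral_finsetSum _ fun n _ => integrable_finsetSum _ fun m _ => ii n m]
  refine sum_le_sum fun n hn => ?_
  rw [mem_Ioc] at hn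
  rw [integral_finsetSum _ fun m _ => ii n m]
  rw [sum_eq_single n]
  · exact D_sq h g hT (by omega)
  · intro m hm hmn
    rw [mem_Ioc] at hm
    rcases lt_or_gt_of_ne hmn with hlt | hgt
    · have := orth h g hT (n := m) (m := n) (by omega) hlt
      rw [← this]
      refine integral_congr_ae (Eventually.of_forall fun ω => ?_)
      simp only
      ring
    · exact orth h g hT (by omega) hgt
  · intro hn'
    exact absurd (mem_Ioc.2 hn) hn'

end Pool.Agent.H35J.Hawkins
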