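import Mathlib
import Pool.Agent.H35J.Haw2

set_option autoImplicit false

/-!
# The random sieve of Hawkins: the paths
-/

open MeasureTheory Filter Finset
open scoped Topology

namespace Pool.Agent.H35J.Hawkins

open Pool.Agent.H35J (gap gap_self gap_succ meas_gap last le_last last_le le_last' log_tendsto
  loglog_tendsto log_ratio_le log_ratio_ge)

/-- `log log` -/
noncomputable def ll (X : ℕ) : ℝ := Real.log (Real.log X)

/-- the length of the window -/
noncomputable def len (τ : ℝ) (n : ℕ) : ℝ := Real.log n ^ 2 + τ * Real.log n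

lemma ll_tendsto : Tendsto ll atTop atTop := loglog_tendsto

section path

variable {Ω : Type} {S : ℕ → Set Ω} {ω : Ω} {L τ : ℝ}

lemma W_div_log (hW : Tendsto (fun n : ℕ => W S n ω - Real.log n) atTop (𝓝 L)) :
    Tendsto (fun n : ℕ => W S n ω / Real.log n) atTop (𝓝 1) := by
  have h1 : Tendsto (fun n : ℕ => (W S n ω - Real.log n) / Real.log n + 1) atTop (𝓝 (0 + 1)) :=
    (hW.div_atTop log_tendsto).add tendsto_const_nhds
  rw [zero_add] at h1
  refine h1.congr' ?_
  filter_upwards [log_tendsto.eventually_gt_atTop 0] with n hn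
  field_simp
  ring

lemma W_atTop (hW : Tendsto (fun n : ℕ => W S n ω - Real.log n) atTop (𝓝 L)) :
    Tendsto (fun n : ℕ => W S n ω) atTop atTop := by
  have := hW.add_atTop log_tendsto
  refine this.congr fun n => by ring

lemma logW (hW : Tendsto (fun n : ℕ => W S n ω - Real.log n) atTop (𝓝 L)) :
    Tendsto (fun n : ℕ => Real.log (W S n ω) / ll n) atTop (𝓝 1) := by
  have h1 := (Real.continuousAt_log (one_ne_zero)).tendsto.comp (W_div_log hW)
  rw [Real.log_one] at h1
  have h2 : Tendsto (fun n : ℕ => Real.log (W S n ω / Real.log n) / ll n + 1) atTop (𝓝 (0 + 1)) :=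
    (h1.div_atTop ll_tendsto).add tendsto_const_nhds
  rw [zero_add] at h2
  refine h2.congr' ?_
  filter_upwards [log_tendsto.eventually_gt_atTop 0, ll_tendsto.eventually_gt_atTop 0,
    (W_atTop hW).eventually_gt_atTop 0] with n hn hn2 hn3
  have h3 : Real.log (W S n ω / Real.log n) = Real.log (W S n ω) - ll n :=
    Real.log_div hn3.ne' hn.ne'
  simp only [h3]
  field_simp
  ring

/-- sum of the reciprocals of the chosen integers -/
noncomputable def R (S : ℕ → Set Ω) (X : ℕ) (ω : Ω) : ℝ := ∑ i ∈ range (X + 1), ind S i ω / i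

lemma R_bounds (h1 : S 1 = ∅) (X : ℕ) (hX : 1 ≤ X) :
    R S X ω ≤ Real.log (W S X ω) ∧ Real.log (W S X ω) ≤ R S X ω + (1 - 1 / (X : ℝ)) := by
  induction X, hX using Nat.le_induction with
  | base =>
    have e1 : ind S 1 ω = 0 := by simp [ind, h1]
    have e2 : W S 1 ω = 1 := by
      have := y_succ S 0 ω
      rw [y_zero] at this
      norm_num at this
      rw [e1] at this
      unfold W
      rw [this]
      norm_num
    have e3 : R S 1 ω = 0 := by
      unfold R
      rw [sum_range_succ, sum_range_succ, e1]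
      simp
    rw [e2, e3]
    norm_num
  | succ n hn ih =>
    have h0 : (0 : ℝ) < n := by exact_mod_cast hn
    have e1 : R S (n + 1) ω = R S n ω + ind S (n + 1) ω / ((n : ℝ) + 1) := by
      unfold R
      rw [sum_range_succ]
      push_cast
      rfl
    have hWp := W_pos S h1 n ω
    have e2 : W S (n + 1) ω = W S n ω * (1 + ind S (n + 1) ω / n) := by
      rw [W_succ S h1 n hn]
      field_simp
    have hip := ind_nonneg S (n + 1) ω
    have hq : 0 < 1 + ind S (n + 1) ω / n := by positivity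
    have e3 : Real.log (W S (n + 1) ω) = Real.log (W S n ω) + Real.log (1 + ind S (n + 1) ω / n) := by
      rw [e2, Real.log_mul hWp.ne' hq.ne']
    have e4 : ind S (n + 1) ω / ((n : ℝ) + 1) ≤ Real.log (1 + ind S (n + 1) ω / n) ∧
        Real.log (1 + ind S (n + 1) ω / n) ≤
          ind S (n + 1) ω / ((n : ℝ) + 1) + (1 / (n : ℝ) - 1 / ((n : ℝ) + 1)) := by
      by_cases hω : ω ∈ S (n + 1)
      · have : ind S (n + 1) ω = 1 := by simp [ind, hω]
        rw [this]
        constructor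
        · have h2 := Real.one_sub_inv_le_log_of_pos (show 0 < 1 + 1 / (n : ℝ) by positivity)
          have h3 : 1 - (1 + 1 / (n : ℝ))⁻¹ = 1 / ((n : ℝ) + 1) := by
            field_simp
            ring
          linarith
        · have h2 := Real.log_le_sub_one_of_pos (show 0 < 1 + 1 / (n : ℝ) by positivity)
          linarith
      · have : ind S (n + 1) ω = 0 := by simp [ind, hω]
        rw [this]
        simp only [zero_div, add_zero, Real.log_one, le_refl, true_and, zero_add]
        have : 1 / ((n : ℝ) + 1) ≤ 1 / (n : ℝ) := one_div_le_one_div_of_le h0 (by linarith)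
        linarith
    rw [e1, e3]
    push_cast
    constructor
    · linarith [ih.1, e4.1]
    · linarith [ih.2, e4.2]

lemma R_ll (h1 : S 1 = ∅) (hW : Tendsto (fun n : ℕ => W S n ω - Real.log n) atTop (𝓝 L)) :
    Tendsto (fun X : ℕ => R S X ω / ll X) atTop (𝓝 1) := by
  have hl := logW hW
  have h2 : Tendsto (fun X : ℕ => Real.log (W S X ω) / ll X - 1 / ll X) atTop (𝓝 (1 - 0)) :=
    hl.sub (tendsto_const_nhds.div_atTop ll_tendsto)
  rw [sub_zero] at h2
  refine tendsto_of_tendsto_of_tendsto_of_le_of_le' h2 hl ?_ ?_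
  · filter_upwards [eventually_ge_atTop 1, ll_tendsto.eventually_gt_atTop 0] with X hX hl0
    rw [← sub_div]
    refine div_le_div_of_nonneg_right ?_ hl0.le
    have h3 := (R_bounds (ω := ω) h1 X hX).2
    have : 0 ≤ 1 / (X : ℝ) := by positivity
    linarith
  · filter_upwards [eventually_ge_atTop 1, ll_tendsto.eventually_gt_atTop 0] with X hX hl0
    exact div_le_div_of_nonneg_right (R_bounds (ω := ω) h1 X hX).1 hl0.le

/-- the number of integers of the window -/
noncomputable def cw (τ : ℝ) (n : ℕ) : ℕ := last (len τ n) n - n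

lemma len_nonneg (τ : ℝ) : ∀ᶠ n : ℕ in atTop, 1 ≤ len τ n := by
  filter_upwards [log_tendsto.eventually_ge_atTop (1 + |τ|)] with n hn
  unfold len
  have h1 := neg_abs_le τ
  have h2 := abs_nonneg τ
  nlinarith

lemma cw_bounds {τ : ℝ} {n : ℕ} (h : 0 ≤ len τ n) :
    len τ n - 1 ≤ (cw τ n : ℝ) ∧ (cw τ n : ℝ) ≤ len τ n := by
  unfold cw
  have h1 := last_le h n
  have h2 := le_last' (len τ n) n
  rw [Nat.cast_sub (le_last _ _)]
  constructor <;> linarith

/-- the asymptotics of the conditional probability -/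
lemma nq (h1 : S 1 = ∅) (hW : Tendsto (fun n : ℕ => W S n ω - Real.log n) atTop (𝓝 L)) :
    Tendsto (fun n : ℕ => (n : ℝ) * q S (len τ) n ω) atTop (𝓝 (Real.exp (L - 1 / 2 - τ))) := by
  have hWx := W_div_log hW
  have hWt := W_atTop hW
  have hxW : Tendsto (fun n : ℕ => Real.log n / W S n ω) atTop (𝓝 1) := by
    have := hWx.inv₀ (one_ne_zero)
    rw [inv_one] at this
    refine this.congr fun n => by rw [inv_div]
  have hy0 : Tendsto (fun n : ℕ => y S n ω) atTop (𝓝 0) := by
    have := tendsto_inv_atTop_zero.comp hWt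
    refine this.congr fun n => ?_
    simp only [Function.comp, W, inv_inv]
  -- `c / x ^ 2 → 1`
  set x : ℕ → ℝ := fun n => Real.log n with hx
  set c : ℕ → ℝ := fun n => (cw τ n : ℝ) with hc
  set δ : ℕ → ℝ := fun n => c n - len τ n with hδ
  have hδb : ∀ᶠ n : ℕ in atTop, |δ n| ≤ 1 := by
    filter_upwards [len_nonneg τ] with n hn
    have := cw_bounds (by linarith : 0 ≤ len τ n)
    rw [abs_le]
    constructor <;> simp only [hδ, hc] <;> linarith [this.1, this.2]
  have hδW : Tendsto (fun n => δ n / W S n ω) atTop (𝓝 0) := by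
    have h2 : Tendsto (fun n => 1 / W S n ω) atTop (𝓝 0) := tendsto_const_nhds.div_atTop hWt
    refine squeeze_zero_norm' ?_ h2
    filter_upwards [hδb, hWt.eventually_gt_atTop 0] with n hn hn2
    rw [Real.norm_eq_abs, abs_div, abs_of_pos hn2]
    exact div_le_div_of_nonneg_right hn hn2.le
  have hδx : Tendsto (fun n => δ n / x n ^ 2) atTop (𝓝 0) := by
    have h3 : Tendsto (fun n => x n ^ 2) atTop atTop := (tendsto_pow_atTop (by norm_num)).comp log_tendsto
    have h2 : Tendsto (fun n => 1 / x n ^ 2) atTop (𝓝 0) := tendsto_const_nhds.div_atTop h3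
    refine squeeze_zero_norm' ?_ h2
    filter_upwards [hδb, h3.eventually_gt_atTop 0] with n hn hn2
    rw [Real.norm_eq_abs, abs_div, abs_of_pos hn2]
    exact div_le_div_of_nonneg_right hn hn2.le
  have hcx : Tendsto (fun n => c n / x n ^ 2) atTop (𝓝 1) := by
    have h2 : Tendsto (fun n => 1 + τ / x n + δ n / x n ^ 2) atTop (𝓝 (1 + 0 + 0)) :=
      (tendsto_const_nhds.add (tendsto_const_nhds.div_atTop log_tendsto)).add hδx
    rw [add_zero, add_zero] at h2
    refine h2.congr' ?_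
    filter_upwards [log_tendsto.eventually_gt_atTop 0] with n hn
    have : c n = x n ^ 2 + τ * x n + δ n := by
      simp only [hδ, len, hx]
      ring
    rw [this]
    have hx0 : 0 < x n := hn
    field_simp
  -- `c y ^ 2 → 1`
  have hcy2 : Tendsto (fun n => c n * y S n ω ^ 2) atTop (𝓝 1) := by
    have h2 : Tendsto (fun n => c n / x n ^ 2 * (x n / W S n ω) ^ 2) atTop (𝓝 (1 * 1 ^ 2)) :=
      hcx.mul (hxW.pow 2)
    norm_num at h2
    refine h2.congr' ?_
    filter_upwards [log_tendsto.eventually_gt_atTop 0] with n hn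
    have hx0 : 0 < x n := hn
    have : W S n ω = (y S n ω)⁻¹ := rfl
    rw [this]
    have hy := (y_pos S h1 n ω).ne'
    field_simp
  -- `x - c y → L - τ`
  have hlin : Tendsto (fun n => x n - c n * y S n ω) atTop (𝓝 (L - τ)) := by
    have h2 : Tendsto (fun n => x n / W S n ω * ((W S n ω - x n) - τ) - δ n / W S n ω) atTop
        (𝓝 (1 * (L - τ) - 0)) := (hxW.mul (hW.sub tendsto_const_nhds)).sub hδW
    rw [one_mul, sub_zero] at h2
    refine h2.congr' ?_
    filter_upwards [hWt.eventually_gt_atTop 0] with n hn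
    have h3 : c n = x n ^ 2 + τ * x n + δ n := by
      simp only [hδ, len, hx]
      ring
    have h4 : y S n ω = (W S n ω)⁻¹ := by
      unfold W
      rw [inv_inv]
    rw [h3, h4]
    field_simp
    ring
  -- the remainder
  have hrem : Tendsto (fun n => c n * (Real.log (1 - y S n ω) + y S n ω + y S n ω ^ 2 / 2)) atTop
      (𝓝 0) := by
    have h2 : Tendsto (fun n => 2 * (c n * y S n ω ^ 2 * y S n ω)) atTop (𝓝 (2 * (1 * 0))) :=
      (hcy2.mul hy0).const_mul 2
    rw [mul_zero, mul_zero] at h2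
    refine squeeze_zero_norm' ?_ h2
    filter_upwards [hy0.eventually_le_const (show (0 : ℝ) < 1 / 2 by norm_num)] with n hn
    have hyp := y_pos S h1 n ω
    have h3 := Real.abs_log_sub_add_sum_range_le (x := y S n ω) (by
      rw [abs_of_pos hyp]
      linarith) 2
    rw [sum_range_succ, sum_range_succ, sum_range_zero, abs_of_pos hyp] at h3
    norm_num at h3
    have h4 : y S n ω ^ 3 / (1 - y S n ω) ≤ 2 * y S n ω ^ 3 := by
      rw [div_le_iff₀ (by linarith)]
      nlinarith [pow_pos hyp 3]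
    rw [Real.norm_eq_abs, abs_mul]
    have hc0 : 0 ≤ c n := Nat.cast_nonneg _
    rw [abs_of_nonneg hc0]
    have h5 : |Real.log (1 - y S n ω) + y S n ω + y S n ω ^ 2 / 2| ≤ 2 * y S n ω ^ 3 := by
      have : Real.log (1 - y S n ω) + y S n ω + y S n ω ^ 2 / 2 =
        y S n ω + y S n ω ^ 2 / 2 + Real.log (1 - y S n ω) := by ring
      rw [this]
      exact h3.trans h4
    calc c n * |Real.log (1 - y S n ω) + y S n ω + y S n ω ^ 2 / 2|
        ≤ c n * (2 * y S n ω ^ 3) := mul_le_mul_of_nonneg_left h5 hc0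
      _ = _ := by ring
  have hE : Tendsto (fun n => x n + c n * Real.log (1 - y S n ω)) atTop (𝓝 (L - 1 / 2 - τ)) := by
    have h2 := (hlin.sub (hcy2.div_const 2)).add hrem
    have h3 : L - τ - 1 / 2 + 0 = L - 1 / 2 - τ := by ring
    rw [h3] at h2
    refine h2.congr fun n => ?_
    ring
  have h2 := (Real.continuous_exp.tendsto _).comp hE
  refine h2.congr' ?_
  filter_upwards [hy0.eventually_le_const (show (0 : ℝ) < 1 / 2 by norm_num),
    eventually_ge_atTop 1] with n hn hn1
  have h0 : (0 : ℝ) < n := by exact_mod_cast hn1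
  simp only [Function.comp]
  rw [Real.exp_add, hx, Real.exp_log h0]
  congr 1
  have h3 : Real.exp (c n * Real.log (1 - y S n ω)) = (1 - y S n ω) ^ (cw τ n) := by
    rw [hc]
    simp only
    rw [Real.exp_nat_mul, Real.exp_log (by linarith)]
  rw [h3]
  rfl

/-- the compensator -/
lemma comp_ll (h1 : S 1 = ∅) (hW : Tendsto (fun n : ℕ => W S n ω - Real.log n) atTop (𝓝 L)) :
    Tendsto (fun X : ℕ => (∑ n ∈ range (X + 1), ind S n ω * q S (len τ) n ω) / ll X) atTop
      (𝓝 (Real.exp (L - 1 / 2 - τ))) := by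
  set b : ℝ := Real.exp (L - 1 / 2 - τ) with hb
  have hR := R_ll h1 hW
  have hRtop : Tendsto (fun X : ℕ => R S X ω) atTop atTop := by
    have h2 := hR.pos_mul_atTop (by norm_num) ll_tendsto
    refine h2.congr' ?_
    filter_upwards [ll_tendsto.eventually_gt_atTop 0] with X hX
    field_simp
  set f : ℕ → ℝ := fun n => ind S n ω * q S (len τ) n ω - b * (ind S n ω / n) with hf
  set g : ℕ → ℝ := fun n => ind S n ω / n with hg
  have hfg : f =o[atTop] g := by
    have h2 : Tendsto (fun n : ℕ => (n : ℝ) * q S (len τ) n ω - b) atTop (𝓝 0) := by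
      have := (nq (τ := τ) h1 hW).sub_const b
      rwa [← hb, sub_self] at this
    rw [Asymptotics.isLittleO_iff]
    intro ε hε
    have h3 := (tendsto_zero_iff_norm_tendsto_zero.1 h2).eventually_le_const hε
    filter_upwards [h3, eventually_ge_atTop 1] with n hn hn1
    have h0 : (0 : ℝ) < n := by exact_mod_cast hn1
    have : f n = g n * ((n : ℝ) * q S (len τ) n ω - b) := by
      simp only [hf, hg]
      field_simp
    rw [this, norm_mul, mul_comm]
    exact mul_le_mul_of_nonneg_right hn (norm_nonneg _)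
  have hg0 : 0 ≤ g := fun n => by
    have := ind_nonneg S n ω
    show 0 ≤ ind S n ω / n
    positivity
  have hgt : Tendsto (fun n => ∑ i ∈ range n, g i) atTop atTop := by
    rw [← tendsto_add_atTop_iff_nat 1]
    exact hRtop
  have hsum := hfg.sum_range hg0 hgt
  have hsum' : Tendsto (fun X : ℕ => (∑ i ∈ range (X + 1), f i) / R S X ω) atTop (𝓝 0) :=
    (hsum.tendsto_div_nhds_zero).comp (tendsto_add_atTop_nat 1)
  have h4 : Tendsto (fun X : ℕ => (∑ i ∈ range (X + 1), f i) / R S X ω * (R S X ω / ll X) +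
      b * (R S X ω / ll X)) atTop (𝓝 (0 * 1 + b * 1)) := (hsum'.mul hR).add (hR.const_mul b)
  norm_num at h4
  refine h4.congr' ?_
  filter_upwards [hRtop.eventually_gt_atTop 0] with X hX
  have h5 : ∑ i ∈ range (X + 1), f i =
      ∑ n ∈ range (X + 1), ind S n ω * q S (len τ) n ω - b * R S X ω := by
    simp only [hf, sum_sub_distrib, R, mul_sum]
  rw [h5]
  field_simp
  ring

end path

/-! ### the subsequence -/

/-- the subsequence `exp (exp (j ^ 2))` -/
noncomputable def XX (j : ℕ) : ℕ := ⌈Real.exp (Real.exp ((j : ℝ) ^ 2))⌉₊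

lemma ll_XX (j : ℕ) : (j : ℝ) ^ 2 ≤ ll (XX j) ∧ ll (XX j) ≤ (j : ℝ) ^ 2 + 1 := by
  have h1 : Real.exp (Real.exp ((j : ℝ) ^ 2)) ≤ (XX j : ℝ) := Nat.le_ceil _
  have h2 : (XX j : ℝ) < Real.exp (Real.exp ((j : ℝ) ^ 2)) + 1 := Nat.ceil_lt_add_one (by positivity)
  have h0 : 0 < Real.exp (Real.exp ((j : ℝ) ^ 2)) := Real.exp_pos _
  have hj : (0 : ℝ) ≤ (j : ℝ) ^ 2 := by positivity
  have h3 : 1 ≤ Real.exp ((j : ℝ) ^ 2) := Real.one_le_exp hj
  unfold ll
  constructor
  · have h4 := Real.log_le_log h0 h1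
    rw [Real.log_exp] at h4
    have h5 := Real.log_le_log (Real.exp_pos _) h4
    rwa [Real.log_exp] at h5
  · have h4 : (XX j : ℝ) ≤ Real.exp (Real.exp ((j : ℝ) ^ 2 + 1)) := by
      refine h2.le.trans ?_
      have h5 : Real.exp (Real.exp ((j : ℝ) ^ 2)) + 1 ≤ Real.exp (Real.exp ((j : ℝ) ^ 2) + 1) := by
        rw [Real.exp_add]
        have h6 := Real.add_one_le_exp (1 : ℝ)
        have h7 : 1 ≤ Real.exp (Real.exp ((j : ℝ) ^ 2)) := Real.one_le_exp (Real.exp_pos _).le
        nlinarith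
      refine h5.trans (Real.exp_le_exp.2 ?_)
      rw [Real.exp_add]
      have h6 := Real.add_one_le_exp (1 : ℝ)
      nlinarith
    have hpos : (0 : ℝ) < XX j := lt_of_lt_of_le h0 h1
    have h5 := Real.log_le_log hpos h4
    rw [Real.log_exp] at h5
    have h6 : 0 < Real.log (XX j) := by
      have := Real.log_le_log h0 h1
      rw [Real.log_exp] at this
      linarith
    have h7 := Real.log_le_log h6 h5
    rwa [Real.log_exp] at h7

lemma XX_ll : Tendsto (fun j : ℕ => ll (XX j) / (j : ℝ) ^ 2) atTop (𝓝 1) := by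
  have hj2 : Tendsto (fun j : ℕ => (j : ℝ) ^ 2) atTop atTop :=
    (tendsto_pow_atTop (by norm_num)).comp tendsto_natCast_atTop_atTop
  have h1 : Tendsto (fun j : ℕ => 1 + 1 / (j : ℝ) ^ 2) atTop (𝓝 (1 + 0)) :=
    tendsto_const_nhds.add (tendsto_const_nhds.div_atTop hj2)
  rw [add_zero] at h1
  refine tendsto_of_tendsto_of_tendsto_of_le_of_le' tendsto_const_nhds h1 ?_ ?_
  · filter_upwards [hj2.eventually_gt_atTop 0] with j hj
    rw [le_div_iff₀ hj, one_mul]
    exact (ll_XX j).1
  · filter_upwards [hj2.eventually_gt_atTop 0] with j hj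
    rw [div_le_iff₀ hj]
    have := (ll_XX j).2
    have h2 : (1 + 1 / (j : ℝ) ^ 2) * (j : ℝ) ^ 2 = (j : ℝ) ^ 2 + 1 := by
      rw [add_mul, one_mul, one_div, inv_mul_cancel₀ hj.ne']
    linarith

lemma XX_tendsto : Tendsto XX atTop atTop := by
  have h1 : Tendsto (fun j : ℕ => Real.exp (Real.exp ((j : ℝ) ^ 2))) atTop atTop :=
    Real.tendsto_exp_atTop.comp (Real.tendsto_exp_atTop.comp
      ((tendsto_pow_atTop (by norm_num)).comp tendsto_natCast_atTop_atTop))
  exact tendsto_nat_ceil_atTop.comp h1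

lemma sandwich {A : ℕ → ℝ} (hA : Monotone A) {c : ℝ}
    (h : Tendsto (fun j : ℕ => A (XX j) / (j : ℝ) ^ 2) atTop (𝓝 c)) :
    Tendsto (fun X : ℕ => A X / ll X) atTop (𝓝 c) := by
  have hs : Tendsto (fun X : ℕ => Real.sqrt (ll X)) atTop atTop :=
    Real.tendsto_sqrt_atTop.comp ll_tendsto
  have hf1 : Tendsto (fun X : ℕ => (⌊Real.sqrt (ll X)⌋₊ : ℝ) / Real.sqrt (ll X)) atTop (𝓝 1) :=
    tendsto_nat_floor_div_atTop.comp hs
  have hc1 : Tendsto (fun X : ℕ => (⌈Real.sqrt (ll X)⌉₊ : ℝ) / Real.sqrt (ll X)) atTop (𝓝 1) :=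
    tendsto_nat_ceil_div_atTop.comp hs
  have hft : Tendsto (fun X : ℕ => ⌊Real.sqrt (ll X)⌋₊) atTop atTop := tendsto_nat_floor_atTop.comp hs
  have hct : Tendsto (fun X : ℕ => ⌈Real.sqrt (ll X)⌉₊) atTop atTop := tendsto_nat_ceil_atTop.comp hs
  have lo : Tendsto (fun X : ℕ => A (XX ⌊Real.sqrt (ll X)⌋₊) / (⌊Real.sqrt (ll X)⌋₊ : ℝ) ^ 2 *
      ((⌊Real.sqrt (ll X)⌋₊ : ℝ) / Real.sqrt (ll X)) ^ 2) atTop (𝓝 (c * 1 ^ 2)) :=
    (h.comp hft).mul (hf1.pow 2)
  have up : Tendsto (fun X : ℕ => A (XX ⌈Real.sqrt (ll X)⌉₊) / (⌈Real.sqrt (ll X)⌉₊ : ℝ) ^ 2 *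
      ((⌈Real.sqrt (ll X)⌉₊ : ℝ) / Real.sqrt (ll X)) ^ 2) atTop (𝓝 (c * 1 ^ 2)) :=
    (h.comp hct).mul (hc1.pow 2)
  rw [one_pow, mul_one] at lo up
  refine tendsto_of_tendsto_of_tendsto_of_le_of_le' lo up ?_ ?_
  · filter_upwards [ll_tendsto.eventually_gt_atTop 0, hft.eventually_ge_atTop 1,
      eventually_ge_atTop 2, log_tendsto.eventually_gt_atTop 0] with X hX hj hX2 hlX
    set j := ⌊Real.sqrt (ll X)⌋₊ with hjdef
    have hj0 : (0 : ℝ) < j := by exact_mod_cast hj
    have hss : Real.sqrt (ll X) ^ 2 = ll X := Real.sq_sqrt hX.le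
    have hjs : (j : ℝ) ≤ Real.sqrt (ll X) := Nat.floor_le (Real.sqrt_nonneg _)
    have hj2 : (j : ℝ) ^ 2 ≤ ll X := by
      rw [← hss]
      exact pow_le_pow_left₀ hj0.le hjs 2
    have hXX : XX j ≤ X := by
      unfold XX
      rw [Nat.ceil_le]
      have h1 : Real.exp ((j : ℝ) ^ 2) ≤ Real.log X := by
        rw [← Real.le_log_iff_exp_le hlX]
        exact hj2
      rwa [← Real.le_log_iff_exp_le (by exact_mod_cast (by omega : 0 < X))]
    have h2 := hA hXX
    rw [div_pow, hss]
    calc A (XX j) / (j : ℝ) ^ 2 * ((j : ℝ) ^ 2 / ll X) = A (XX j) / ll X := by field_simp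
      _ ≤ A X / ll X := div_le_div_of_nonneg_right h2 hX.le
  · filter_upwards [ll_tendsto.eventually_gt_atTop 0, hct.eventually_ge_atTop 1,
      eventually_ge_atTop 2, log_tendsto.eventually_gt_atTop 0] with X hX hj hX2 hlX
    set j := ⌈Real.sqrt (ll X)⌉₊ with hjdef
    have hj0 : (0 : ℝ) < j := by exact_mod_cast hj
    have hss : Real.sqrt (ll X) ^ 2 = ll X := Real.sq_sqrt hX.le
    have hjs : Real.sqrt (ll X) ≤ j := Nat.le_ceil _
    have hj2 : ll X ≤ (j : ℝ) ^ 2 := by
      rw [← hss]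
      exact pow_le_pow_left₀ (Real.sqrt_nonneg _) hjs 2
    have hXX : X ≤ XX j := by
      have hX0 : (0 : ℝ) < X := by exact_mod_cast (by omega : 0 < X)
      have h1 : Real.log X ≤ Real.exp ((j : ℝ) ^ 2) := by
        rw [← Real.log_le_iff_le_exp hlX]
        exact hj2
      have h2 : (X : ℝ) ≤ Real.exp (Real.exp ((j : ℝ) ^ 2)) := by
        rwa [← Real.log_le_iff_le_exp hX0]
      have h3 : (X : ℝ) ≤ XX j := h2.trans (Nat.le_ceil _)
      exact_mod_cast h3
    have h2 := hA hXX
    rw [div_pow, hss]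
    calc A X / ll X ≤ A (XX j) / ll X := div_le_div_of_nonneg_right h2 hX.le
      _ = A (XX j) / (j : ℝ) ^ 2 * ((j : ℝ) ^ 2 / ll X) := by field_simp

end Pool.Agent.H35J.Hawkins
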