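import Mathlib
import Pool.Agent.H35J.Haw3

set_option autoImplicit false

/-!
# The random sieve of Hawkins: the truncated second moment
-/

open MeasureTheory Filter Finset
open scoped Topology

namespace Pool.Agent.H35J.Hawkins

open Pool.Agent.H35J (gap gap_self gap_succ meas_gap last le_last last_le le_last' log_tendsto
  loglog_tendsto log_ratio_le log_ratio_ge pow_le_exp)

variable {Ω : Type} [mΩ : MeasurableSpace Ω] {μ : Measure Ω} [IsProbabilityMeasure μ]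
  {ℱ : Filtration ℕ mΩ} {S : ℕ → Set Ω}

/-- the product has been close to its asymptotics from `k0` until time `n` -/
def TT (S : ℕ → Set Ω) (a : ℝ) (k0 n : ℕ) : Set Ω :=
  {ω | ∀ k, k0 ≤ k → k ≤ n → |W S k ω - Real.log k| ≤ a}

omit mΩ in
lemma TT_succ (a : ℝ) {k0 n : ℕ} : TT S a k0 (n + 1) ⊆ TT S a k0 n :=
  fun _ hω k h1 h2 => hω k h1 (by omega)

lemma meas_TT (h : Sieve μ ℱ S) (a : ℝ) (k0 n : ℕ) : MeasurableSet[ℱ n] (TT S a k0 n) := by
  have e : TT S a k0 n = ⋂ k ∈ Finset.Icc k0 n, {ω | |W S k ω - Real.log k| ≤ a} := by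
    ext ω
    simp only [TT, Set.mem_ofPred_eq, Set.mem_iInter, mem_Icc]
    constructor
    · intro h1 k hk
      exact h1 k hk.1 hk.2
    · intro h1 k hk1 hk2
      exact h1 k ⟨hk1, hk2⟩
  rw [e]
  refine Finset.measurableSet_biInter _ fun k hk => ?_
  rw [mem_Icc] at hk
  have h1 : StronglyMeasurable[ℱ k] (fun ω => |W S k ω - Real.log k|) :=
    ((sm_W h k).sub stronglyMeasurable_const).norm
  have h2 : MeasurableSet[ℱ k] {ω | |W S k ω - Real.log k| ≤ a} :=
    measurableSet_le h1.measurable measurable_const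
  exact ℱ.mono hk.2 _ h2

omit mΩ in
/-- the conditional probability on the good event -/
lemma q_le (h1 : S 1 = ∅) {a τ : ℝ} (ha : 0 ≤ a) {k0 n : ℕ} (hn : k0 ≤ n) (hn1 : 1 ≤ n)
    (hx1 : 1 ≤ Real.log n) (hlen : 1 ≤ len τ n) {ω : Ω} (hω : ω ∈ TT S a k0 n) :
    q S (len τ) n ω ≤ Real.exp (a + (1 + |a * τ|) - τ) / n := by
  have h0 : (0 : ℝ) < n := by exact_mod_cast hn1
  set x := Real.log (n : ℝ) with hx
  have hW := hω n hn le_rfl
  rw [abs_le] at hW
  have hWp := W_pos S h1 n ω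
  have hy : 1 / (x + a) ≤ y S n ω := by
    have h2 : y S n ω = (W S n ω)⁻¹ := by
      unfold W
      rw [inv_inv]
    rw [h2, ← one_div]
    exact one_div_le_one_div_of_le hWp (by linarith [hW.2])
  have hyp := y_pos S h1 n ω
  have hq : q S (len τ) n ω ≤ Real.exp (-((cw τ n : ℝ) * y S n ω)) :=
    pow_le_exp (y_le_one S h1 n ω) _
  have hc := (cw_bounds (by linarith : 0 ≤ len τ n)).1
  have hcy : (len τ n - 1) * (1 / (x + a)) ≤ (cw τ n : ℝ) * y S n ω :=
    mul_le_mul hc hy (by positivity) (Nat.cast_nonneg _)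
  have hxa : 0 < x + a := by linarith
  have h3 : x - (a + (1 + |a * τ|) - τ) ≤ (len τ n - 1) * (1 / (x + a)) := by
    rw [mul_one_div, le_div_iff₀ hxa]
    unfold len
    rw [← hx]
    have h4 := le_abs_self (a * τ)
    have h5 := abs_nonneg (a * τ)
    nlinarith [mul_nonneg h5 ha, mul_nonneg ha ha, mul_nonneg h5 (by linarith : 0 ≤ x - 1)]
  refine hq.trans ?_
  have h6 : Real.exp (a + (1 + |a * τ|) - τ) / n = Real.exp (-(x - (a + (1 + |a * τ|) - τ))) := by
    have : -(x - (a + (1 + |a * τ|) - τ)) = (a + (1 + |a * τ|) - τ) - x := by ring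
    rw [this, Real.exp_sub (a + (1 + |a * τ|) - τ) x, hx, Real.exp_log h0]
  rw [h6]
  exact Real.exp_le_exp.2 (by linarith)

/-- one term of the second moment -/
lemma term_le (h : Sieve μ ℱ S) {a τ : ℝ} (ha : 0 ≤ a) {k0 n : ℕ} (hk0 : 2 ≤ k0) (hn : k0 < n)
    (hx1 : 2 * a + 2 ≤ Real.log k0) (hlen : 1 ≤ len τ n) :
    ∫ ω, ind S n ω * ind (TT S a k0) n ω * q S (len τ) n ω ∂μ ≤
      2 * Real.exp (a + (1 + |a * τ|) - τ) * (1 / ((n : ℝ) * Real.log n)) := by
  obtain ⟨m, rfl⟩ : ∃ m, n = m + 1 := ⟨n - 1, by omega⟩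
  set C := Real.exp (a + (1 + |a * τ|) - τ) with hC
  have hC0 : 0 < C := Real.exp_pos _
  have hm0 : (0 : ℝ) < m := by exact_mod_cast (by omega : 0 < m)
  have hk00 : (0 : ℝ) < k0 := by exact_mod_cast (by omega : 0 < k0)
  have hn0 : (0 : ℝ) < ((m + 1 : ℕ) : ℝ) := by exact_mod_cast (by omega : 0 < m + 1)
  have hlm : Real.log k0 ≤ Real.log m := Real.log_le_log hk00 (by exact_mod_cast (by omega : k0 ≤ m))
  have hlm1 : Real.log m ≤ Real.log ((m + 1 : ℕ) : ℝ) := Real.log_le_log hm0 (by push_cast; linarith)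
  have hratio : Real.log ((m + 1 : ℕ) : ℝ) - Real.log m ≤ 1 := by
    have h2 := log_ratio_le hm0 (b := ((m + 1 : ℕ) : ℝ)) (by push_cast; linarith)
    have h3 : (((m + 1 : ℕ) : ℝ) - m) / m ≤ 1 := by
      rw [div_le_one hm0]
      push_cast
      have : (1 : ℝ) ≤ m := by exact_mod_cast (by omega : 1 ≤ m)
      linarith
    linarith
  set x := Real.log ((m + 1 : ℕ) : ℝ) with hx
  have hx0 : 0 < x := by linarith
  -- the pointwise bound
  have hpt : ∀ ω, ind S (m + 1) ω * ind (TT S a k0) (m + 1) ω * q S (len τ) (m + 1) ω ≤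
      C / ((m + 1 : ℕ) : ℝ) * (ind (TT S a k0) m ω * ind S (m + 1) ω) := by
    intro ω
    have hi := ind_nonneg S (m + 1) ω
    by_cases hω : ω ∈ TT S a k0 (m + 1)
    · have hω2 : ω ∈ TT S a k0 m := TT_succ a hω
      have e1 : ind (TT S a k0) (m + 1) ω = 1 := by simp [ind, hω]
      have e2 : ind (TT S a k0) m ω = 1 := by simp [ind, hω2]
      rw [e1, e2, mul_one, one_mul]
      have hq := q_le h.one ha (by omega : k0 ≤ m + 1) (by omega) (by linarith : 1 ≤ x) hlen hω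
      calc ind S (m + 1) ω * q S (len τ) (m + 1) ω ≤ ind S (m + 1) ω * (C / ((m + 1 : ℕ) : ℝ)) :=
            mul_le_mul_of_nonneg_left hq hi
        _ = _ := by ring
    · have e1 : ind (TT S a k0) (m + 1) ω = 0 := by simp [ind, hω]
      rw [e1, mul_zero, zero_mul]
      have := ind_nonneg (TT S a k0) m ω
      positivity
  have hpt2 : ∀ ω, ind (TT S a k0) m ω * y S m ω ≤ 2 / x := by
    intro ω
    by_cases hω : ω ∈ TT S a k0 m
    · have e2 : ind (TT S a k0) m ω = 1 := by simp [ind, hω]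
      rw [e2, one_mul]
      have hW := hω m (by omega) le_rfl
      rw [abs_le] at hW
      have hWl : x / 2 ≤ W S m ω := by linarith [hW.1]
      have h2 : y S m ω = (W S m ω)⁻¹ := by
        unfold W
        rw [inv_inv]
      have h3 : (2 : ℝ) / x = (x / 2)⁻¹ := by rw [inv_div]
      rw [h2, h3]
      exact inv_anti₀ (by positivity) hWl
    · have e2 : ind (TT S a k0) m ω = 0 := by simp [ind, hω]
      rw [e2, zero_mul]
      positivity
  have hT := fun n => meas_TT h a k0 n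
  have sT := sm_T hT m
  have hTb : ∀ ω, |ind (TT S a k0) m ω| ≤ 1 := fun ω => by
    rw [abs_of_nonneg (ind_nonneg _ m ω)]
    exact ind_le_one _ m ω
  have hk := key h (by omega : 2 ≤ m) sT hTb
  have i1 : Integrable (fun ω => ind (TT S a k0) m ω * ind S (m + 1) ω) μ := by
    refine int_of_bdd (ℱ.le (m + 1)) ((sT.mono (ℱ.mono (Nat.le_succ m))).mul (sm_ind h (m + 1)))
      (c := 1) fun ω => ?_
    rw [abs_mul, abs_of_nonneg (ind_nonneg S _ ω)]
    exact mul_le_one₀ (hTb ω) (ind_nonneg S _ ω) (ind_le_one S (m + 1) ω)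
  have i2 : Integrable (fun ω => ind (TT S a k0) m ω * y S m ω) μ := by
    refine int_of_bdd (ℱ.le m) (sT.mul (sm_y h m)) (c := 1) fun ω => ?_
    rw [abs_mul, abs_of_nonneg (y_pos S h.one m ω).le]
    exact mul_le_one₀ (hTb ω) (y_pos S h.one m ω).le (y_le_one S h.one m ω)
  have i3 : Integrable (fun ω => ind S (m + 1) ω * ind (TT S a k0) (m + 1) ω *
      q S (len τ) (m + 1) ω) μ := by
    refine int_of_bdd (ℱ.le (m + 1)) (((sm_ind h (m + 1)).mul (sm_T hT (m + 1))).mul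
      (sm_q h _ (m + 1))) (c := 1) fun ω => ?_
    rw [abs_of_nonneg (mul_nonneg (mul_nonneg (ind_nonneg _ _ ω) (ind_nonneg _ _ ω))
      (q_nonneg h.one _ _ ω))]
    exact mul_le_one₀ (mul_le_one₀ (ind_le_one _ _ ω) (ind_nonneg _ _ ω) (ind_le_one _ _ ω))
      (q_nonneg h.one _ _ ω) (q_le_one h.one _ _ ω)
  calc ∫ ω, ind S (m + 1) ω * ind (TT S a k0) (m + 1) ω * q S (len τ) (m + 1) ω ∂μ
      ≤ ∫ ω, C / ((m + 1 : ℕ) : ℝ) * (ind (TT S a k0) m ω * ind S (m + 1) ω) ∂μ :=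
        integral_mono i3 (i1.const_mul _) hpt
    _ = C / ((m + 1 : ℕ) : ℝ) * ∫ ω, ind (TT S a k0) m ω * y S m ω ∂μ := by
        rw [integral_const_mul, hk]
    _ ≤ C / ((m + 1 : ℕ) : ℝ) * ∫ _ω, 2 / x ∂μ :=
        mul_le_mul_of_nonneg_left (integral_mono i2 (integrable_const _) hpt2) (by positivity)
    _ = 2 * C * (1 / (((m + 1 : ℕ) : ℝ) * x)) := by
        simp only [integral_const, probReal_univ, smul_eq_mul, one_mul]
        field_simp

/-- comparison of the sum with `log log` -/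
lemma sum_ll {k0 : ℕ} (hk0 : 3 ≤ k0) (X : ℕ) (hX : k0 ≤ X) :
    ∑ n ∈ Ioc k0 X, 1 / ((n : ℝ) * Real.log n) ≤ ll X - ll k0 := by
  induction X, hX using Nat.le_induction with
  | base => simp
  | succ n hn ih =>
    have e : Ioc k0 (n + 1) = insert (n + 1) (Ioc k0 n) := by
      ext m
      simp only [mem_Ioc, mem_insert]
      omega
    rw [e, sum_insert (by simp)]
    have h0 : (0 : ℝ) < n := by exact_mod_cast (by omega : 0 < n)
    have h1 : (n : ℝ) ≤ ((n + 1 : ℕ) : ℝ) := by exact_mod_cast Nat.le_succ n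
    have h3 : (3 : ℝ) ≤ n := by exact_mod_cast (by omega : 3 ≤ n)
    have hl : 0 < Real.log n := Real.log_pos (by linarith)
    have hl1 : Real.log n ≤ Real.log ((n + 1 : ℕ) : ℝ) := Real.log_le_log h0 h1
    have h4 := log_ratio_ge h0 h1
    have h5 := log_ratio_ge hl hl1
    have h6 : 1 / (((n + 1 : ℕ) : ℝ) * Real.log ((n + 1 : ℕ) : ℝ)) ≤ ll (n + 1) - ll n := by
      unfold ll
      refine le_trans ?_ h5
      rw [← div_div]
      refine div_le_div_of_nonneg_right ?_ (by linarith)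
      refine le_trans (le_of_eq ?_) h4
      congr 1
      push_cast
      ring
    linarith

/-- the second moment of the truncated deviation -/
lemma V_le (h : Sieve μ ℱ S) {a τ : ℝ} (ha : 0 ≤ a) {k0 : ℕ} (hk0 : 3 ≤ k0)
    (hx1 : 2 * a + 2 ≤ Real.log k0) (hlen : ∀ n, k0 < n → 1 ≤ len τ n) (X : ℕ) (hX : k0 ≤ X) :
    ∫ ω, (∑ n ∈ Ioc k0 X, D S (len τ) (TT S a k0) n ω) ^ 2 ∂μ ≤
      2 * Real.exp (a + (1 + |a * τ|) - τ) * ll X := by
  have h1 := V_sq h (len τ) (fun n => meas_TT h a k0 n) (by omega : 2 ≤ k0) X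
  refine h1.trans ?_
  have h2 : ∑ n ∈ Ioc k0 X, ∫ ω, ind S n ω * ind (TT S a k0) n ω * q S (len τ) n ω ∂μ ≤
      ∑ n ∈ Ioc k0 X, 2 * Real.exp (a + (1 + |a * τ|) - τ) * (1 / ((n : ℝ) * Real.log n)) := by
    refine sum_le_sum fun n hn => ?_
    rw [mem_Ioc] at hn
    exact term_le h ha (by omega) hn.1 hx1 (hlen n hn.1)
  refine h2.trans ?_
  rw [← mul_sum]
  refine mul_le_mul_of_nonneg_left ?_ (by positivity)
  have h3 := sum_ll hk0 X hX
  have h4 : 0 ≤ ll k0 := by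
    unfold ll
    exact Real.log_nonneg (by linarith)
  linarith

/-- the truncated deviation is negligible along the subsequence -/
lemma V_sub (h : Sieve μ ℱ S) {a τ : ℝ} (ha : 0 ≤ a) {k0 : ℕ} (hk0 : 3 ≤ k0)
    (hx1 : 2 * a + 2 ≤ Real.log k0) (hlen : ∀ n, k0 < n → 1 ≤ len τ n) :
    ∀ᵐ ω ∂μ, Tendsto (fun j : ℕ =>
      (∑ n ∈ Ioc k0 (XX j), D S (len τ) (TT S a k0) n ω) / (j : ℝ) ^ 2) atTop (𝓝 0) := by
  set C := 2 * Real.exp (a + (1 + |a * τ|) - τ) with hC
  have hC0 : 0 < C := by positivity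
  set V : ℕ → Ω → ℝ := fun j ω => ∑ n ∈ Ioc k0 (XX j), D S (len τ) (TT S a k0) n ω with hV
  have mV : ∀ j, Measurable (V j) := by
    intro j
    refine Finset.measurable_sum _ fun n _ => ?_
    exact ((sm_D h (len τ) (fun n => meas_TT h a k0 n) n).mono (ℱ.le _)).measurable
  have iV : ∀ j, Integrable (fun ω => V j ω ^ 2) μ := by
    intro j
    refine Integrable.of_bound (mV j |>.pow_const 2).aestronglyMeasurable
      ((#(Ioc k0 (XX j)) : ℝ) ^ 2) (Eventually.of_forall fun ω => ?_)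
    rw [norm_pow]
    refine pow_le_pow_left₀ (norm_nonneg _) ?_ 2
    calc ‖V j ω‖ ≤ ∑ n ∈ Ioc k0 (XX j), ‖D S (len τ) (TT S a k0) n ω‖ := norm_sum_le _ _
      _ ≤ ∑ n ∈ Ioc k0 (XX j), 1 := sum_le_sum fun n _ => D_bdd h.one _ _ n ω
      _ = _ := by simp
  -- second moments
  have hb : ∀ j, 1 ≤ j → ∫ ω, V j ω ^ 2 ∂μ ≤ C * ((j : ℝ) ^ 2 + 1) := by
    intro j hj
    rcases le_total k0 (XX j) with hX | hX
    · refine (V_le h ha hk0 hx1 hlen (XX j) hX).trans ?_
      exact mul_le_mul_of_nonneg_left (ll_XX j).2 hC0.le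
    · have : ∀ ω, V j ω = 0 := by
        intro ω
        rw [hV]
        simp only
        rw [Ioc_eq_empty (by omega), sum_empty]
      simp only [this]
      simp
      positivity
  set F : ℕ → Ω → ENNReal := fun j ω => ENNReal.ofReal ((V (j + 1) ω / ((j + 1 : ℕ) : ℝ) ^ 2) ^ 2)
    with hF
  have hFm : ∀ j, Measurable (F j) := fun j =>
    ENNReal.measurable_ofReal.comp (((mV (j + 1)).div_const _).pow_const 2)
  have hFint : ∀ j, ∫⁻ ω, F j ω ∂μ ≤ ENNReal.ofReal (2 * C * (1 / ((j + 1 : ℕ) : ℝ) ^ 2)) := by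
    intro j
    have hj0 : (0 : ℝ) < ((j + 1 : ℕ) : ℝ) := by exact_mod_cast Nat.succ_pos j
    have hj1 : (1 : ℝ) ≤ ((j + 1 : ℕ) : ℝ) := by exact_mod_cast Nat.succ_le_succ (Nat.zero_le j)
    have e1 : ∀ ω, (V (j + 1) ω / ((j + 1 : ℕ) : ℝ) ^ 2) ^ 2 =
        V (j + 1) ω ^ 2 / ((j + 1 : ℕ) : ℝ) ^ 4 := by
      intro ω
      rw [div_pow]
      congr 1
      ring
    have e2 : ∫⁻ ω, F j ω ∂μ = ENNReal.ofReal (∫ ω, V (j + 1) ω ^ 2 / ((j + 1 : ℕ) : ℝ) ^ 4 ∂μ) := by
      rw [ofReal_integral_eq_lintegral_ofReal ((iV (j + 1)).div_const _)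
        (Eventually.of_forall fun ω => by positivity)]
      refine lintegral_congr fun ω => ?_
      rw [hF]
      simp only
      rw [e1]
    rw [e2]
    refine ENNReal.ofReal_le_ofReal ?_
    rw [integral_div]
    have h2 := hb (j + 1) (by omega)
    rw [div_le_iff₀ (by positivity)]
    refine h2.trans ?_
    have h3 : 2 * C * (1 / ((j + 1 : ℕ) : ℝ) ^ 2) * ((j + 1 : ℕ) : ℝ) ^ 4 =
        C * (2 * ((j + 1 : ℕ) : ℝ) ^ 2) := by
      field_simp
    rw [h3]
    refine mul_le_mul_of_nonneg_left ?_ hC0.le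
    nlinarith
  have hsum : Summable (fun j : ℕ => 2 * C * (1 / ((j + 1 : ℕ) : ℝ) ^ 2)) := by
    have h2 : Summable (fun n : ℕ => 1 / (n : ℝ) ^ 2) := Real.summable_one_div_nat_pow.2 (by norm_num)
    exact ((summable_nat_add_iff 1).2 h2).mul_left (2 * C)
  have htot : ∫⁻ ω, ∑' j, F j ω ∂μ ≠ ⊤ := by
    rw [lintegral_tsum fun j => (hFm j).aemeasurable]
    have h2 : ∑' j, ∫⁻ ω, F j ω ∂μ ≤ ∑' j : ℕ, ENNReal.ofReal (2 * C * (1 / ((j + 1 : ℕ) : ℝ) ^ 2)) :=
      ENNReal.tsum_le_tsum hFint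
    refine ne_top_of_le_ne_top ?_ h2
    exact hsum.tsum_ofReal_ne_top
  have hae := ae_lt_top (Measurable.tsum hFm) htot
  filter_upwards [hae] with ω hω
  have h3 : Tendsto (fun j => F j ω) atTop (𝓝 0) := ENNReal.tendsto_atTop_zero_of_tsum_ne_top hω.ne
  have h4 : Tendsto (fun j : ℕ => (V (j + 1) ω / ((j + 1 : ℕ) : ℝ) ^ 2) ^ 2) atTop (𝓝 0) := by
    have h5 := (ENNReal.tendsto_toReal (ENNReal.zero_ne_top)).comp h3
    rw [ENNReal.toReal_zero] at h5
    refine h5.congr fun j => ?_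
    simp only [Function.comp, hF]
    rw [ENNReal.toReal_ofReal (by positivity)]
  have h6 : Tendsto (fun j : ℕ => |V (j + 1) ω / ((j + 1 : ℕ) : ℝ) ^ 2|) atTop (𝓝 0) := by
    have h7 := (Real.continuous_sqrt.tendsto 0).comp h4
    rw [Real.sqrt_zero] at h7
    refine h7.congr fun j => ?_
    simp only [Function.comp]
    rw [Real.sqrt_sq_eq_abs]
  have h8 := (tendsto_zero_iff_abs_tendsto_zero _).2 h6
  exact (tendsto_add_atTop_iff_nat (f := fun j : ℕ => V j ω / (j : ℝ) ^ 2) 1).1 h8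

end Pool.Agent.H35J.Hawkins
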