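import Mathlib
import Pool.Agent.H35J.Haw4

set_option autoImplicit false

/-!
# The random sieve of Hawkins: the count law
-/

open MeasureTheory Filter Finset
open scoped Topology

namespace Pool.Agent.H35J.Hawkins

open Pool.Agent.H35J (gap gap_self gap_succ meas_gap last le_last last_le le_last' log_tendsto
  loglog_tendsto log_ratio_le log_ratio_ge pow_le_exp mem_window)

variable {Ω : Type} [mΩ : MeasurableSpace Ω] {μ : Measure Ω} [IsProbabilityMeasure μ]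
  {ℱ : Filtration ℕ mΩ} {S : ℕ → Set Ω}

/-- the number of large gaps as a sum -/
noncomputable def AA (S : ℕ → Set Ω) (τ : ℝ) (X : ℕ) (ω : Ω) : ℝ :=
  ∑ n ∈ range (X + 1), ind S n ω * gw S (len τ) n ω

omit mΩ in
lemma AA_mono (τ : ℝ) (ω : Ω) : Monotone fun X => AA S τ X ω := by
  refine monotone_nat_of_le_succ fun X => ?_
  unfold AA
  rw [sum_range_succ _ (X + 1)]
  have h1 := ind_nonneg S (X + 1) ω
  have h2 : 0 ≤ gw S (len τ) (X + 1) ω := gI_nonneg _ _ ω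
  have := mul_nonneg h1 h2
  linarith

omit mΩ in
/-- on one path -/
lemma path {a τ L b : ℝ} {k0 : ℕ} {ω : Ω} (h1 : S 1 = ∅)
    (hW : Tendsto (fun n : ℕ => W S n ω - Real.log n) atTop (𝓝 L)) (hb : b = Real.exp (L - 1 / 2 - τ))
    (hgood : ∀ n, k0 ≤ n → ω ∈ TT S a k0 n)
    (hV : Tendsto (fun j : ℕ =>
      (∑ n ∈ Ioc k0 (XX j), D S (len τ) (TT S a k0) n ω) / (j : ℝ) ^ 2) atTop (𝓝 0)) :
    Tendsto (fun X : ℕ => AA S τ X ω / ll X) atTop (𝓝 b) := by
  refine sandwich (AA_mono τ ω) ?_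
  have hj2 : Tendsto (fun j : ℕ => (j : ℝ) ^ 2) atTop atTop :=
    (tendsto_pow_atTop (by norm_num)).comp tendsto_natCast_atTop_atTop
  set c0 : ℝ := ∑ n ∈ range (k0 + 1), ind S n ω * (gw S (len τ) n ω - q S (len τ) n ω) with hc0
  have hC := (comp_ll (τ := τ) h1 hW).comp XX_tendsto
  rw [← hb] at hC
  have h2 : Tendsto (fun j : ℕ => c0 / (j : ℝ) ^ 2 +
      (∑ n ∈ Ioc k0 (XX j), D S (len τ) (TT S a k0) n ω) / (j : ℝ) ^ 2 +
      (∑ n ∈ range (XX j + 1), ind S n ω * q S (len τ) n ω) / ll (XX j) *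
        (ll (XX j) / (j : ℝ) ^ 2)) atTop (𝓝 (0 + 0 + b * 1)) :=
    ((tendsto_const_nhds.div_atTop hj2).add hV).add (hC.mul XX_ll)
  rw [add_zero, zero_add, mul_one] at h2
  refine h2.congr' ?_
  filter_upwards [XX_tendsto.eventually_ge_atTop k0, hj2.eventually_gt_atTop 0] with j hj hj0
  have hll : 0 < ll (XX j) := lt_of_lt_of_le hj0 (ll_XX j).1
  have e1 : ∑ n ∈ Ioc k0 (XX j), D S (len τ) (TT S a k0) n ω =
      ∑ n ∈ Ioc k0 (XX j), ind S n ω * (gw S (len τ) n ω - q S (len τ) n ω) := by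
    refine sum_congr rfl fun n hn => ?_
    rw [mem_Ioc] at hn
    have e2 : ind (TT S a k0) n ω = 1 := by
      have := hgood n hn.1.le
      simp [ind, this]
    unfold D
    rw [e2, mul_one]
  have e3 : ∑ n ∈ range (XX j + 1), ind S n ω * (gw S (len τ) n ω - q S (len τ) n ω) =
      c0 + ∑ n ∈ Ioc k0 (XX j), ind S n ω * (gw S (len τ) n ω - q S (len τ) n ω) := by
    have e4 : range (XX j + 1) = range (k0 + 1) ∪ Ioc k0 (XX j) := by
      ext m
      simp only [mem_range, mem_union, mem_Ioc]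
      omega
    rw [e4, sum_union]
    rw [disjoint_left]
    intro m hm1 hm2
    rw [mem_range] at hm1
    rw [mem_Ioc] at hm2
    omega
  have e5 : AA S τ (XX j) ω = ∑ n ∈ range (XX j + 1), ind S n ω * (gw S (len τ) n ω - q S (len τ) n ω)
      + ∑ n ∈ range (XX j + 1), ind S n ω * q S (len τ) n ω := by
    unfold AA
    rw [← sum_add_distrib]
    refine sum_congr rfl fun n _ => ?_
    ring
  rw [e1, e5, e3]
  field_simp

/-- **The count law.** -/
lemma count_law (h : Sieve μ ℱ S) {L : Ω → ℝ}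
    (hL : ∀ᵐ ω ∂μ, Tendsto (fun n : ℕ => W S n ω - Real.log n) atTop (𝓝 (L ω))) (τ : ℝ) :
    ∀ᵐ ω ∂μ, Tendsto (fun X : ℕ => AA S τ X ω / ll X) atTop
      (𝓝 (Real.exp (L ω - 1 / 2 - τ))) := by
  obtain ⟨N, hN⟩ := eventually_atTop.1 (len_nonneg τ)
  have hsub : ∀ᵐ ω ∂μ, ∀ a k0 : ℕ, 3 ≤ k0 → N ≤ k0 → 2 * (a : ℝ) + 2 ≤ Real.log k0 →
      Tendsto (fun j : ℕ =>
        (∑ n ∈ Ioc k0 (XX j), D S (len τ) (TT S a k0) n ω) / (j : ℝ) ^ 2) atTop (𝓝 0) := by
    rw [ae_all_iff]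
    intro a
    rw [ae_all_iff]
    intro k0
    by_cases hc : 3 ≤ k0 ∧ N ≤ k0 ∧ 2 * (a : ℝ) + 2 ≤ Real.log k0
    · have := V_sub h (Nat.cast_nonneg a) hc.1 hc.2.2 (τ := τ) (fun n hn => hN n (by omega))
      filter_upwards [this] with ω hω _ _ _
      exact hω
    · exact Eventually.of_forall fun ω h1 h2 h3 => absurd ⟨h1, h2, h3⟩ hc
  filter_upwards [hL, hsub] with ω hω hω2
  obtain ⟨a, ha⟩ := exists_nat_ge (|L ω| + 1)
  have h1 : ∀ᶠ n : ℕ in atTop, |W S n ω - Real.log n| ≤ a := by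
    have h2 := hω.abs.eventually_lt_const (show |L ω| < |L ω| + 1 by linarith)
    filter_upwards [h2] with n hn
    linarith
  obtain ⟨n0, hn0⟩ := eventually_atTop.1 h1
  obtain ⟨n1, hn1⟩ := eventually_atTop.1 (log_tendsto.eventually_ge_atTop (2 * (a : ℝ) + 2))
  set k0 := max (max n0 n1) (max N 3) with hk0
  have b1 : n0 ≤ k0 ∧ n1 ≤ k0 ∧ N ≤ k0 ∧ 3 ≤ k0 := by omega
  refine path (a := a) (k0 := k0) h.one hω rfl ?_ (hω2 a k0 b1.2.2.2 b1.2.2.1 (hn1 k0 b1.2.1))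
  intro n hn k hk1 hk2
  exact hn0 k (by omega)

omit mΩ in
/-- the count as a cardinality -/
lemma ncard_eq (τ : ℝ) (X : ℕ) (ω : Ω) :
    (({p : ℕ | p ≤ X ∧ p ∈ chosen S ω ∧
      Free (chosen S ω) p (Real.log p ^ 2 + τ * Real.log p)}.ncard : ℕ) : ℝ) = AA S τ X ω := by
  classical
  have hset : {p : ℕ | p ≤ X ∧ p ∈ chosen S ω ∧
      Free (chosen S ω) p (Real.log p ^ 2 + τ * Real.log p)} =
      ((range (X + 1)).filter (fun p => p ∈ chosen S ω ∧
        Free (chosen S ω) p (Real.log p ^ 2 + τ * Real.log p)) : Finset ℕ) := by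
    ext p
    simp only [Set.mem_ofPred_eq, coe_filter, mem_range, Nat.lt_succ_iff]
  rw [hset, Set.ncard_coe_finset, card_filter]
  push_cast
  unfold AA
  refine sum_congr rfl fun n _ => ?_
  unfold ind gw gI
  by_cases h1 : ω ∈ S n
  · have h2 : (ω ∈ gap S n (last (len τ n) n)) ↔
        Free (chosen S ω) n (Real.log n ^ 2 + τ * Real.log n) := by
      unfold gap Free chosen
      simp only [Set.mem_ofPred_eq]
      constructor
      · intro h3 m hm hm2
        have h4 : n < m := by exact_mod_cast hm2.1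
        exact h3 m h4 (mem_window.2 ⟨h4, hm2.2⟩).2 hm
      · intro h3 m hm1 hm2 hm
        exact h3 m hm ⟨by exact_mod_cast hm1, (mem_window.1 ⟨hm1, hm2⟩).2⟩
    have h5 : n ∈ chosen S ω := h1
    by_cases h3 : ω ∈ gap S n (last (len τ n) n)
    · rw [if_pos ⟨h5, h2.1 h3⟩, Set.indicator_of_mem h1, Set.indicator_of_mem h3]
      norm_num
    · rw [if_neg (fun h6 => h3 (h2.2 h6.2)), Set.indicator_of_notMem h3]
      norm_num
  · rw [if_neg (fun h6 => h1 h6.1), Set.indicator_of_notMem h1, zero_mul]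

end Pool.Agent.H35J.Hawkins
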