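import Pool.Agent.H35J.GS.Main

/-!
# The Sato-Tate law of the coefficients of the `L`-polynomials for almost all hyperelliptic Jacobians of large genus

Let `C_t` be the hyperelliptic curve `y ^ 2 = X ^ D + t_(D-1) X ^ (D-1) + … + t_0`, `D = 2 g + 1` or `2 g + 2`, and let
`a_i(p)` be the coefficients of the normalised Euler factors of its Jacobian. We compare the numbers `a_i(p)`, `p` in an interval
`(Y, Y']` (or in the part of it in any given set of primes), with the coefficients of the characteristic polynomials of the matrices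
in the compact group `USp(2 g)`, which is the Sato-Tate group of `C_t` for almost all `t`: the joint distribution function of
`a_1(p), …, a_r(p)` agrees with that for the Haar measure up to `ε` if `g ≥ g₀(r, ε)`, for almost all `t`, in all intervals.

Proof. The values of a random monic polynomial of degree `D` at closed points of total degree at most `D` are independent and
uniformly distributed. This gives the moments over all `t` modulo `p` up to `O (p ^ (-1 / 2))`, uniformly in `D`: they are those of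
independent normal variables with the means `-1` (for even powers) or `0` and the variances `j`. The Chinese remainder theorem
gives the second moments of the sums over primes, and the inequality of Rademacher and Menshov makes them uniform in the
intervals. The moments for the Haar measure are determined up to `O (1 / g)` from the loop equations (integration by parts on
`USp(2 g)`). Finally the moment problem for the normal law is determinate (the theorem of Lévy), and Newton's identities express the coefficients in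
terms of the traces of the powers.
-/

set_option autoImplicit false

namespace Pool.Agent.H35J.HyperellipticLaw

open Finset Polynomial MeasureTheory

/-- The polynomial `X ^ D + t_(D-1) X ^ (D-1) + … + t_0` over the ring `R`. -/
noncomputable def poly (R : Type) [CommRing R] {D : ℕ} (t : Fin D → ℤ) : R[X] :=
  X ^ D + ∑ i : Fin D, C (t i : R) * X ^ (i : ℕ)

open Classical in
/-- The number of the points over the field with `p ^ k` elements (`p` a prime number) of the smooth projective curve with the affine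
equation `y ^ 2 = X ^ D + t_(D-1) X ^ (D-1) + … + t_0`: the solutions of the equation, and one point at infinity if `D` is odd, two if `D`
is even. -/
noncomputable def points (p k : ℕ) {D : ℕ} (t : Fin D → ℤ) : ℕ :=
  if h : p.Prime then
    haveI : Fact p.Prime := ⟨h⟩
    Nat.card {P : GaloisField p k × GaloisField p k // P.2 ^ 2 = (poly (GaloisField p k) t).eval P.1} + if Odd D then 1 else 2
  else 0

/-- `p` is an odd prime number and the polynomial is squarefree modulo `p`, so that the curve (of genus `g`, `D = 2 g + 1` or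
`2 g + 2`) is smooth modulo `p`. -/
def Good {D : ℕ} (t : Fin D → ℤ) (p : ℕ) : Prop := p.Prime ∧ p ≠ 2 ∧ Squarefree (poly (ZMod p) t)

/-- The trace `s_k(p)` of the `k`-th power of the normalised Frobenius: if the normalised Euler factor is `∏ (1 - α_j T)`, this is
`∑ α_j ^ k = (p ^ k + 1 - #C(F_(p ^ k))) / p ^ (k / 2)`. -/
noncomputable def s {D : ℕ} (t : Fin D → ℤ) (p k : ℕ) : ℝ := ((p : ℝ) ^ k + 1 - points p k t) / Real.sqrt p ^ k

/-- The coefficients of the polynomial `∏ (1 - α_j T)` in terms of the power sums `σ_k = ∑ α_j ^ k`, by Newton's identities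
`(i + 1) a_(i+1) = - ∑_(j ≤ i) σ_(j+1) a_(i-j)`, `a_0 = 1`. -/
noncomputable def newton (σ : ℕ → ℝ) : ℕ → ℝ
  | 0 => 1
  | i + 1 => -(∑ j : Fin (i + 1), σ (j + 1) * newton σ (i - j)) / (i + 1)

/-- The coefficient `a_i(p)` of the normalised Euler factor of the Jacobian at the good prime `p`. -/
noncomputable def a {D : ℕ} (t : Fin D → ℤ) (i p : ℕ) : ℝ := newton (s t p) i

open Classical in
/-- The good primes `p` in the set `S` with `Y < p ≤ Y'`. -/
noncomputable def primesIn {D : ℕ} (t : Fin D → ℤ) (S : Set ℕ) (Y Y' : ℕ) : Finset ℕ := (Ioc Y Y').filter fun p => p ∈ S ∧ Good t p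

/-- The integer vectors `t` with `N i ≤ t i < N i + L i`. -/
noncomputable def box {D : ℕ} (N : Fin D → ℤ) (L : Fin D → ℕ) : Finset (Fin D → ℤ) := Fintype.piFinset fun i => Ico (N i) (N i + L i)

/-- For all sets `S` of primes, all boxes with sides at least `T (D + 1)` and all `X₀ ≥ 1` the vectors `t` of the box have the property
`P t S Y Y'` for all `Y ≤ Y'` with `X₀ ≤ Y' ≤ T ^ κ`, with at most `C X₀ ^ (-ε / 2)` times the volume of the box exceptions. -/
def AlmostAll (D : ℕ) (ε κ C : ℝ) (P : (Fin D → ℤ) → Set ℕ → ℕ → ℕ → Prop) : Prop :=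
  ∀ (S : Set ℕ) (N : Fin D → ℤ) (L : Fin D → ℕ) (T : ℝ), 0 < T → (∀ i, T * (D + 1) ≤ L i) → ∀ X₀ : ℕ, 1 ≤ X₀ →
    ∃ E : Finset (Fin D → ℤ), E ⊆ box N L ∧ (E.card : ℝ) ≤ C * (X₀ : ℝ) ^ (-(ε / 2)) * ∏ i, (L i : ℝ) ∧
      ∀ t ∈ box N L, t ∉ E → ∀ Y Y' : ℕ, Y ≤ Y' → X₀ ≤ Y' → (Y' : ℝ) ≤ T ^ κ → P t S Y Y'

/-- The compact symplectic group. -/
def USp (g : ℕ) : Set (Matrix (Fin g ⊕ Fin g) (Fin g ⊕ Fin g) ℂ) :=
  {U | U.conjTranspose * U = 1 ∧ U.transpose * Matrix.J (Fin g) ℂ * U = Matrix.J (Fin g) ℂ}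

/-- The Haar probability measure on `USp(2 g)`, as a measure on the Borel sets of the space of the matrices. -/
structure IsHaar (g : ℕ) (μ : @Measure (Matrix (Fin g ⊕ Fin g) (Fin g ⊕ Fin g) ℂ) (borel _)) : Prop where
  prob : IsProbabilityMeasure μ
  supp : ∀ᵐ U ∂μ, U ∈ USp g
  inv : ∀ V ∈ USp g, @Measure.map _ _ (borel _) (borel _) (fun U => V * U) μ = μ

/-- The coefficient `Φ_i(U)` of `T ^ i` in `det (1 - T U)` (a real number for `U` in `USp(2 g)`). -/
noncomputable def Φ {g : ℕ} (i : ℕ) (U : Matrix (Fin g ⊕ Fin g) (Fin g ⊕ Fin g) ℂ) : ℝ := (U.charpolyRev.coeff i).re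

lemma newton_eq (σ : ℕ → ℝ) (i : ℕ) : newton σ i = H35GS.coef σ i := by
  induction i using Nat.strong_induction_on with
  | _ i ih =>
    rcases i with _ | i
    · rw [H35GS.coef_zero, newton]
    · rw [H35GS.coef_succ, newton]
      congr 2
      exact sum_congr rfl fun j _ => by rw [ih (i - j) (by omega)]

lemma haar_of {g : ℕ} {μ : @Measure (Matrix (Fin g ⊕ Fin g) (Fin g ⊕ Fin g) ℂ) (borel _)} (h : IsHaar g μ) : H35GS.Haar μ where
  prob := h.prob
  supp := by
    filter_upwards [h.supp] with U hU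
    exact ⟨hU.1, hU.2⟩
  inv := fun V hV => h.inv V ⟨hV.un, hV.sy⟩

lemma poly_eq (p : ℕ) {D : ℕ} (t : Fin D → ℤ) : poly (ZMod p) t = H35GS.fpol fun i => (t i : ZMod p) := rfl

lemma eval_poly (p k : ℕ) [Fact p.Prime] {D : ℕ} (t : Fin D → ℤ) (x : GaloisField p k) :
    (poly (GaloisField p k) t).eval x = aeval x (H35GS.fpol fun i => (t i : ZMod p)) := by
  unfold poly H35GS.fpol
  simp [eval_finsetSum]

lemma s_eq {D : ℕ} (t : Fin D → ℤ) (p j : ℕ) (hp : p.Prime) (hp2 : p ≠ 2) : s t p (j + 1) = H35GS.sv D j p fun i => (t i : ZMod p) := by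
  classical
  have : Fact p.Prime := ⟨hp⟩
  have hring : ringChar (GaloisField p (j + 1)) ≠ 2 := by
    rw [ringChar.eq (GaloisField p (j + 1)) p]
    exact hp2
  have h1 : (Nat.card {P : GaloisField p (j + 1) × GaloisField p (j + 1) // P.2 ^ 2 = (poly (GaloisField p (j + 1)) t).eval P.1} : ℝ) =
      (p : ℝ) ^ (j + 1) + ∑ x : GaloisField p (j + 1), H35GS.qch (aeval x (H35GS.fpol fun i => (t i : ZMod p))) := by
    have h2 : Nat.card {P : GaloisField p (j + 1) × GaloisField p (j + 1) // P.2 ^ 2 = (poly (GaloisField p (j + 1)) t).eval P.1} =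
        ∑ x : GaloisField p (j + 1), Nat.card {y : GaloisField p (j + 1) // y ^ 2 = (poly (GaloisField p (j + 1)) t).eval x} := by
      rw [← Nat.card_sigma]
      exact Nat.card_congr ⟨fun P => ⟨P.1.1, ⟨P.1.2, P.2⟩⟩, fun P => ⟨(P.1, P.2.1), P.2.2⟩, fun _ => rfl, fun _ => rfl⟩
    rw [h2]
    push_cast
    have h3 : ∀ x : GaloisField p (j + 1), (Nat.card {y : GaloisField p (j + 1) // y ^ 2 = (poly (GaloisField p (j + 1)) t).eval x} : ℝ) =
        1 + H35GS.qch (aeval x (H35GS.fpol fun i => (t i : ZMod p))) := by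
      intro x
      rw [H35GS.card_sqrt hring, eval_poly]
    rw [sum_congr rfl fun x _ => h3 x, sum_add_distrib, sum_const, card_univ, H35GS.card_GF (j + 1) (Nat.succ_ne_zero j), nsmul_eq_mul, mul_one]
    push_cast
    rfl
  rw [H35GS.sv_eq]
  unfold s points H35GS.dl
  rw [dif_pos hp]
  push_cast
  rw [h1]
  congr 1
  split_ifs <;> ring

lemma primesIn_eq {D : ℕ} (t : Fin D → ℤ) (S : Set ℕ) (Y Y' : ℕ) : primesIn t S Y Y' = H35GS.GP D S Y Y' t := by
  classical
  ext p
  have h1 : p ∈ primesIn t S Y Y' ↔ p ∈ Ioc Y Y' ∧ p ∈ S ∧ Good t p := mem_filter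
  have h2 : p ∈ H35GS.GP D S Y Y' t ↔ p ∈ H35GS.IV Y Y' ∧ p ∈ S ∧ p ≠ 2 ∧ Squarefree (H35GS.fpol fun i => (t i : ZMod p)) := mem_filter
  have h3 : p ∈ H35GS.IV Y Y' ↔ p ∈ Ioc Y Y' ∧ p.Prime := mem_filter
  have h4 : Good t p ↔ p.Prime ∧ p ≠ 2 ∧ Squarefree (H35GS.fpol fun i => (t i : ZMod p)) := Iff.rfl
  rw [h1, h2, h3, h4]
  tauto

lemma good_of {D : ℕ} {t : Fin D → ℤ} {S : Set ℕ} {Y Y' p : ℕ} (h : p ∈ primesIn t S Y Y') : p.Prime ∧ p ≠ 2 := by
  classical
  have h1 : p ∈ primesIn t S Y Y' ↔ p ∈ Ioc Y Y' ∧ p ∈ S ∧ Good t p := mem_filter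
  have h2 := (h1.1 h).2.2
  exact ⟨h2.1, h2.2.1⟩

/-- **The Sato-Tate law of all the coefficients up to `ε`, for almost all hyperelliptic Jacobians of large genus.** Let `r ≥ 1`. For all `g ≥ g₀` and
`D ∈ {2 g + 1, 2 g + 2}`, for almost all `t` and all Haar measures `μ`: if there are
`n ≥ Y' ^ (1 / 2 + ε)` good primes of `S` in `(Y, Y']`, then for all real `x_1, …, x_r` the proportion of those of them with
`a_i(p) ≤ x_i` for all `i ≤ r` differs from the Haar measure of the set of the `U` with `Φ_i(U) ≤ x_i` for all `i ≤ r` by at most `ε`. -/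
theorem result (r : ℕ) (ε : ℝ) (hε : 0 < ε) (hε1 : ε ≤ 1) :
    ∃ (g₀ : ℕ) (κ C : ℝ), 0 < κ ∧ ∀ g D : ℕ, g₀ ≤ g → (D = 2 * g + 1 ∨ D = 2 * g + 2) →
      AlmostAll D ε κ C fun t S Y Y' => (Y' : ℝ) ^ (1 / 2 + ε) ≤ (primesIn t S Y Y').card → ∀ μ, IsHaar g μ → ∀ x : Fin r → ℝ,
        |({p ∈ primesIn t S Y Y' | ∀ i : Fin r, a t (i + 1) p ≤ x i}.card : ℝ) / (primesIn t S Y Y').card -
          (μ {U | ∀ i : Fin r, Φ (i + 1) U ≤ x i}).toReal| ≤ ε := by
  classical
  obtain ⟨g₀, κ, C, hκ, h⟩ := H35GS.main r ε hε hε1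
  refine ⟨g₀, κ, C, hκ, fun g D hg hgD S N L T hT hL X₀ hX₀ => ?_⟩
  obtain ⟨E, hE1, hE2, hE3⟩ := h g D hg (by omega) S N L T hT hL X₀ hX₀
  refine ⟨E, hE1, hE2, fun t ht htE Y Y' hYY hY hYT hcard μ hμ x => ?_⟩
  rw [primesIn_eq] at hcard
  have h1 := hE3 t ht htE Y Y' hYY hY hYT hcard μ (haar_of hμ) x
  rw [← primesIn_eq] at h1
  have h2 : ({p ∈ primesIn t S Y Y' | ∀ i : Fin r, a t (i + 1) p ≤ x i} : Finset ℕ) =
      (primesIn t S Y Y').filter fun p => ∀ i : Fin r, H35GS.coef (fun m => H35GS.sv D (m - 1) p fun i => (t i : ZMod p)) ((i : ℕ) + 1) ≤ x i := by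
    refine filter_congr fun p hp => forall_congr' fun i => ?_
    unfold a
    rw [newton_eq, H35GS.coef_congr r (fun m hm => ?_) _ (show (i : ℕ) + 1 ≤ r by omega)]
    rw [s_eq t p m (good_of hp).1 (good_of hp).2, Nat.add_sub_cancel]
  rw [h2]
  exact h1

end Pool.Agent.H35J.HyperellipticLaw
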